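import Pool.Agent.LibHB89.Defs

namespace Pool.HB89

open MeasureTheory Finset
open scoped ENNReal Nat

open Classical in
/-- The sum over the strictly decreasing positive tuples with entries less than `K`. -/
private noncomputable def A1_T (w : List ℕ) (K : ℕ∞) : ℝ≥0∞ :=
  ∑' k : Fin w.length → ℕ, if StrictAnti k ∧ ∀ i, 0 < k i ∧ ((k i : ℕ) : ℕ∞) < K then
    ∏ i, ((k i : ℝ≥0∞) ^ (w.get i))⁻¹ else 0

private theorem A1_cond (r : ℕ) (j : ℕ) (k : Fin r → ℕ) (K : ℕ∞) :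
    (StrictAnti (Fin.cons j k : Fin (r + 1) → ℕ) ∧
      ∀ i, 0 < (Fin.cons j k : Fin (r + 1) → ℕ) i ∧
        (((Fin.cons j k : Fin (r + 1) → ℕ) i : ℕ) : ℕ∞) < K) ↔
    (0 < j ∧ (j : ℕ∞) < K) ∧ (StrictAnti k ∧ ∀ i, 0 < k i ∧ ((k i : ℕ) : ℕ∞) < (j : ℕ∞)) := by
  constructor
  · rintro ⟨h1, h2⟩
    refine ⟨?_, ?_, fun i => ⟨?_, ?_⟩⟩
    · have h3 := h2 0
      simpa using h3
    · intro a b hab
      have h3 := h1 (show a.succ < b.succ from Fin.succ_lt_succ_iff.2 hab)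
      simpa using h3
    · have h3 := (h2 i.succ).1
      simpa using h3
    · have h3 := h1 (Fin.succ_pos i)
      rw [Fin.cons_succ, Fin.cons_zero] at h3
      exact_mod_cast h3
  · rintro ⟨⟨h1, h2⟩, h3, h4⟩
    constructor
    · intro a b hab
      refine Fin.cases (fun ha => ?_) (fun b' ha => ?_) b hab
      · exact absurd ha (Fin.not_lt_zero a)
      · revert ha
        refine Fin.cases (fun _ => ?_) (fun a' ha' => ?_) a
        · rw [Fin.cons_succ, Fin.cons_zero]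
          exact_mod_cast (h4 b').2
        · rw [Fin.cons_succ, Fin.cons_succ]
          exact h3 (Fin.succ_lt_succ_iff.1 ha')
    · intro i
      refine Fin.cases ?_ (fun i' => ?_) i
      · rw [Fin.cons_zero]
        exact ⟨h1, h2⟩
      · rw [Fin.cons_succ]
        exact ⟨(h4 i').1, (h4 i').2.trans h2⟩

private theorem A1_T_cons (n : ℕ) (w : List ℕ) (K : ℕ∞) :
    A1_T (n :: w) K = ∑' j : ℕ, if 0 < j ∧ (j : ℕ∞) < K then
      ((j : ℝ≥0∞) ^ n)⁻¹ * A1_T w (j : ℕ∞) else 0 := by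
  classical
  unfold A1_T
  have h1 := (Equiv.tsum_eq (Fin.consEquiv fun _ : Fin (w.length + 1) => ℕ)
    (fun k : Fin (w.length + 1) → ℕ =>
      if StrictAnti k ∧ ∀ i, 0 < k i ∧ ((k i : ℕ) : ℕ∞) < K then
        ∏ i, ((k i : ℝ≥0∞) ^ ((n :: w).get i))⁻¹ else 0)).symm
  refine Eq.trans ?_ (h1.trans ?_)
  · rfl
  rw [ENNReal.tsum_prod']
  refine tsum_congr fun j => ?_
  have h2 : ∀ k : Fin w.length → ℕ,
      (Fin.consEquiv fun _ : Fin (w.length + 1) => ℕ) (j, k) =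
        (Fin.cons j k : Fin (w.length + 1) → ℕ) := fun _ => rfl
  by_cases hj : 0 < j ∧ (j : ℕ∞) < K
  · rw [if_pos hj, ← ENNReal.tsum_mul_left]
    refine tsum_congr fun k => ?_
    rw [h2]
    by_cases hk : StrictAnti k ∧ ∀ i, 0 < k i ∧ ((k i : ℕ) : ℕ∞) < (j : ℕ∞)
    · rw [if_pos hk, if_pos ((A1_cond _ _ _ _).2 ⟨hj, hk⟩)]
      have h3 : ∏ i : Fin (w.length + 1), ((((Fin.cons j k : Fin (w.length + 1) → ℕ) i : ℕ) : ℝ≥0∞) ^
          ((n :: w).get i))⁻¹ = ((j : ℝ≥0∞) ^ n)⁻¹ * ∏ i, ((k i : ℝ≥0∞) ^ (w.get i))⁻¹ := by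
        rw [Fin.prod_univ_succ]
        rfl
      exact h3
    · rw [if_neg hk, if_neg (fun h => hk ((A1_cond _ _ _ _).1 h).2), mul_zero]
  · rw [if_neg hj]
    rw [ENNReal.tsum_eq_zero]
    intro k
    rw [h2, if_neg (fun h => hj ((A1_cond _ _ _ _).1 h).1)]

private theorem A1_T_eq (w : List ℕ) : ∀ K : ℕ∞, K ≠ 0 →
    A1_T w K = ∑' j : ℕ, if (j : ℕ∞) < K then co w j else 0 := by
  classical
  induction w with
  | nil =>
    intro K hK
    have h1 : A1_T [] K = 1 := by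
      unfold A1_T
      have h2 : ∀ k : Fin ([] : List ℕ).length → ℕ, (if StrictAnti k ∧ ∀ i, 0 < k i ∧
          ((k i : ℕ) : ℕ∞) < K then ∏ i, ((k i : ℝ≥0∞) ^ (([] : List ℕ).get i))⁻¹ else 0) =
          (1 : ℝ≥0∞) := by
        intro k
        rw [if_pos ⟨fun a => a.elim0, fun i => i.elim0⟩]
        rfl
      rw [tsum_congr h2, tsum_eq_single (fun i : Fin ([] : List ℕ).length => i.elim0)]
      intro k hk
      exact absurd (funext fun i => i.elim0) hk
    rw [h1, tsum_eq_single 0]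
    · rw [if_pos (by simpa using pos_iff_ne_zero.2 hK)]
      rfl
    · intro j hj
      rw [co, if_neg hj]
      simp
  | cons n w ih =>
    intro K _
    rw [A1_T_cons]
    refine tsum_congr fun j => ?_
    rcases Nat.eq_zero_or_pos j with hj | hj
    · subst hj
      rw [if_neg (fun h => lt_irrefl _ h.1), co, if_pos rfl]
      simp
    · by_cases hK : (j : ℕ∞) < K
      · rw [if_pos ⟨hj, hK⟩, if_pos hK, co, if_neg hj.ne', ih (j : ℕ∞) (by exact_mod_cast hj.ne')]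
        congr 1
        rw [tsum_eq_sum (s := range j)]
        · refine Finset.sum_congr rfl fun i hi => ?_
          rw [if_pos]
          exact_mod_cast Finset.mem_range.1 hi
        · intro i hi
          rw [if_neg]
          intro h
          exact hi (Finset.mem_range.2 (by exact_mod_cast h))
      · rw [if_neg hK, if_neg (fun h => hK h.2)]

/-- The multiple zeta value as an iterated sum. -/
theorem mzv_eq_co (w : List ℕ) : mzv w = (∑' k, co w k).toReal := by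
  classical
  have h1 : ∑' k, co w k = A1_T w ⊤ := by
    rw [A1_T_eq w ⊤ ENat.top_ne_zero]
    refine tsum_congr fun j => ?_
    rw [if_pos (ENat.natCast_lt_top j)]
  have h2 : A1_T w ⊤ = ∑' k : {k : Fin w.length → ℕ // StrictAnti k ∧ ∀ i, 0 < k i},
      ∏ i, ((k.1 i : ℝ≥0∞) ^ (w.get i))⁻¹ := by
    have h3 := tsum_subtype {k : Fin w.length → ℕ | StrictAnti k ∧ ∀ i, 0 < k i}
      (fun k => ∏ i, ((k i : ℝ≥0∞) ^ (w.get i))⁻¹)
    refine Eq.trans ?_ h3.symm
    unfold A1_T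
    refine tsum_congr fun k => ?_
    rw [Set.indicator_apply]
    have h4 : (StrictAnti k ∧ ∀ i, 0 < k i ∧ ((k i : ℕ) : ℕ∞) < ⊤) ↔
        k ∈ {k : Fin w.length → ℕ | StrictAnti k ∧ ∀ i, 0 < k i} :=
      ⟨fun h => ⟨h.1, fun i => (h.2 i).1⟩, fun h => ⟨h.1, fun i => ⟨h.2 i, ENat.natCast_lt_top _⟩⟩⟩
    by_cases h5 : StrictAnti k ∧ ∀ i, 0 < k i ∧ ((k i : ℕ) : ℕ∞) < ⊤
    · rw [if_pos h5, if_pos (h4.1 h5)]
    · rw [if_neg h5, if_neg (fun h => h5 (h4.2 h))]
  rw [h1, h2, ENNReal.tsum_toReal_eq]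
  · unfold mzv
    refine tsum_congr fun k => ?_
    rw [ENNReal.toReal_prod]
    refine Finset.prod_congr rfl fun i _ => ?_
    rw [ENNReal.toReal_inv, ENNReal.toReal_pow, ENNReal.toReal_natCast]
  · intro k
    refine ENNReal.prod_ne_top fun i _ => ?_
    rw [Ne, ENNReal.inv_eq_top]
    exact pow_ne_zero _ (by exact_mod_cast (k.2.2 i).ne')

end Pool.HB89
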