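import Pool.Agent.LibHB89.Defs

namespace Pool.HB89

open MeasureTheory Finset
open scoped ENNReal Nat

theorem A11a_continuous (n : ℕ) :
    Continuous (fun p : ℝ × (Fin n → ℝ) => incr n p.1 p.2) := by
  induction n with
  | zero =>
    refine continuous_pi fun i => ?_
    exact continuous_fst
  | succ n ih =>
    refine continuous_pi fun i => ?_
    refine Fin.cases ?_ (fun j => ?_) i
    · have h : (fun p : ℝ × (Fin (n + 1) → ℝ) => incr (n + 1) p.1 p.2 0) =
          fun p => p.1 - p.2 0 := by
        funext p
        rw [incr, Fin.cons_zero]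
      rw [h]
      fun_prop
    · have h : (fun p : ℝ × (Fin (n + 1) → ℝ) => incr (n + 1) p.1 p.2 j.succ) =
          fun p => (fun q : ℝ × (Fin n → ℝ) => incr n q.1 q.2) (p.2 0, fun i => p.2 i.succ) j := by
        funext p
        rw [incr, Fin.cons_succ]
      rw [h]
      refine (continuous_apply j).comp (ih.comp ?_)
      fun_prop

theorem incr_measurable (n : ℕ) : Measurable (fun p : ℝ × (Fin n → ℝ) => incr n p.1 p.2) :=
  (A11a_continuous n).measurable

theorem incr_sum (n : ℕ) (b : ℝ) (x : Fin n → ℝ) : ∑ i, incr n b x i = b := by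
  induction n generalizing b with
  | zero => simp [incr]
  | succ n ih =>
    rw [Fin.sum_univ_succ, incr, Fin.cons_zero]
    simp only [Fin.cons_succ]
    rw [ih]
    ring

theorem incr_continuous (n : ℕ) (b : ℝ) : Continuous (incr n b) :=
  (A11a_continuous n).comp (continuous_const.prodMk continuous_id)

end Pool.HB89
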