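import Pool.Agent.LibHB89.Defs

namespace Pool.HB89

open MeasureTheory Finset
open scoped ENNReal Nat

/-- peeling off the first coordinate. -/
theorem lintegral_pi_succ (n : ℕ) (f : (Fin (n + 1) → ℝ) → ℝ≥0∞) (hf : Measurable f) :
    ∫⁻ x, f x = ∫⁻ y : ℝ, ∫⁻ x : Fin n → ℝ, f (Fin.cons y x) := by
  have h1 := (volume_preserving_piFinSuccAbove (fun _ : Fin (n + 1) => ℝ) 0).symm
  rw [← h1.lintegral_comp hf]
  have h2 : ∀ p : ℝ × (Fin n → ℝ),
      (MeasurableEquiv.piFinSuccAbove (fun _ : Fin (n + 1) => ℝ) 0).symm p = Fin.cons p.1 p.2 := by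
    intro p
    simp [MeasurableEquiv.piFinSuccAbove, Fin.insertNthEquiv, Fin.insertNth_zero]
  have h3 : Measurable (fun p : ℝ × (Fin n → ℝ) => f (Fin.cons p.1 p.2)) := by
    have : (fun p : ℝ × (Fin n → ℝ) => f (Fin.cons p.1 p.2)) = fun p =>
        f ((MeasurableEquiv.piFinSuccAbove (fun _ : Fin (n + 1) => ℝ) 0).symm p) := by
      funext p
      rw [h2]
    rw [this]
    exact hf.comp (MeasurableEquiv.measurable _)
  calc ∫⁻ p, f ((MeasurableEquiv.piFinSuccAbove (fun _ : Fin (n + 1) => ℝ) 0).symm p)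
      = ∫⁻ p : ℝ × (Fin n → ℝ), f (Fin.cons p.1 p.2) := by
        refine lintegral_congr fun p => ?_
        rw [h2]
    _ = ∫⁻ y : ℝ, ∫⁻ x : Fin n → ℝ, f (Fin.cons y x) :=
        lintegral_prod _ h3.aemeasurable

end Pool.HB89
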