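import Pool.Agent.LibHB89.A9a
import Pool.Agent.LibHB89.A11a
import Pool.Agent.LibHB89.A11b

namespace Pool.HB89

open MeasureTheory Finset
open scoped ENNReal Nat

theorem A11c_incr_succ (n : ℕ) (b : ℝ) (x : Fin (n + 1) → ℝ) (i : Fin (n + 1)) :
    incr (n + 1) b x i.succ = incr n (x 0) (fun i => x i.succ) i := by
  show (Fin.cons (b - x 0) (incr n (x 0) (fun i => x i.succ)) : Fin (n + 2) → ℝ) i.succ = _
  rw [Fin.cons_succ]

theorem A11c_incr_zero (n : ℕ) (b : ℝ) (x : Fin (n + 1) → ℝ) :
    incr (n + 1) b x 0 = b - x 0 := by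
  show (Fin.cons (b - x 0) (incr n (x 0) (fun i => x i.succ)) : Fin (n + 2) → ℝ) 0 = _
  rw [Fin.cons_zero]

theorem A11c_region_succ (n : ℕ) (b : ℝ) (x : Fin (n + 1) → ℝ) :
    x ∈ region (n + 1) b ↔ x 0 < b ∧ (fun i => x i.succ) ∈ region n (x 0) := by
  unfold region
  simp only [Set.mem_ofPred_eq]
  constructor
  · intro h
    refine ⟨?_, fun i => ?_⟩
    · have := h 0
      rw [A11c_incr_zero] at this
      linarith
    · have := h i.succ
      rw [A11c_incr_succ] at this
      exact this
  · rintro ⟨h1, h2⟩ i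
    refine Fin.cases ?_ (fun i => ?_) i
    · rw [A11c_incr_zero]
      linarith
    · rw [A11c_incr_succ]
      exact h2 i

theorem A11c_region_pos {n : ℕ} {b : ℝ} {x : Fin n → ℝ} (h : x ∈ region n b) : 0 < b := by
  rw [← incr_sum n b x]
  exact Finset.sum_pos (fun i _ => h i) Finset.univ_nonempty

theorem A11c_region_coord {n : ℕ} {b : ℝ} {x : Fin n → ℝ} (h : x ∈ region n b) (i : Fin n) :
    0 < x i ∧ x i < b := by
  induction n generalizing b with
  | zero => exact i.elim0
  | succ n ih =>
    rw [A11c_region_succ] at h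
    have h0 := A11c_region_pos h.2
    refine Fin.cases ⟨h0, h.1⟩ (fun i => ?_) i
    have h1 := ih h.2 i
    exact ⟨h1.1, h1.2.trans h.1⟩

theorem A11c_ct_nonneg {x : ℝ} (h0 : 0 < x) (h1 : x ≤ Real.pi / 2) : 0 ≤ ct x := by
  unfold ct
  apply div_nonneg
  · exact Real.cos_nonneg_of_mem_Icc ⟨by linarith, h1⟩
  · exact (Real.sin_pos_of_pos_of_lt_pi h0 (by linarith [Real.pi_pos])).le

theorem A11c_region_open (n : ℕ) (b : ℝ) : IsOpen (region n b) := by
  have e : region n b = ⋂ i, {x | 0 < incr n b x i} := by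
    ext x
    simp [region]
  rw [e]
  apply isOpen_iInter_of_finite
  intro i
  exact isOpen_lt continuous_const ((continuous_apply i).comp (incr_continuous n b))

theorem A11c_ct_measurable : Measurable ct := by
  unfold ct
  exact Real.measurable_cos.div Real.measurable_sin

/-- integrating over the first coordinate -/
theorem A11c_step (n : ℕ) (a : Fin (n + 1) → ℕ) (b : ℝ) (hb' : b ≤ Real.pi / 2) (A : ℝ → ℝ)
    (hAm : Measurable A) (hA : ∀ y, 0 < y → y < b → 0 ≤ A y)
    (hY : ∀ y, 0 < y → y < b → Yf n a y = ∫⁻ x : Fin n → ℝ, (region n y).indicator (fun x =>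
      ENNReal.ofReal ((∏ i : Fin (n + 1), (2 * incr n y x i) ^ (2 * a i + 2) / ((2 * a i + 2)! : ℝ)) *
        ∏ i : Fin n, (2 * ct (x i)))) x) :
    ∫⁻ y in Set.Ioo 0 b, ENNReal.ofReal (A y * (2 * ct y)) * Yf n a y =
      ∫⁻ x : Fin (n + 1) → ℝ, (region (n + 1) b).indicator (fun x => ENNReal.ofReal
        (A (x 0) * (∏ i : Fin (n + 1), (2 * incr (n + 1) b x i.succ) ^ (2 * a i + 2) /
          ((2 * a i + 2)! : ℝ)) * ∏ i : Fin (n + 1), (2 * ct (x i)))) x := by
  have hmeas : Measurable (fun x : Fin (n + 1) → ℝ => ENNReal.ofReal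
        (A (x 0) * (∏ i : Fin (n + 1), (2 * incr (n + 1) b x i.succ) ^ (2 * a i + 2) /
          ((2 * a i + 2)! : ℝ)) * ∏ i : Fin (n + 1), (2 * ct (x i)))) := by
    apply Measurable.ennreal_ofReal
    apply Measurable.mul
    · apply Measurable.mul
      · exact hAm.comp (measurable_pi_apply 0)
      · apply Finset.measurable_fun_prod
        intro i _
        apply Measurable.div_const
        apply Measurable.pow_const
        apply Measurable.const_mul
        exact ((continuous_apply i.succ).comp (incr_continuous (n + 1) b)).measurable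
    · apply Finset.measurable_fun_prod
      intro i _
      exact (A11c_ct_measurable.comp (measurable_pi_apply i)).const_mul 2
  rw [lintegral_pi_succ n _ (hmeas.indicator (A11c_region_open (n + 1) b).measurableSet),
    ← lintegral_indicator measurableSet_Ioo]
  apply lintegral_congr
  intro y
  by_cases hy : y ∈ Set.Ioo 0 b
  · rw [Set.indicator_of_mem hy, hY y hy.1 hy.2, ← lintegral_const_mul' _ _ ENNReal.ofReal_ne_top]
    apply lintegral_congr
    intro x
    have hmem : (Fin.cons y x : Fin (n + 1) → ℝ) ∈ region (n + 1) b ↔ x ∈ region n y := by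
      rw [A11c_region_succ]
      simp only [Fin.cons_zero, Fin.cons_succ]
      exact ⟨fun h => h.2, fun h => ⟨hy.2, h⟩⟩
    by_cases hx : x ∈ region n y
    · rw [Set.indicator_of_mem hx, Set.indicator_of_mem (hmem.2 hx), ← ENNReal.ofReal_mul]
      · congr 1
        simp only [A11c_incr_succ, Fin.cons_zero, Fin.cons_succ]
        rw [Fin.prod_univ_succ (fun i : Fin (n + 1) => 2 * ct ((Fin.cons y x : Fin (n + 1) → ℝ) i))]
        simp only [Fin.cons_zero, Fin.cons_succ]
        ring
      · exact mul_nonneg (hA y hy.1 hy.2) (mul_nonneg (by norm_num)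
          (A11c_ct_nonneg hy.1 (by linarith [hy.2])))
    · rw [Set.indicator_of_notMem hx, Set.indicator_of_notMem (fun h => hx (hmem.1 h)), mul_zero]
  · rw [Set.indicator_of_notMem hy]
    symm
    rw [lintegral_eq_zero_iff']
    · filter_upwards with x
      apply Set.indicator_of_notMem
      intro h
      rw [A11c_region_succ] at h
      simp only [Fin.cons_zero, Fin.cons_succ] at h
      exact hy ⟨A11c_region_pos h.2, h.1⟩
    · have h1 := hmeas.indicator (A11c_region_open (n + 1) b).measurableSet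
      have h2 : Measurable (fun x : Fin n → ℝ => (Fin.cons y x : Fin (n + 1) → ℝ)) := by
        apply measurable_pi_lambda
        intro i
        refine Fin.cases ?_ (fun i => ?_) i
        · simp only [Fin.cons_zero]
          exact measurable_const
        · simp only [Fin.cons_succ]
          exact measurable_pi_apply i
      exact (h1.comp h2).aemeasurable

/-- `Yf` as an integral over `Fin n → ℝ`. -/
theorem Yf_eq_pi (n : ℕ) (a : Fin (n + 1) → ℕ) (b : ℝ) (hb : 0 < b) (hb' : b ≤ Real.pi / 2) :
    Yf n a b = ∫⁻ x : Fin n → ℝ, (region n b).indicator (fun x => ENNReal.ofReal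
      ((∏ i : Fin (n + 1), (2 * incr n b x i) ^ (2 * a i + 2) / ((2 * a i + 2)! : ℝ)) *
        ∏ i : Fin n, (2 * ct (x i)))) x := by
  induction n generalizing b with
  | zero =>
    have hmem : ∀ x : Fin 0 → ℝ, x ∈ region 0 b := fun x i => hb
    have h1 : ∀ x : Fin 0 → ℝ, (region 0 b).indicator (fun x => ENNReal.ofReal
      ((∏ i : Fin (0 + 1), (2 * incr 0 b x i) ^ (2 * a i + 2) / ((2 * a i + 2)! : ℝ)) *
        ∏ i : Fin 0, (2 * ct (x i)))) x =
        ENNReal.ofReal ((2 * b) ^ (2 * a 0 + 2) / ((2 * a 0 + 2)! : ℝ)) := by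
      intro x
      rw [Set.indicator_of_mem (hmem x)]
      simp [incr]
    rw [lintegral_congr h1, lintegral_const]
    have h2 : (volume : Measure (Fin 0 → ℝ)) Set.univ = 1 := by
      rw [volume_pi, Measure.pi_of_empty]
      simp
    rw [h2, mul_one]
    rfl
  | succ n ih =>
    have h1 := A11c_step n (fun i => a i.succ) b hb'
      (fun y => (2 * (b - y)) ^ (2 * a 0 + 2) / ((2 * a 0 + 2)! : ℝ)) (by
        apply Measurable.div_const
        apply Measurable.pow_const
        exact (measurable_const.sub measurable_id).const_mul 2) (by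
        intro y _ hy
        have : 0 ≤ 2 * (b - y) := by linarith
        positivity) (fun y hy0 hy => ih (fun i => a i.succ) y hy0 (by linarith))
    show (∫⁻ y in Set.Ioo 0 b,
      ENNReal.ofReal ((2 * (b - y)) ^ (2 * a 0 + 2) / ((2 * a 0 + 2)! : ℝ) * (2 * ct y)) *
        Yf n (fun i => a i.succ) y) = _
    rw [h1]
    apply lintegral_congr
    intro x
    congr 1
    funext x
    rw [Fin.prod_univ_succ (fun i : Fin (n + 1 + 1) => (2 * incr (n + 1) b x i) ^ (2 * a i + 2) /
      ((2 * a i + 2)! : ℝ)), A11c_incr_zero]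

end Pool.HB89
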