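import Pool.Agent.LibHB89.Defs

namespace Pool.HB89

open MeasureTheory Finset
open scoped ENNReal Nat

theorem gs_measurable (k : ℕ) : Measurable (gs k) := by
  unfold gs
  fun_prop

theorem ct_measurable : Measurable ct := by
  unfold ct
  fun_prop

theorem A6a_measurable_Ioo {f : ℝ × ℝ → ℝ≥0∞} (hf : Measurable f) :
    Measurable fun x : ℝ => ∫⁻ y in Set.Ioo 0 x, f (x, y) := by
  have h1 : MeasurableSet {p : ℝ × ℝ | 0 < p.2 ∧ p.2 < p.1} :=
    (measurableSet_lt measurable_const measurable_snd).inter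
      (measurableSet_lt measurable_snd measurable_fst)
  have h2 : (fun x : ℝ => ∫⁻ y in Set.Ioo 0 x, f (x, y)) =
      fun x : ℝ => ∫⁻ y, ({p : ℝ × ℝ | 0 < p.2 ∧ p.2 < p.1}.indicator f) (x, y) := by
    funext x
    rw [← lintegral_indicator measurableSet_Ioo]
    refine lintegral_congr fun y => ?_
    by_cases hy : 0 < y ∧ y < x
    · rw [Set.indicator_of_mem (show y ∈ Set.Ioo 0 x from hy),
        Set.indicator_of_mem (show (x, y) ∈ {p : ℝ × ℝ | 0 < p.2 ∧ p.2 < p.1} from hy)]
    · rw [Set.indicator_of_notMem (show y ∉ Set.Ioo 0 x from hy),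
        Set.indicator_of_notMem (show (x, y) ∉ {p : ℝ × ℝ | 0 < p.2 ∧ p.2 < p.1} from hy)]
  rw [h2]
  exact (hf.indicator h1).lintegral_prod_right'

theorem Lf_measurable (w : List ℕ) : Measurable (Lf w) := by
  induction w with
  | nil =>
    have h : Lf [] = fun _ => 1 := by
      funext x
      rw [Lf]
    rw [h]
    exact measurable_const
  | cons n w ih =>
    have h1 : Measurable fun x : ℝ =>
        ∫⁻ y in Set.Ioo 0 x, ENNReal.ofReal (4 * (x - y)) * Lf w y := by
      refine A6a_measurable_Ioo (f := fun p => ENNReal.ofReal (4 * (p.1 - p.2)) * Lf w p.2) ?_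
      exact (by fun_prop : Measurable fun p : ℝ × ℝ => ENNReal.ofReal (4 * (p.1 - p.2))).mul
        (ih.comp measurable_snd)
    by_cases hn : n = 2
    · have h2 : Lf (n :: w) = fun x : ℝ =>
          ∫⁻ y in Set.Ioo 0 x, ENNReal.ofReal (4 * (x - y)) * Lf w y := by
        funext x
        rw [Lf, if_pos hn]
      rw [h2]
      exact h1
    · have h2 : Lf (n :: w) = fun x : ℝ =>
          ∫⁻ y in Set.Ioo 0 x, ENNReal.ofReal (2 * ct y) *
            ∫⁻ z in Set.Ioo 0 y, ENNReal.ofReal (4 * (y - z)) * Lf w z := by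
        funext x
        rw [Lf, if_neg hn]
      rw [h2]
      refine A6a_measurable_Ioo (f := fun p => ENNReal.ofReal (2 * ct p.2) *
        ∫⁻ z in Set.Ioo 0 p.2, ENNReal.ofReal (4 * (p.2 - z)) * Lf w z) ?_
      refine Measurable.mul ?_ (h1.comp measurable_snd)
      exact ENNReal.measurable_ofReal.comp
        (measurable_const.mul (ct_measurable.comp measurable_snd))

end Pool.HB89
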