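import Pool.Agent.LibHB89.A11a
import Pool.Agent.LibHB89.A6a

namespace Pool.HB89

open MeasureTheory Finset
open scoped ENNReal Nat

theorem A12a_region_open (n : ℕ) (b : ℝ) : IsOpen (region n b) := by
  have e : region n b = ⋂ i, {x | 0 < incr n b x i} := by
    ext x
    simp [region]
  rw [e]
  apply isOpen_iInter_of_finite
  intro i
  exact isOpen_lt continuous_const ((continuous_apply i).comp (incr_continuous n b))

theorem A12a_ct_measurable : Measurable ct := by
  unfold ct
  exact Real.measurable_cos.div Real.measurable_sin

theorem dens_measurable (l : ℕ) : Measurable (dens l) := by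
  have hi : ∀ i, Measurable fun x : Fin l → ℝ => incr l (Real.pi / 2) x i := fun i =>
    ((continuous_apply i).comp (incr_continuous l (Real.pi / 2))).measurable
  have h1 : Measurable fun x : Fin l → ℝ => ENNReal.ofReal
    (1 / Real.pi * (2 * incr l (Real.pi / 2) x 0) *
      (∏ i : Fin l, (2 * incr l (Real.pi / 2) x i.succ) ^ 2) * ∏ i : Fin l, (2 * ct (x i))) := by
    apply Measurable.ennreal_ofReal
    apply Measurable.mul
    · apply Measurable.mul
      · exact ((hi 0).const_mul 2).const_mul _
      · apply Finset.measurable_fun_prod
        intro i _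
        exact ((hi i.succ).const_mul 2).pow_const 2
    · apply Finset.measurable_fun_prod
      intro i _
      exact (A12a_ct_measurable.comp (measurable_pi_apply i)).const_mul 2
  exact h1.indicator (A12a_region_open l (Real.pi / 2)).measurableSet

theorem A12a_sp_continuous (l : ℕ) : Continuous (sp l) := by
  unfold sp
  apply continuous_pi
  intro i
  exact continuous_const.mul ((continuous_apply i).comp (incr_continuous l (Real.pi / 2)))

theorem sp_measurable (l : ℕ) : Measurable (sp l) := (A12a_sp_continuous l).measurable

theorem sp_sum (l : ℕ) (x : Fin l → ℝ) : ∑ i, sp l x i = 1 := by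
  unfold sp
  rw [← Finset.mul_sum, incr_sum]
  have := Real.pi_pos.ne'
  field_simp

theorem sp_nonneg (l : ℕ) : ∀ᵐ x ∂(nu l), ∀ i, 0 ≤ sp l x i := by
  unfold nu
  rw [ae_withDensity_iff (dens_measurable l)]
  filter_upwards with x hx i
  have hmem : x ∈ region l (Real.pi / 2) := by
    by_contra h
    exact hx (Set.indicator_of_notMem h _)
  unfold sp
  exact mul_nonneg (by positivity) (hmem i).le

end Pool.HB89
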