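import Pool.Agent.LibHB89.A3a

namespace Pool.HB89

open MeasureTheory Finset
open scoped ENNReal Nat

theorem A4b_integral (k : ℕ) :
    ∫ x in (0 : ℝ)..(Real.pi / 2), cb k * Real.sin x ^ (2 * k) = Real.pi / 2 := by
  induction k with
  | zero =>
    have h0 : cb 0 = 1 := by simp [cb]
    simp [h0]
  | succ k ih =>
    rw [intervalIntegral.integral_const_mul] at ih ⊢
    have h1 : 2 * (k + 1) = 2 * k + 2 := by ring
    rw [h1, integral_sin_pow]
    have h2 := cb_succ k
    have h3 : (2 * (k : ℝ) + 2) ≠ 0 := by positivity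
    refine Eq.trans ?_ ih
    simp only [Real.sin_zero, Real.cos_zero, Real.sin_pi_div_two, Real.cos_pi_div_two]
    push_cast
    rw [zero_pow (by omega)]
    field_simp
    linear_combination h2 * (∫ x in (0 : ℝ)..(Real.pi / 2), Real.sin x ^ (2 * k))

/-- Wallis. -/
theorem gs_wallis (k : ℕ) :
    ∫⁻ x in Set.Ioo 0 (Real.pi / 2), gs k x = ENNReal.ofReal (Real.pi / 2) := by
  have hc : Continuous (fun x : ℝ => cb k * Real.sin x ^ (2 * k)) := by fun_prop
  have hpi : (0 : ℝ) ≤ Real.pi / 2 := by positivity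
  have hint : IntegrableOn (fun x : ℝ => cb k * Real.sin x ^ (2 * k)) (Set.Ioc 0 (Real.pi / 2)) :=
    (hc.intervalIntegrable 0 (Real.pi / 2)).1
  rw [Measure.restrict_congr_set Ioo_ae_eq_Ioc]
  have h0 := A4b_integral k
  rw [intervalIntegral.integral_of_le hpi] at h0
  refine Eq.trans ?_ (congrArg ENNReal.ofReal h0)
  rw [ofReal_integral_eq_lintegral_ofReal hint]
  · rfl
  · refine Filter.Eventually.of_forall fun x => ?_
    have h1 : 0 ≤ Real.sin x ^ (2 * k) := by
      rw [pow_mul]; positivity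
    exact mul_nonneg (cb_pos k).le h1

end Pool.HB89
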