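import Pool.Agent.LibHB89.A6b
import Pool.Agent.LibHB89.A4b

namespace Pool.HB89

open MeasureTheory Finset
open scoped ENNReal Nat

theorem co_tsum_eq (w : List ℕ) (hw : ∀ n ∈ w, n = 2 ∨ n = 3) :
    ∑' k, co w k = ENNReal.ofReal (2 / Real.pi) * ∫⁻ x in Set.Ioo 0 (Real.pi / 2), Lf w x := by
  have h1 : ∫⁻ x in Set.Ioo 0 (Real.pi / 2), Lf w x =
      ∫⁻ x in Set.Ioo 0 (Real.pi / 2), ∑' k, co w k * gs k x :=
    setLIntegral_congr_fun measurableSet_Ioo fun x hx => Lf_eq w hw x hx.1.le hx.2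
  have h2 : ∫⁻ x in Set.Ioo 0 (Real.pi / 2), ∑' k, co w k * gs k x =
      ∑' k, co w k * ENNReal.ofReal (Real.pi / 2) := by
    rw [lintegral_tsum fun k => ((gs_measurable k).const_mul _).aemeasurable]
    refine tsum_congr fun k => ?_
    rw [lintegral_const_mul _ (gs_measurable k), gs_wallis]
  have h3 : ENNReal.ofReal (Real.pi / 2) * ENNReal.ofReal (2 / Real.pi) = 1 := by
    rw [← ENNReal.ofReal_mul (by positivity)]
    have : Real.pi / 2 * (2 / Real.pi) = 1 := by
      have := Real.pi_pos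
      field_simp
    rw [this, ENNReal.ofReal_one]
  rw [h1, h2, ENNReal.tsum_mul_right, mul_comm, mul_assoc, h3, mul_one]

end Pool.HB89
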