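import Pool.Agent.LibHB89.A9b
import Pool.Agent.LibHB89.A6c

namespace Pool.HB89

open MeasureTheory Finset
open scoped ENNReal Nat

theorem A9c_int (m : ℕ) (c b : ℝ) (hcb : c ≤ b) :
    ∫⁻ x in Set.Ioo c b, ENNReal.ofReal ((2 * (x - c)) ^ m / (m ! : ℝ)) =
      ENNReal.ofReal (1 / 2) * ENNReal.ofReal ((2 * (b - c)) ^ (m + 1) / ((m + 1)! : ℝ)) := by
  have hcont : Continuous (fun x : ℝ => (2 * (x - c)) ^ m / (m ! : ℝ)) := by fun_prop
  have hint : IntegrableOn (fun x : ℝ => (2 * (x - c)) ^ m / (m ! : ℝ)) (Set.Ioo c b) := by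
    apply (hcont.continuousOn.integrableOn_Icc (a := c) (b := b)).mono_set
    exact Set.Ioo_subset_Icc_self
  rw [← ofReal_integral_eq_lintegral_ofReal hint]
  · rw [← integral_Ioc_eq_integral_Ioo, ← intervalIntegral.integral_of_le hcb]
    have hd : ∀ x ∈ Set.uIcc c b, HasDerivAt
        (fun x : ℝ => 1 / 2 * ((2 * (x - c)) ^ (m + 1) / ((m + 1)! : ℝ)))
        ((2 * (x - c)) ^ m / (m ! : ℝ)) x := by
      intro x _
      have h1 : HasDerivAt (fun x : ℝ => 2 * (x - c)) (2 * 1) x :=
        ((hasDerivAt_id x).sub_const c).const_mul 2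
      have h2 := ((h1.pow (m + 1)).div_const ((m + 1)! : ℝ)).const_mul (1 / 2)
      refine HasDerivAt.congr_deriv (show HasDerivAt
        (fun x : ℝ => 1 / 2 * ((2 * (x - c)) ^ (m + 1) / ((m + 1)! : ℝ))) _ x from h2) ?_
      have h3 : ((m + 1)! : ℝ) = (m + 1) * (m ! : ℝ) := by
        rw [Nat.factorial_succ]; push_cast; ring
      have h4 : (m ! : ℝ) ≠ 0 := by positivity
      have h5 : (m + 1 : ℝ) ≠ 0 := by positivity
      rw [h3]
      push_cast
      field_simp
    rw [intervalIntegral.integral_eq_sub_of_hasDerivAt hd (hcont.intervalIntegrable _ _)]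
    rw [← ENNReal.ofReal_mul (by norm_num)]
    congr 1
    simp
  · filter_upwards [self_mem_ae_restrict measurableSet_Ioo] with x hx
    have : 0 ≤ x - c := by linarith [hx.1]
    simp only [Pi.zero_apply]
    positivity

theorem co_tsum_zero (a : Fin 1 → ℕ) :
    ∑' k, co (word 0 a) k = ENNReal.ofReal (1 / Real.pi * Real.pi ^ (2 * a 0 + 1) /
      ((2 * a 0 + 1)! : ℝ)) := by
  rw [co_tsum_eq _ (word_mem 0 a)]
  have hpi := Real.pi_pos
  have h1 : ∫⁻ x in Set.Ioo 0 (Real.pi / 2), Lf (word 0 a) x =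
      ∫⁻ x in Set.Ioo 0 (Real.pi / 2),
        ENNReal.ofReal ((2 * (x - 0)) ^ (2 * a 0) / ((2 * a 0)! : ℝ)) := by
    apply setLIntegral_congr_fun measurableSet_Ioo
    intro x hx
    dsimp only
    rw [word, Lf_replicate _ _ hx.1.le, sub_zero]
  rw [h1, A9c_int _ _ _ (by positivity), ← ENNReal.ofReal_mul (by norm_num),
    ← ENNReal.ofReal_mul (by positivity)]
  congr 1
  rw [sub_zero, show 2 * (Real.pi / 2) = Real.pi by ring]
  ring

theorem co_tsum_succ (n : ℕ) (a : Fin (n + 2) → ℕ) :
    ∑' k, co (word (n + 1) a) k = ENNReal.ofReal (1 / Real.pi) *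
      ∫⁻ y in Set.Ioo 0 (Real.pi / 2),
        ENNReal.ofReal ((2 * (Real.pi / 2 - y)) ^ (2 * a 0 + 1) / ((2 * a 0 + 1)! : ℝ) *
          (2 * ct y)) * Yf n (fun i => a i.succ) y := by
  rw [co_tsum_eq _ (word_mem (n + 1) a)]
  have hpi := Real.pi_pos
  set B := Real.pi / 2 with hB
  set w := word n (fun i => a i.succ) with hw
  set G : ℝ × ℝ → ℝ≥0∞ := fun p =>
    ({p : ℝ × ℝ | 0 < p.2 ∧ p.2 < p.1 ∧ p.1 < B}.indicator (fun p : ℝ × ℝ =>
      ENNReal.ofReal ((2 * (p.1 - p.2)) ^ (2 * a 0) / ((2 * a 0)! : ℝ)) *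
        (ENNReal.ofReal (2 * ct p.2) * Lf (2 :: w) p.2))) p with hG
  have hGm : Measurable G := by
    apply Measurable.indicator
    · have h2 : Measurable (fun p : ℝ × ℝ => Lf (2 :: w) p.2) :=
        (Lf_measurable _).comp measurable_snd
      have h3 : Measurable (fun p : ℝ × ℝ => ENNReal.ofReal (2 * ct p.2)) :=
        ((ct_measurable.comp measurable_snd).const_mul 2).ennreal_ofReal
      have h4 : Measurable (fun p : ℝ × ℝ => ENNReal.ofReal ((2 * (p.1 - p.2)) ^ (2 * a 0) /
          ((2 * a 0)! : ℝ))) := by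
        apply Measurable.ennreal_ofReal
        fun_prop
      exact h4.mul (h3.mul h2)
    · apply MeasurableSet.inter
      · exact measurableSet_lt measurable_const measurable_snd
      · apply MeasurableSet.inter
        · exact measurableSet_lt measurable_snd measurable_fst
        · exact measurableSet_lt measurable_fst measurable_const
  have h1 : ∫⁻ x in Set.Ioo 0 B, Lf (word (n + 1) a) x = ∫⁻ x, ∫⁻ y, G (x, y) := by
    rw [← lintegral_indicator measurableSet_Ioo]
    apply lintegral_congr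
    intro x
    by_cases hx : x ∈ Set.Ioo 0 B
    · rw [Set.indicator_of_mem hx, word, Lf_replicate_three,
        ← lintegral_indicator measurableSet_Ioo]
      apply lintegral_congr
      intro y
      by_cases hy : y ∈ Set.Ioo 0 x
      · rw [Set.indicator_of_mem hy, hG]
        dsimp only
        rw [Set.indicator_of_mem (by exact ⟨hy.1, hy.2, hx.2⟩)]
        dsimp only
        rw [ENNReal.ofReal_mul (by have : 0 ≤ x - y := by linarith [hy.2]
                                   positivity), mul_assoc]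
      · rw [Set.indicator_of_notMem hy, hG]
        dsimp only
        rw [Set.indicator_of_notMem]
        rintro ⟨h1, h2, _⟩
        exact hy ⟨h1, h2⟩
    · rw [Set.indicator_of_notMem hx]
      symm
      rw [lintegral_eq_zero_iff' (by exact (hGm.comp measurable_prodMk_left).aemeasurable)]
      filter_upwards with y
      rw [hG]
      dsimp only
      rw [Set.indicator_of_notMem]
      · rfl
      · rintro ⟨h1, h2, h3⟩
        exact hx ⟨lt_trans h1 h2, h3⟩
  have h2 : ∫⁻ x, ∫⁻ y, G (x, y) = ∫⁻ y in Set.Ioo 0 B, ENNReal.ofReal (1 / 2) *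
      (ENNReal.ofReal ((2 * (B - y)) ^ (2 * a 0 + 1) / ((2 * a 0 + 1)! : ℝ) *
          (2 * ct y)) * Yf n (fun i => a i.succ) y) := by
    rw [lintegral_lintegral_swap (by exact hGm.aemeasurable),
      ← lintegral_indicator measurableSet_Ioo]
    apply lintegral_congr
    intro y
    by_cases hy : y ∈ Set.Ioo 0 B
    · rw [Set.indicator_of_mem hy]
      have h3 : ∀ x, G (x, y) = (Set.Ioo y B).indicator (fun x =>
          ENNReal.ofReal ((2 * (x - y)) ^ (2 * a 0) / ((2 * a 0)! : ℝ)) *
            (ENNReal.ofReal (2 * ct y) * Lf (2 :: w) y)) x := by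
        intro x
        by_cases hx : x ∈ Set.Ioo y B
        · rw [Set.indicator_of_mem hx, hG]
          dsimp only
          rw [Set.indicator_of_mem (by exact ⟨hy.1, hx.1, hx.2⟩)]
        · rw [Set.indicator_of_notMem hx, hG]
          dsimp only
          rw [Set.indicator_of_notMem]
          rintro ⟨_, h2, h3⟩
          exact hx ⟨h2, h3⟩
      simp_rw [h3]
      rw [lintegral_indicator measurableSet_Ioo, lintegral_mul_const _ (by
        apply Measurable.ennreal_ofReal
        fun_prop), A9c_int _ _ _ hy.2.le, hw, Lf_eq_Yf _ _ _ hy.1.le]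
      rw [ENNReal.ofReal_mul (p := (2 * (B - y)) ^ (2 * a 0 + 1) / ((2 * a 0 + 1)! : ℝ)) (by
        have : 0 ≤ B - y := by linarith [hy.2]
        positivity)]
      ring
    · rw [Set.indicator_of_notMem hy]
      rw [lintegral_eq_zero_iff' (by exact (hGm.comp measurable_prodMk_right).aemeasurable)]
      filter_upwards with x
      rw [hG]
      dsimp only
      rw [Set.indicator_of_notMem]
      · rfl
      · rintro ⟨h1, h2, h3⟩
        exact hy ⟨h1, lt_trans h2 h3⟩
  rw [h1, h2, lintegral_const_mul' _ _ ENNReal.ofReal_ne_top, ← mul_assoc,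
    ← ENNReal.ofReal_mul (by positivity)]
  congr 2
  ring

end Pool.HB89
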