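import Pool.Agent.LibHB89.A12a
import Pool.Agent.LibHB89.A11c
import Pool.Agent.LibHB89.A9c

namespace Pool.HB89

open MeasureTheory Finset
open scoped ENNReal Nat

theorem A12b_prod_measurable (l : ℕ) (a : Fin (l + 1) → ℕ) :
    Measurable fun x : Fin l → ℝ => ENNReal.ofReal (∏ i, sp l x i ^ (2 * a i)) := by
  apply Measurable.ennreal_ofReal
  apply Finset.measurable_fun_prod
  intro i _
  exact (measurable_pi_iff.1 (sp_measurable l) i).pow_const _

theorem A12b_lintegral (l : ℕ) (a : Fin (l + 1) → ℕ) :
    ∫⁻ x, ENNReal.ofReal (∏ i, sp l x i ^ (2 * a i)) ∂(nu l) =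
      ∫⁻ x, dens l x * ENNReal.ofReal (∏ i, sp l x i ^ (2 * a i)) := by
  unfold nu
  rw [lintegral_withDensity_eq_lintegral_mul _ (dens_measurable l) (A12b_prod_measurable l a)]
  rfl

/-- the moment formula in `[0,∞]`. -/
theorem moment_ennreal (l : ℕ) (a : Fin (l + 1) → ℕ) :
    (nfac l a : ℝ≥0∞) * ∑' k, co (word l a) k =
      ENNReal.ofReal (Real.pi ^ (2 * ∑ i, a i)) *
        ∫⁻ x, ENNReal.ofReal (∏ i, sp l x i ^ (2 * a i)) ∂(nu l) := by
  have hpi := Real.pi_pos
  rw [A12b_lintegral]
  rcases l with _ | n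
  · have hmem : ∀ x : Fin 0 → ℝ, x ∈ region 0 (Real.pi / 2) := by
      intro x i
      show 0 < Real.pi / 2
      positivity
    have h1 : ∀ x : Fin 0 → ℝ, dens 0 x * ENNReal.ofReal (∏ i, sp 0 x i ^ (2 * a i)) = 1 := by
      intro x
      have e1 : dens 0 x = 1 := by
        unfold dens
        rw [Set.indicator_of_mem (hmem x)]
        have : 1 / Real.pi * (2 * incr 0 (Real.pi / 2) x 0) *
            (∏ i : Fin 0, (2 * incr 0 (Real.pi / 2) x i.succ) ^ 2) * ∏ i : Fin 0, (2 * ct (x i)) = 1 := by
          have e : incr 0 (Real.pi / 2) x 0 = Real.pi / 2 := rfl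
          rw [e]
          simp
          field_simp
        rw [this, ENNReal.ofReal_one]
      have e2 : ∏ i, sp 0 x i ^ (2 * a i) = 1 := by
        apply Finset.prod_eq_one
        intro i _
        have : sp 0 x i = 1 := by
          show 2 / Real.pi * (Real.pi / 2) = 1
          field_simp
        rw [this, one_pow]
      rw [e1, e2, ENNReal.ofReal_one, mul_one]
    rw [lintegral_congr h1, lintegral_const]
    have h2 : (volume : Measure (Fin 0 → ℝ)) Set.univ = 1 := by
      rw [volume_pi, Measure.pi_of_empty]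
      simp
    rw [h2, one_mul, mul_one, co_tsum_zero]
    have e3 : (nfac 0 a : ℝ≥0∞) = ENNReal.ofReal ((2 * a 0 + 1)! : ℝ) := by
      rw [ENNReal.ofReal_natCast]
      simp [nfac]
    rw [e3, ← ENNReal.ofReal_mul (by positivity)]
    congr 1
    have h3 : ((2 * a 0 + 1)! : ℝ) ≠ 0 := by positivity
    rw [Fin.sum_univ_succ]
    simp only [Finset.univ_eq_empty, Finset.sum_empty, add_zero]
    field_simp
    rw [pow_succ, mul_comm]
  · rw [co_tsum_succ]
    have hstep := A11c_step n (fun i => a i.succ) (Real.pi / 2) le_rfl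
      (fun y => (2 * (Real.pi / 2 - y)) ^ (2 * a 0 + 1) / ((2 * a 0 + 1)! : ℝ)) (by
        apply Measurable.div_const
        apply Measurable.pow_const
        exact (measurable_const.sub measurable_id).const_mul 2) (by
        intro y _ hy
        have : 0 ≤ 2 * (Real.pi / 2 - y) := by linarith
        positivity) (fun y hy0 hy => Yf_eq_pi n (fun i => a i.succ) y hy0 hy.le)
    rw [hstep]
    rw [← lintegral_const_mul' _ _ ENNReal.ofReal_ne_top,
      ← lintegral_const_mul' _ _ (ENNReal.natCast_ne_top _),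
      ← lintegral_const_mul' _ _ ENNReal.ofReal_ne_top]
    apply lintegral_congr
    intro x
    by_cases hx : x ∈ region (n + 1) (Real.pi / 2)
    · rw [Set.indicator_of_mem hx]
      unfold dens
      rw [Set.indicator_of_mem hx]
      have e3 : (nfac (n + 1) a : ℝ≥0∞) = ENNReal.ofReal (nfac (n + 1) a : ℝ) :=
        (ENNReal.ofReal_natCast _).symm
      have hct : 0 ≤ ∏ i : Fin (n + 1), (2 * ct (x i)) := by
        apply Finset.prod_nonneg
        intro i _
        have h1 := A11c_region_coord hx i
        have := A11c_ct_nonneg h1.1 h1.2.le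
        positivity
      have hi : ∀ i, 0 ≤ incr (n + 1) (Real.pi / 2) x i := fun i => (hx i).le
      have hd : 0 ≤ 1 / Real.pi * (2 * incr (n + 1) (Real.pi / 2) x 0) *
          (∏ i : Fin (n + 1), (2 * incr (n + 1) (Real.pi / 2) x i.succ) ^ 2) *
          ∏ i : Fin (n + 1), (2 * ct (x i)) := by
        apply mul_nonneg _ hct
        apply mul_nonneg
        · have := hi 0
          positivity
        · exact Finset.prod_nonneg fun i _ => sq_nonneg _
      rw [e3, ← ENNReal.ofReal_mul (by positivity), ← ENNReal.ofReal_mul (by positivity),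
        ← ENNReal.ofReal_mul hd, ← ENNReal.ofReal_mul (by positivity)]
      congr 1
      -- real identity
      have hsp : ∀ i, 2 * incr (n + 1) (Real.pi / 2) x i = Real.pi * sp (n + 1) x i := by
        intro i
        unfold sp
        field_simp
      have h0 : 2 * (Real.pi / 2 - x 0) = Real.pi * sp (n + 1) x 0 := by
        rw [← hsp 0, A11c_incr_zero]
      rw [h0]
      simp only [hsp]
      have hf : (nfac (n + 1) a : ℝ) = ((2 * a 0 + 1)! : ℝ) *
          ∏ i : Fin (n + 1), ((2 * a i.succ + 2)! : ℝ) := by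
        unfold nfac
        push_cast
        rfl
      have hprod : (∏ i : Fin (n + 1), (Real.pi * sp (n + 1) x i.succ) ^ (2 * a i.succ + 2) /
          ((2 * a i.succ + 2)! : ℝ)) = (∏ i : Fin (n + 1),
          (Real.pi * sp (n + 1) x i.succ) ^ (2 * a i.succ)) *
          (∏ i : Fin (n + 1), (Real.pi * sp (n + 1) x i.succ) ^ 2) /
          ∏ i : Fin (n + 1), ((2 * a i.succ + 2)! : ℝ) := by
        rw [Finset.prod_div_distrib, ← Finset.prod_mul_distrib]
        congr 1
        apply Finset.prod_congr rfl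
        intro i _
        rw [pow_add]
      have hsplit : (∏ i, sp (n + 1) x i ^ (2 * a i)) = sp (n + 1) x 0 ^ (2 * a 0) *
          ∏ i : Fin (n + 1), sp (n + 1) x i.succ ^ (2 * a i.succ) := Fin.prod_univ_succ _
      rw [hf, hprod, Fin.sum_univ_succ, hsplit]
      have hpp : Real.pi ^ (2 * (a 0 + ∑ i : Fin (n + 1), a i.succ)) = Real.pi ^ (2 * a 0) *
          ∏ i : Fin (n + 1), Real.pi ^ (2 * a i.succ) := by
        rw [Finset.prod_pow_eq_pow_sum, ← Finset.mul_sum, ← pow_add]
        congr 1
        ring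
      have hmul : (∏ i : Fin (n + 1), (Real.pi * sp (n + 1) x i.succ) ^ (2 * a i.succ)) =
          (∏ i : Fin (n + 1), Real.pi ^ (2 * a i.succ)) *
          ∏ i : Fin (n + 1), sp (n + 1) x i.succ ^ (2 * a i.succ) := by
        rw [← Finset.prod_mul_distrib]
        apply Finset.prod_congr rfl
        intro i _
        rw [mul_pow]
      rw [hpp, hmul, pow_succ (Real.pi * sp (n + 1) x 0), mul_pow]
      have hF : (∏ i : Fin (n + 1), ((2 * a i.succ + 2)! : ℝ)) ≠ 0 := by
        apply Finset.prod_ne_zero_iff.2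
        intro i _
        positivity
      have hF0 : ((2 * a 0 + 1)! : ℝ) ≠ 0 := by positivity
      field_simp
    · rw [Set.indicator_of_notMem hx]
      unfold dens
      rw [Set.indicator_of_notMem hx, zero_mul, mul_zero, mul_zero, mul_zero]

end Pool.HB89
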