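import Pool.Agent.LibHB89.Defs

namespace Pool.HB89

open MeasureTheory Finset
open scoped ENNReal Nat

theorem co_tsum_lt_top (w : List ℕ) (hw : ∀ x ∈ w, 2 ≤ x) : ∑' k, co w k < ⊤ := by
  induction w with
  | nil =>
    have h : ∑' k, co [] k = 1 := by
      unfold co
      exact tsum_ite_eq 0 (fun _ => (1 : ℝ≥0∞))
    rw [h]
    exact ENNReal.one_lt_top
  | cons n w ih =>
    have hn : 2 ≤ n := hw n (List.mem_cons_self)
    have ih' := ih (fun x hx => hw x (List.mem_cons_of_mem _ hx))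
    have hle : ∀ k : ℕ, co (n :: w) k ≤
        ENNReal.ofReal (((k : ℝ) ^ 2)⁻¹) * ∑' j, co w j := by
      intro k
      rw [co]
      split_ifs with hk
      · exact zero_le
      · have hk1 : (1 : ℝ≥0∞) ≤ (k : ℝ≥0∞) := by
          exact_mod_cast Nat.one_le_iff_ne_zero.mpr hk
        have hkr : (0 : ℝ) < (k : ℝ) ^ 2 := by
          have : (0 : ℝ) < (k : ℝ) := by exact_mod_cast Nat.pos_of_ne_zero hk
          positivity
        have h1 : ENNReal.ofReal (((k : ℝ) ^ 2)⁻¹) = ((k : ℝ≥0∞) ^ 2)⁻¹ := by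
          rw [ENNReal.ofReal_inv_of_pos hkr, ENNReal.ofReal_pow (Nat.cast_nonneg k),
            ENNReal.ofReal_natCast]
        rw [h1]
        exact mul_le_mul' (ENNReal.inv_le_inv.mpr (pow_le_pow_right₀ hk1 hn))
          (ENNReal.sum_le_tsum _)
    have hs : Summable (fun k : ℕ => ((k : ℝ) ^ 2)⁻¹) :=
      Real.summable_nat_pow_inv.mpr (by norm_num)
    have h2 : ∑' k : ℕ, ENNReal.ofReal (((k : ℝ) ^ 2)⁻¹) < ⊤ := by
      rw [← ENNReal.ofReal_tsum_of_nonneg (fun k => by positivity) hs]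
      exact ENNReal.ofReal_lt_top
    calc ∑' k, co (n :: w) k
        ≤ ∑' k : ℕ, ENNReal.ofReal (((k : ℝ) ^ 2)⁻¹) * ∑' j, co w j := ENNReal.tsum_le_tsum hle
      _ = (∑' k : ℕ, ENNReal.ofReal (((k : ℝ) ^ 2)⁻¹)) * ∑' j, co w j := ENNReal.tsum_mul_right
      _ < ⊤ := ENNReal.mul_lt_top h2 ih'

end Pool.HB89
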