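import Pool.Agent.LibHB89.A12b
import Pool.Agent.LibHB89.A1
import Pool.Agent.LibHB89.A2

namespace Pool.HB89

open MeasureTheory Finset
open scoped ENNReal Nat

theorem A12c_univ (l : ℕ) : nu l Set.univ = (nfac l (fun _ => 0) : ℝ≥0∞) *
    ∑' k, co (word l (fun _ => 0)) k := by
  rw [moment_ennreal]
  simp

instance nu_finite (l : ℕ) : IsFiniteMeasure (nu l) := by
  refine ⟨?_⟩
  rw [A12c_univ]
  apply ENNReal.mul_lt_top (ENNReal.natCast_lt_top _)
  apply co_tsum_lt_top
  intro x hx
  rcases word_mem l _ x hx with h | h <;> omega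

/-- the moment formula. -/
theorem moment (l : ℕ) (a : Fin (l + 1) → ℕ) :
    (nfac l a : ℝ) * mzv (word l a) =
      Real.pi ^ (2 * ∑ i, a i) * ∫ x, ∏ i, sp l x i ^ (2 * a i) ∂(nu l) := by
  have h1 := congrArg ENNReal.toReal (moment_ennreal l a)
  rw [ENNReal.toReal_mul, ENNReal.toReal_mul, ENNReal.toReal_natCast,
    ENNReal.toReal_ofReal (by positivity), ← mzv_eq_co] at h1
  rw [h1]
  congr 1
  rw [integral_eq_lintegral_of_nonneg_ae]
  · filter_upwards with x
    apply Finset.prod_nonneg
    intro i _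
    rw [pow_mul]
    positivity
  · apply Measurable.aestronglyMeasurable
    apply Finset.measurable_fun_prod
    intro i _
    exact (measurable_pi_iff.1 (sp_measurable l) i).pow_const _

end Pool.HB89
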