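import Pool.Agent.LibHB89.A12a

namespace Pool.HB89

open MeasureTheory Finset
open scoped ENNReal Nat

theorem A12d_incr_surj (n : ℕ) (b : ℝ) (q : Fin (n + 1) → ℝ) (hq : ∑ i, q i = b) :
    ∃ x : Fin n → ℝ, incr n b x = q := by
  induction n generalizing b with
  | zero =>
    refine ⟨fun _ => 0, ?_⟩
    funext i
    obtain rfl : i = 0 := Fin.ext (by omega)
    show b = q 0
    rw [← hq]
    simp
  | succ n ih =>
    rw [Fin.sum_univ_succ] at hq
    obtain ⟨y, hy⟩ := ih (b - q 0) (fun i => q i.succ) (by linarith)
    refine ⟨Fin.cons (b - q 0) y, ?_⟩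
    show (Fin.cons (b - (Fin.cons (b - q 0) y : Fin (n + 1) → ℝ) 0)
      (incr n ((Fin.cons (b - q 0) y : Fin (n + 1) → ℝ) 0)
        (fun i => (Fin.cons (b - q 0) y : Fin (n + 1) → ℝ) i.succ)) : Fin (n + 2) → ℝ) = q
    simp only [Fin.cons_zero, Fin.cons_succ]
    rw [hy]
    funext i
    refine Fin.cases ?_ (fun i => ?_) i
    · rw [Fin.cons_zero]
      ring
    · rw [Fin.cons_succ]

theorem A12d_coord {n : ℕ} {b : ℝ} {x : Fin n → ℝ} (h : x ∈ region n b) (i : Fin n) :
    0 < x i ∧ x i < b := by
  induction n generalizing b with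
  | zero => exact i.elim0
  | succ n ih =>
    have h0 : 0 < b - x 0 := by
      have := h 0
      change 0 < (Fin.cons (b - x 0) (incr n (x 0) (fun i => x i.succ)) : Fin (n + 2) → ℝ) 0 at this
      rwa [Fin.cons_zero] at this
    have h1 : (fun i => x i.succ) ∈ region n (x 0) := by
      intro i
      have := h i.succ
      change 0 < (Fin.cons (b - x 0) (incr n (x 0) (fun i => x i.succ)) : Fin (n + 2) → ℝ) i.succ
        at this
      rwa [Fin.cons_succ] at this
    have h2 : 0 < x 0 := by
      rw [← incr_sum n (x 0) (fun i => x i.succ)]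
      exact Finset.sum_pos (fun i _ => h1 i) Finset.univ_nonempty
    refine Fin.cases ⟨h2, by linarith⟩ (fun i => ?_) i
    have h3 := ih h1 i
    exact ⟨h3.1, by linarith [h3.2]⟩

/-- full support. -/
theorem nu_full (l : ℕ) (p : Fin (l + 1) → ℝ) (hp : ∀ i, 0 < p i) (hs : ∑ i, p i = 1)
    (ρ : ℝ) (hρ : 0 < ρ) : 0 < nu l {x | dist (sp l x) p < ρ} := by
  have hpi := Real.pi_pos
  set U : Set (Fin l → ℝ) := {x | dist (sp l x) p < ρ} ∩ region l (Real.pi / 2) with hU
  have hUo : IsOpen U := by
    apply IsOpen.inter _ (A12a_region_open l _)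
    exact isOpen_lt ((A12a_sp_continuous l).dist continuous_const) continuous_const
  obtain ⟨x, hx⟩ := A12d_incr_surj l (Real.pi / 2) (fun i => Real.pi / 2 * p i) (by
    rw [← Finset.mul_sum, hs, mul_one])
  have hxU : x ∈ U := by
    refine ⟨?_, ?_⟩
    · show dist (sp l x) p < ρ
      have e : sp l x = p := by
        funext i
        unfold sp
        rw [hx]
        field_simp
      rw [e, dist_self]
      exact hρ
    · intro i
      rw [hx]
      exact mul_pos (by positivity) (hp i)
  have hvol : 0 < volume U := hUo.measure_pos volume ⟨x, hxU⟩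
  refine lt_of_lt_of_le ?_ (measure_mono (Set.inter_subset_left :
    U ⊆ {x | dist (sp l x) p < ρ}))
  unfold nu
  rw [withDensity_apply _ hUo.measurableSet, setLIntegral_pos_iff (dens_measurable l)]
  have hsub : U ⊆ Function.support (dens l) ∩ U := by
    intro y hy
    refine ⟨?_, hy⟩
    have hyr : y ∈ region l (Real.pi / 2) := hy.2
    rw [Function.mem_support]
    unfold dens
    rw [Set.indicator_of_mem hyr]
    apply ne_of_gt
    rw [ENNReal.ofReal_pos]
    apply mul_pos
    · apply mul_pos
      · have := hyr 0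
        positivity
      · apply Finset.prod_pos
        intro i _
        have := hyr i.succ
        positivity
    · apply Finset.prod_pos
      intro i _
      have h1 := A12d_coord hyr i
      have h2 : 0 < ct (y i) := by
        unfold ct
        apply div_pos
        · exact Real.cos_pos_of_mem_Ioo ⟨by linarith, h1.2⟩
        · exact Real.sin_pos_of_pos_of_lt_pi h1.1 (by linarith)
      positivity
  exact hvol.trans_le (measure_mono hsub)

end Pool.HB89
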