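import Pool.Agent.LibHB89.Defs

namespace Pool.HB89

open MeasureTheory Finset
open scoped ENNReal Nat

theorem cb_pos (k : ℕ) : 0 < cb k := by
  unfold cb
  have : (0 : ℝ) < Nat.centralBinom k := by exact_mod_cast Nat.centralBinom_pos k
  positivity

theorem cb_succ (k : ℕ) : cb (k + 1) * (2 * k + 1) = cb k * (2 * k + 2) := by
  unfold cb
  have h1 : (0 : ℝ) < Nat.centralBinom k := by exact_mod_cast Nat.centralBinom_pos k
  have h2 : (0 : ℝ) < Nat.centralBinom (k + 1) := by exact_mod_cast Nat.centralBinom_pos (k + 1)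
  have h3 : ((k : ℝ) + 1) * Nat.centralBinom (k + 1) = 2 * (2 * k + 1) * Nat.centralBinom k := by
    exact_mod_cast Nat.succ_mul_centralBinom_succ k
  rw [div_mul_eq_mul_div, div_mul_eq_mul_div, div_eq_div_iff h2.ne' h1.ne', pow_succ]
  linear_combination (-2 * 4 ^ k) * h3

/-- the second order differential equation, integrated. -/
theorem int_step (k : ℕ) (x : ℝ) :
    ∫ y in (0 : ℝ)..x, 4 * (x - y) *
      (cb k * Real.sin y ^ (2 * k) - cb (k + 1) * Real.sin y ^ (2 * (k + 1))) =
    cb (k + 1) * Real.sin x ^ (2 * (k + 1)) / ((k : ℝ) + 1) ^ 2 := by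
  have hk : (k : ℝ) + 1 ≠ 0 := by positivity
  set c := cb (k + 1) with hc
  have hder : ∀ y : ℝ, HasDerivAt
      (fun y => (x - y) * (2 * c / ((k : ℝ) + 1) * (Real.sin y ^ (2 * k + 1) * Real.cos y)) +
        c * Real.sin y ^ (2 * k + 2) / ((k : ℝ) + 1) ^ 2)
      (4 * (x - y) * (cb k * Real.sin y ^ (2 * k) - c * Real.sin y ^ (2 * (k + 1)))) y := by
    intro y
    have h1 : HasDerivAt (fun y => x - y) (-1) y := (hasDerivAt_id y).const_sub x
    have h2 : HasDerivAt (fun y => Real.sin y ^ (2 * k + 1) * Real.cos y)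
        (((2 * k + 1 : ℕ) : ℝ) * Real.sin y ^ (2 * k) * Real.cos y * Real.cos y +
          Real.sin y ^ (2 * k + 1) * -Real.sin y) y := by
      have := ((Real.hasDerivAt_sin y).pow (2 * k + 1)).mul (Real.hasDerivAt_cos y)
      exact this
    have h3 : HasDerivAt (fun y => Real.sin y ^ (2 * k + 2))
        (((2 * k + 2 : ℕ) : ℝ) * Real.sin y ^ (2 * k + 1) * Real.cos y) y :=
      (Real.hasDerivAt_sin y).pow (2 * k + 2)
    have h4 := (h1.mul (h2.const_mul (2 * c / ((k : ℝ) + 1)))).add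
      ((h3.const_mul c).div_const (((k : ℝ) + 1) ^ 2))
    have hcb : c * (2 * k + 1) = cb k * (2 * k + 2) := cb_succ k
    have hsc : Real.cos y * Real.cos y = 1 - Real.sin y ^ 2 := by
      have := Real.sin_sq_add_cos_sq y
      linarith
    have e : 4 * (x - y) * (cb k * Real.sin y ^ (2 * k) - c * Real.sin y ^ (2 * (k + 1))) =
        (-1) * (2 * c / ((k : ℝ) + 1) * (Real.sin y ^ (2 * k + 1) * Real.cos y)) +
          (x - y) * (2 * c / ((k : ℝ) + 1) * (((2 * k + 1 : ℕ) : ℝ) * Real.sin y ^ (2 * k) *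
            Real.cos y * Real.cos y + Real.sin y ^ (2 * k + 1) * -Real.sin y)) +
        c * (((2 * k + 2 : ℕ) : ℝ) * Real.sin y ^ (2 * k + 1) * Real.cos y) / ((k : ℝ) + 1) ^ 2 := by
      have e1 : ((2 * k + 1 : ℕ) : ℝ) * Real.sin y ^ (2 * k) * Real.cos y * Real.cos y =
          (2 * k + 1) * Real.sin y ^ (2 * k) * (1 - Real.sin y ^ 2) := by
        rw [mul_assoc, hsc]; push_cast; ring
      have hq : 2 * c / ((k : ℝ) + 1) * (2 * k + 1) = 4 * cb k := by
        field_simp
        linear_combination 2 * hcb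
      have hr : 2 * c / ((k : ℝ) + 1) * (2 * k + 2) = 4 * c := by
        field_simp
        ring
      have hv : c * (2 * k + 2) / ((k : ℝ) + 1) ^ 2 = 2 * c / ((k : ℝ) + 1) := by
        field_simp
      have e2 : Real.sin y ^ (2 * (k + 1)) = Real.sin y ^ (2 * k) * Real.sin y ^ 2 := by ring
      have e3 : Real.sin y ^ (2 * k + 1) = Real.sin y ^ (2 * k) * Real.sin y := by ring
      rw [e1, e2, e3]
      push_cast
      linear_combination (-(x - y) * Real.sin y ^ (2 * k)) * hq +
        ((x - y) * Real.sin y ^ (2 * k) * Real.sin y ^ 2) * hr -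
        (Real.sin y ^ (2 * k) * Real.sin y * Real.cos y) * hv
    rw [e]
    exact h4
  rw [intervalIntegral.integral_eq_sub_of_hasDerivAt (fun y _ => hder y)
    (Continuous.intervalIntegrable (by fun_prop) _ _)]
  simp only [sub_self, zero_mul, zero_add, Real.sin_zero]
  rw [zero_pow (by omega), zero_pow (by omega)]
  simp only [zero_mul, mul_zero, zero_div, add_zero, sub_zero]
  rfl

end Pool.HB89
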