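import Pool.Agent.LibHB89.A3a

namespace Pool.HB89

open MeasureTheory Finset
open scoped ENNReal Nat

theorem A3b_cb_le (n : ℕ) : cb n ≤ 2 * n + 1 := by
  induction n with
  | zero => simp [cb]
  | succ n ih =>
    have h := cb_succ n
    have hp : (0 : ℝ) < 2 * n + 1 := by positivity
    have h1 : cb (n + 1) * (2 * n + 1) ≤ (2 * n + 2) * (2 * n + 1) := by
      rw [h]
      have : (0 : ℝ) ≤ 2 * n + 2 := by positivity
      nlinarith
    have h2 : cb (n + 1) ≤ 2 * n + 2 := le_of_mul_le_mul_right h1 hp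
    push_cast
    linarith

theorem int_tendsto (x : ℝ) (hx0 : 0 ≤ x) (hx : x < Real.pi / 2) :
    Filter.Tendsto (fun n : ℕ => ∫ y in (0 : ℝ)..x, 4 * (x - y) * (cb n * Real.sin y ^ (2 * n)))
      Filter.atTop (nhds 0) := by
  have hs0 : 0 ≤ Real.sin x := Real.sin_nonneg_of_nonneg_of_le_pi hx0 (by linarith [Real.pi_pos])
  have hs1 : Real.sin x ^ 2 < 1 := by
    have hc : 0 < Real.cos x := Real.cos_pos_of_mem_Ioo ⟨by linarith [Real.pi_pos], hx⟩
    have := Real.sin_sq_add_cos_sq x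
    nlinarith
  have hs2 : |Real.sin x ^ 2| < 1 := by rw [abs_of_nonneg (by positivity)]; exact hs1
  have hlim : Filter.Tendsto (fun n : ℕ => 4 * x * x * ((2 * n + 1) * (Real.sin x ^ 2) ^ n))
      Filter.atTop (nhds 0) := by
    have h1 := tendsto_self_mul_const_pow_of_abs_lt_one hs2
    have h2 := tendsto_pow_atTop_nhds_zero_of_abs_lt_one hs2
    have h3 := ((h1.const_mul 2).add h2).const_mul (4 * x * x)
    rw [mul_zero, add_zero, mul_zero] at h3
    refine h3.congr fun n => ?_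
    ring
  refine squeeze_zero_norm (fun n => ?_) hlim
  have hb : ∀ y ∈ Set.uIoc 0 x, ‖4 * (x - y) * (cb n * Real.sin y ^ (2 * n))‖ ≤
      4 * x * ((2 * n + 1) * (Real.sin x ^ 2) ^ n) := by
    intro y hy
    rw [Set.uIoc_of_le hx0] at hy
    have hy0 : 0 ≤ Real.sin y := Real.sin_nonneg_of_nonneg_of_le_pi hy.1.le
      (by linarith [Real.pi_pos, hy.2])
    have hy1 : Real.sin y ≤ Real.sin x :=
      Real.sin_le_sin_of_le_of_le_pi_div_two (by linarith [Real.pi_pos, hy.1]) hx.le hy.2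
    have hcb := A3b_cb_le n
    have hcb0 := (cb_pos n).le
    have hxy : 0 ≤ x - y := by linarith [hy.2]
    rw [Real.norm_eq_abs, abs_of_nonneg (by positivity), pow_mul]
    have h1 : (Real.sin y ^ 2) ^ n ≤ (Real.sin x ^ 2) ^ n := by gcongr
    have h2 : x - y ≤ x := by linarith [hy.1]
    gcongr
  have h := intervalIntegral.norm_integral_le_of_norm_le_const hb
  rw [sub_zero, abs_of_nonneg hx0] at h
  refine h.trans (le_of_eq ?_)
  ring

end Pool.HB89
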