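import Pool.Agent.LibHB89.A3b

namespace Pool.HB89

open MeasureTheory Finset
open scoped ENNReal Nat

/-- `4 ∬ c_j sin^(2j) = ∑_{k > j} k^(-2) c_k sin^(2k)`. -/
theorem gs_int2 (j : ℕ) (x : ℝ) (hx0 : 0 ≤ x) (hx : x < Real.pi / 2) :
    ∫⁻ y in Set.Ioo 0 x, ENNReal.ofReal (4 * (x - y)) * gs j y =
      ∑' k : ℕ, if j < k then ((k : ℝ≥0∞) ^ 2)⁻¹ * gs k x else 0 := by
  set I : ℕ → ℝ := fun n => ∫ y in (0 : ℝ)..x, 4 * (x - y) * (cb n * Real.sin y ^ (2 * n)) with hI
  set a : ℕ → ℝ := fun k => cb k * Real.sin x ^ (2 * k) / (k : ℝ) ^ 2 with ha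
  have hcont : ∀ n : ℕ, Continuous (fun y : ℝ => 4 * (x - y) * (cb n * Real.sin y ^ (2 * n))) := by
    intro n
    fun_prop
  have ha0 : ∀ k, 0 ≤ a k := by
    intro k
    simp only [ha]
    have h1 := (cb_pos k).le
    have h2 : 0 ≤ Real.sin x ^ (2 * k) := by
      rw [pow_mul]; positivity
    positivity
  -- one step
  have hstep : ∀ k, I k - I (k + 1) = a (k + 1) := by
    intro k
    simp only [hI, ha]
    rw [← intervalIntegral.integral_sub ((hcont k).intervalIntegrable _ _)
      ((hcont (k + 1)).intervalIntegrable _ _)]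
    have h1 := int_step k x
    rw [show ((k + 1 : ℕ) : ℝ) = (k : ℝ) + 1 by push_cast; ring, ← h1]
    congr 1
    funext y
    ring
  -- partial sums
  have hpart : ∀ m, ∑ k ∈ range (m + (j + 1)), (if j < k then a k else 0) = I j - I (j + m) := by
    intro m
    induction m with
    | zero =>
      rw [zero_add, add_zero, sub_self]
      apply sum_eq_zero
      intro k hk
      rw [mem_range] at hk
      rw [if_neg (by omega)]
    | succ m ih =>
      rw [show m + 1 + (j + 1) = (m + (j + 1)) + 1 by ring, sum_range_succ, ih,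
        if_pos (by omega), show m + (j + 1) = (j + m) + 1 by ring, ← hstep]
      rw [← add_assoc j m 1]
      ring
  have hsum : HasSum (fun k => if j < k then a k else 0) (I j) := by
    rw [hasSum_iff_tendsto_nat_of_nonneg (fun k => by
      split_ifs
      · exact ha0 k
      · exact le_rfl)]
    rw [← Filter.tendsto_add_atTop_iff_nat (j + 1)]
    have h1 : Filter.Tendsto (fun m => I j - I (j + m)) Filter.atTop (nhds (I j - 0)) := by
      apply Filter.Tendsto.sub tendsto_const_nhds
      have h2 := int_tendsto x hx0 hx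
      have h3 := (Filter.tendsto_add_atTop_iff_nat j).mpr h2
      refine h3.congr fun m => ?_
      rw [add_comm m j]
    rw [sub_zero] at h1
    exact h1.congr fun m => (hpart m).symm
  -- the left hand side
  have hleft : ∫⁻ y in Set.Ioo 0 x, ENNReal.ofReal (4 * (x - y)) * gs j y =
      ENNReal.ofReal (I j) := by
    have h1 : I j = ∫ y in Set.Ioo 0 x, 4 * (x - y) * (cb j * Real.sin y ^ (2 * j)) := by
      simp only [hI]
      rw [intervalIntegral.integral_of_le hx0, integral_Ioc_eq_integral_Ioo]
    rw [h1, ofReal_integral_eq_lintegral_ofReal]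
    · refine setLIntegral_congr_fun measurableSet_Ioo fun y hy => ?_
      simp only [gs]
      rw [← ENNReal.ofReal_mul (by have := hy.2; linarith)]
    · exact ((hcont j).integrableOn_Icc (a := 0) (b := x)).mono_set Set.Ioo_subset_Icc_self
    · rw [Filter.EventuallyLE, ae_restrict_iff' measurableSet_Ioo]
      refine Filter.Eventually.of_forall fun y hy => ?_
      have h1 := (cb_pos j).le
      have h2 : 0 ≤ Real.sin y ^ (2 * j) := by
        rw [pow_mul]; positivity
      have h3 : 0 ≤ x - y := by have := hy.2; linarith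
      simp only [Pi.zero_apply]
      positivity
  rw [hleft, ← hsum.tsum_eq, ENNReal.ofReal_tsum_of_nonneg (fun k => by
      split_ifs
      · exact ha0 k
      · exact le_rfl) hsum.summable]
  refine tsum_congr fun k => ?_
  split_ifs with hk
  · have hk0 : 0 < k := by omega
    have hkr : (0 : ℝ) < (k : ℝ) := by exact_mod_cast hk0
    simp only [ha, gs]
    rw [div_eq_inv_mul, ENNReal.ofReal_mul (by positivity),
      ENNReal.ofReal_inv_of_pos (by positivity), ENNReal.ofReal_pow hkr.le,
      ENNReal.ofReal_natCast]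
  · exact ENNReal.ofReal_zero

end Pool.HB89
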