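import Pool.Agent.LibHB89.A3a

namespace Pool.HB89

open MeasureTheory Finset
open scoped ENNReal Nat

/-- `∫ 2 cot c_k sin^(2k) = k^(-1) c_k sin^(2k)`. -/
theorem gs_int3 (k : ℕ) (hk : 0 < k) (x : ℝ) (hx0 : 0 ≤ x) (hx : x ≤ Real.pi / 2) :
    ∫⁻ y in Set.Ioo 0 x, ENNReal.ofReal (2 * ct y) * gs k y = (k : ℝ≥0∞)⁻¹ * gs k x := by
  obtain ⟨n, rfl⟩ : ∃ n, k = n + 1 := ⟨k - 1, by omega⟩
  have hn : (0 : ℝ) < (n : ℝ) + 1 := by positivity
  have hcb := cb_pos (n + 1)
  set c := cb (n + 1) with hc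
  have h1 : ∫⁻ y in Set.Ioo 0 x, ENNReal.ofReal (2 * ct y) * gs (n + 1) y =
      ∫⁻ y in Set.Ioo 0 x, ENNReal.ofReal (2 * c * (Real.sin y ^ (2 * n + 1) * Real.cos y)) := by
    refine setLIntegral_congr_fun measurableSet_Ioo fun y hy => ?_
    have hs : 0 < Real.sin y := Real.sin_pos_of_pos_of_lt_pi hy.1 (by linarith [hy.2, Real.pi_pos])
    have hcs : 0 < Real.cos y := Real.cos_pos_of_mem_Ioo ⟨by linarith [hy.1, Real.pi_pos],
      by linarith [hy.2]⟩
    have hct : 0 ≤ 2 * ct y := by unfold ct; positivity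
    show ENNReal.ofReal (2 * ct y) * gs (n + 1) y = _
    unfold gs
    rw [← ENNReal.ofReal_mul hct]
    congr 1
    unfold ct
    rw [← hc, show 2 * (n + 1) = (2 * n + 1) + 1 by ring, pow_succ (Real.sin y) (2 * n + 1)]
    field_simp
  have hder : ∀ y : ℝ, HasDerivAt (fun y => c * Real.sin y ^ (2 * (n + 1)) / ((n : ℝ) + 1))
      (2 * c * (Real.sin y ^ (2 * n + 1) * Real.cos y)) y := by
    intro y
    have h3 : HasDerivAt (fun y => Real.sin y ^ (2 * (n + 1)))
        (((2 * (n + 1) : ℕ) : ℝ) * Real.sin y ^ (2 * n + 1) * Real.cos y) y :=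
      (Real.hasDerivAt_sin y).pow (2 * (n + 1))
    have h4 := (h3.const_mul c).div_const ((n : ℝ) + 1)
    have e : 2 * c * (Real.sin y ^ (2 * n + 1) * Real.cos y) =
        c * (((2 * (n + 1) : ℕ) : ℝ) * Real.sin y ^ (2 * n + 1) * Real.cos y) / ((n : ℝ) + 1) := by
      push_cast
      field_simp
    rw [e]
    exact h4
  have hcont : Continuous fun y => 2 * c * (Real.sin y ^ (2 * n + 1) * Real.cos y) := by fun_prop
  have h2 : ∫ y in Set.Ioo 0 x, 2 * c * (Real.sin y ^ (2 * n + 1) * Real.cos y) =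
      c * Real.sin x ^ (2 * (n + 1)) / ((n : ℝ) + 1) := by
    rw [← integral_Ioc_eq_integral_Ioo, ← intervalIntegral.integral_of_le hx0,
      intervalIntegral.integral_eq_sub_of_hasDerivAt (fun y _ => hder y)
        (hcont.intervalIntegrable _ _)]
    simp
  rw [h1, ← ofReal_integral_eq_lintegral_ofReal, h2]
  · unfold gs
    rw [← hc, mul_div_assoc, div_eq_mul_inv, ← mul_assoc, mul_comm, ENNReal.ofReal_mul (by positivity),
      ENNReal.ofReal_inv_of_pos hn]
    congr 2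
    rw [ENNReal.ofReal_add (by positivity) (by norm_num), ENNReal.ofReal_natCast, ENNReal.ofReal_one]
    push_cast
    rfl
  · exact (hcont.continuousOn.integrableOn_Icc (a := 0) (b := x)).mono_set Set.Ioo_subset_Icc_self
  · refine (ae_restrict_iff' measurableSet_Ioo).2 (Filter.Eventually.of_forall fun y hy => ?_)
    have hs : 0 < Real.sin y := Real.sin_pos_of_pos_of_lt_pi hy.1 (by linarith [hy.2, Real.pi_pos])
    have hcs : 0 < Real.cos y := Real.cos_pos_of_mem_Ioo ⟨by linarith [hy.1, Real.pi_pos],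
      by linarith [hy.2]⟩
    show 0 ≤ 2 * c * (Real.sin y ^ (2 * n + 1) * Real.cos y)
    positivity

end Pool.HB89
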