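import Pool.Agent.LibHB89.A6a
import Pool.Agent.LibHB89.A4a
import Pool.Agent.LibHB89.A3c

namespace Pool.HB89

open MeasureTheory Finset
open scoped ENNReal Nat

theorem A6b_swap (ff : ℝ → ℝ≥0∞) (hff : Measurable ff) (c : ℕ → ℝ≥0∞) (x : ℝ) :
    ∫⁻ y in Set.Ioo 0 x, ff y * ∑' k, c k * gs k y =
      ∑' k, c k * ∫⁻ y in Set.Ioo 0 x, ff y * gs k y := by
  have h1 : ∀ y, ff y * ∑' k, c k * gs k y = ∑' k, c k * (ff y * gs k y) := by
    intro y
    rw [← ENNReal.tsum_mul_left]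
    refine tsum_congr fun k => ?_
    ring
  simp_rw [h1]
  rw [lintegral_tsum]
  · refine tsum_congr fun k => ?_
    rw [lintegral_const_mul]
    exact hff.mul (gs_measurable k)
  · intro k
    exact ((hff.mul (gs_measurable k)).const_mul _).aemeasurable

theorem A6b_two (w : List ℕ)
    (ih : ∀ x : ℝ, 0 ≤ x → x < Real.pi / 2 → Lf w x = ∑' k, co w k * gs k x)
    (x : ℝ) (hx0 : 0 ≤ x) (hx : x < Real.pi / 2) :
    ∫⁻ y in Set.Ioo 0 x, ENNReal.ofReal (4 * (x - y)) * Lf w y =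
      ∑' k, co (2 :: w) k * gs k x := by
  have h1 : ∫⁻ y in Set.Ioo 0 x, ENNReal.ofReal (4 * (x - y)) * Lf w y =
      ∫⁻ y in Set.Ioo 0 x, ENNReal.ofReal (4 * (x - y)) * ∑' k, co w k * gs k y := by
    refine setLIntegral_congr_fun measurableSet_Ioo fun y hy => ?_
    rw [ih y hy.1.le (hy.2.trans hx)]
  rw [h1, A6b_swap (fun y => ENNReal.ofReal (4 * (x - y))) (by fun_prop)]
  have h2 : ∀ j, co w j * ∫⁻ y in Set.Ioo 0 x, ENNReal.ofReal (4 * (x - y)) * gs j y =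
      ∑' k : ℕ, if j < k then co w j * (((k : ℝ≥0∞) ^ 2)⁻¹ * gs k x) else 0 := by
    intro j
    rw [gs_int2 j x hx0 hx, ← ENNReal.tsum_mul_left]
    refine tsum_congr fun k => ?_
    rw [mul_ite, mul_zero]
  simp_rw [h2]
  rw [ENNReal.tsum_comm]
  refine tsum_congr fun k => ?_
  have h3 : ∑' j : ℕ, (if j < k then co w j * (((k : ℝ≥0∞) ^ 2)⁻¹ * gs k x) else 0) =
      ∑ j ∈ range k, co w j * (((k : ℝ≥0∞) ^ 2)⁻¹ * gs k x) := by
    rw [tsum_eq_sum (s := range k)]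
    · refine sum_congr rfl fun j hj => ?_
      rw [if_pos (mem_range.mp hj)]
    · intro j hj
      rw [mem_range] at hj
      rw [if_neg hj]
  rw [h3, ← sum_mul, co]
  split_ifs with hk
  · subst hk
    simp
  · ring

theorem A6b_co_three (w : List ℕ) (k : ℕ) (hk : 0 < k) :
    co (3 :: w) k = co (2 :: w) k * (k : ℝ≥0∞)⁻¹ := by
  rw [co, co, if_neg hk.ne', if_neg hk.ne']
  have h1 : ((k : ℝ≥0∞) ^ 3)⁻¹ = ((k : ℝ≥0∞) ^ 2)⁻¹ * (k : ℝ≥0∞)⁻¹ := by
    have hk0 : (k : ℝ≥0∞) ≠ 0 := by exact_mod_cast hk.ne'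
    rw [← ENNReal.mul_inv (Or.inl (pow_ne_zero 2 hk0))
      (Or.inl (ENNReal.pow_ne_top (ENNReal.natCast_ne_top k))), ← pow_succ]
  rw [h1]
  ring

theorem A6b_three (w : List ℕ)
    (ih : ∀ x : ℝ, 0 ≤ x → x < Real.pi / 2 → Lf w x = ∑' k, co w k * gs k x)
    (x : ℝ) (hx0 : 0 ≤ x) (hx : x < Real.pi / 2) :
    ∫⁻ y in Set.Ioo 0 x, ENNReal.ofReal (2 * ct y) *
      ∫⁻ z in Set.Ioo 0 y, ENNReal.ofReal (4 * (y - z)) * Lf w z =
      ∑' k, co (3 :: w) k * gs k x := by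
  have h1 : ∫⁻ y in Set.Ioo 0 x, ENNReal.ofReal (2 * ct y) *
      ∫⁻ z in Set.Ioo 0 y, ENNReal.ofReal (4 * (y - z)) * Lf w z =
      ∫⁻ y in Set.Ioo 0 x, ENNReal.ofReal (2 * ct y) * ∑' k, co (2 :: w) k * gs k y := by
    refine setLIntegral_congr_fun measurableSet_Ioo fun y hy => ?_
    rw [A6b_two w ih y hy.1.le (hy.2.trans hx)]
  rw [h1, A6b_swap (fun y => ENNReal.ofReal (2 * ct y)) (by
    exact (ct_measurable.const_mul 2).ennreal_ofReal)]
  refine tsum_congr fun k => ?_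
  rcases Nat.eq_zero_or_pos k with hk | hk
  · subst hk
    rw [co, co, if_pos rfl, if_pos rfl, zero_mul, zero_mul]
  · rw [gs_int3 k hk x hx0 hx.le, A6b_co_three w k hk, mul_assoc]

theorem Lf_eq (w : List ℕ) (hw : ∀ n ∈ w, n = 2 ∨ n = 3) (x : ℝ) (hx0 : 0 ≤ x)
    (hx : x < Real.pi / 2) : Lf w x = ∑' k, co w k * gs k x := by
  induction w generalizing x with
  | nil =>
    have h1 : ∀ k, co [] k * gs k x = if k = 0 then gs 0 x else 0 := by
      intro k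
      unfold co
      split_ifs with hk
      · rw [hk, one_mul]
      · rw [zero_mul]
    simp_rw [h1]
    rw [tsum_ite_eq 0 (fun _ => gs 0 x)]
    simp [Lf, gs, cb]
  | cons n w ih =>
    have ih' : ∀ x : ℝ, 0 ≤ x → x < Real.pi / 2 → Lf w x = ∑' k, co w k * gs k x :=
      ih (fun m hm => hw m (List.mem_cons_of_mem _ hm))
    rcases hw n List.mem_cons_self with hn | hn
    · subst hn
      rw [Lf, if_pos rfl]
      exact A6b_two w ih' x hx0 hx
    · subst hn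
      rw [Lf, if_neg (by norm_num)]
      exact A6b_three w ih' x hx0 hx

end Pool.HB89
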