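import Pool.Agent.LibHB89.Defs

namespace Pool.HB89

open MeasureTheory Finset
open scoped ENNReal Nat

theorem A8a_integral (a : ℕ) (x : ℝ) :
    ∫ y in (0 : ℝ)..x, 4 * (x - y) * ((2 * y) ^ (2 * a) / ((2 * a)! : ℝ)) =
      (2 * x) ^ (2 * (a + 1)) / ((2 * (a + 1))! : ℝ) := by
  have hf : ((2 * a)! : ℝ) ≠ 0 := by exact_mod_cast (Nat.factorial_pos _).ne'
  have h1 : (2 * (a : ℝ) + 1) ≠ 0 := by positivity
  have h2 : (2 * (a : ℝ) + 2) ≠ 0 := by positivity
  have hder : ∀ y ∈ Set.uIcc (0 : ℝ) x, HasDerivAt (fun y : ℝ => 4 * 4 ^ a / ((2 * a)! : ℝ) *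
      (x * (y ^ (2 * a + 1) / (2 * a + 1)) - y ^ (2 * a + 2) / (2 * a + 2)))
      (4 * (x - y) * ((2 * y) ^ (2 * a) / ((2 * a)! : ℝ))) y := by
    intro y _
    have d1 : HasDerivAt (fun y : ℝ => y ^ (2 * a + 1) / (2 * (a : ℝ) + 1)) (y ^ (2 * a)) y := by
      refine ((hasDerivAt_pow (2 * a + 1) y).div_const (2 * (a : ℝ) + 1)).congr_deriv ?_
      rw [Nat.add_sub_cancel]
      push_cast
      field_simp
    have d2 : HasDerivAt (fun y : ℝ => y ^ (2 * a + 2) / (2 * (a : ℝ) + 2)) (y ^ (2 * a + 1)) y := by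
      refine ((hasDerivAt_pow (2 * a + 2) y).div_const (2 * (a : ℝ) + 2)).congr_deriv ?_
      have e3 : 2 * a + 2 - 1 = 2 * a + 1 := by omega
      rw [e3]
      push_cast
      field_simp
    have d3 := ((d1.const_mul x).sub d2).const_mul (4 * 4 ^ a / ((2 * a)! : ℝ))
    refine HasDerivAt.congr_deriv d3 ?_
    rw [mul_pow, pow_mul (2 : ℝ) 2 a]
    field_simp
    ring
  rw [intervalIntegral.integral_eq_sub_of_hasDerivAt hder]
  · have e1 : ((2 * (a + 1))! : ℝ) = (2 * a + 2) * ((2 * a + 1) * ((2 * a)! : ℝ)) := by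
      have : 2 * (a + 1) = (2 * a + 1) + 1 := by ring
      rw [this, Nat.factorial_succ, Nat.factorial_succ]
      push_cast
      ring
    rw [e1, mul_pow, pow_mul (2 : ℝ) 2 (a + 1), zero_pow (by omega), zero_pow (by omega)]
    have e2 : 2 * (a + 1) = 2 * a + 2 := by ring
    rw [e2]
    field_simp
    ring
  · exact (Continuous.intervalIntegrable (by fun_prop) _ _)

/-- repeated integration of the constant `1`. -/
theorem Lf_replicate (a : ℕ) (x : ℝ) (hx : 0 ≤ x) :
    Lf (List.replicate a 2) x = ENNReal.ofReal ((2 * x) ^ (2 * a) / ((2 * a)! : ℝ)) := by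
  induction a generalizing x with
  | zero => simp [Lf]
  | succ a ih =>
    rw [List.replicate_succ, Lf, if_pos rfl]
    have h1 : ∫⁻ y in Set.Ioo 0 x, ENNReal.ofReal (4 * (x - y)) * Lf (List.replicate a 2) y =
        ∫⁻ y in Set.Ioo 0 x, ENNReal.ofReal (4 * (x - y) * ((2 * y) ^ (2 * a) / ((2 * a)! : ℝ))) := by
      refine setLIntegral_congr_fun measurableSet_Ioo fun y hy => ?_
      rw [ih y hy.1.le, ← ENNReal.ofReal_mul (by linarith [hy.2])]
    rw [h1, Measure.restrict_congr_set Ioo_ae_eq_Ioc]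
    have h0 := A8a_integral a x
    rw [intervalIntegral.integral_of_le hx] at h0
    rw [← h0]
    rw [ofReal_integral_eq_lintegral_ofReal]
    · have hc : Continuous (fun y : ℝ => 4 * (x - y) * ((2 * y) ^ (2 * a) / ((2 * a)! : ℝ))) := by
        fun_prop
      exact (hc.intervalIntegrable 0 x).1
    · refine (ae_restrict_iff' measurableSet_Ioc).2 (Filter.Eventually.of_forall fun y hy => ?_)
      have h3 : 0 ≤ (2 * y) ^ (2 * a) := by rw [pow_mul]; positivity
      have h4 : 0 ≤ 4 * (x - y) := by linarith [hy.2]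
      have h5 : (0 : ℝ) ≤ ((2 * a)! : ℝ) := by positivity
      exact mul_nonneg h4 (div_nonneg h3 h5)

end Pool.HB89
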