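import Pool.Agent.LibHB89.A6a

namespace Pool.HB89

open MeasureTheory Finset
open scoped ENNReal Nat

theorem A8b_deriv (a : ℕ) (z x y : ℝ) :
    HasDerivAt (fun y : ℝ => 4 * 2 ^ (2 * a) / ((2 * a)! : ℝ) *
      ((x - z) * (y - z) ^ (2 * a + 1) / (2 * a + 1) - (y - z) ^ (2 * a + 2) / (2 * a + 2)))
      (4 * (x - y) * ((2 * (y - z)) ^ (2 * a) / ((2 * a)! : ℝ))) y := by
  have h1 : HasDerivAt (fun y : ℝ => (y - z) ^ (2 * a + 1))
      (((2 * a + 1 : ℕ) : ℝ) * (y - z) ^ (2 * a + 1 - 1) * 1) y :=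
    ((hasDerivAt_id y).sub_const z).pow (2 * a + 1)
  have h2 : HasDerivAt (fun y : ℝ => (y - z) ^ (2 * a + 2))
      (((2 * a + 2 : ℕ) : ℝ) * (y - z) ^ (2 * a + 2 - 1) * 1) y :=
    ((hasDerivAt_id y).sub_const z).pow (2 * a + 2)
  have h3 := (((h1.const_mul (x - z)).div_const (2 * a + 1 : ℝ)).sub
    (h2.div_const (2 * a + 2 : ℝ))).const_mul (4 * 2 ^ (2 * a) / ((2 * a)! : ℝ))
  refine h3.congr_deriv ?_
  have e1 : 2 * a + 1 - 1 = 2 * a := by omega
  have e2 : 2 * a + 2 - 1 = 2 * a + 1 := by omega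
  rw [e1, e2]
  have h4 : (2 * (a : ℝ) + 1) ≠ 0 := by positivity
  have h5 : (2 * (a : ℝ) + 2) ≠ 0 := by positivity
  have h6 : ((2 * a)! : ℝ) ≠ 0 := by positivity
  push_cast
  rw [mul_pow]
  field_simp
  ring

theorem A8b_int (a : ℕ) (z x : ℝ) (hzx : z ≤ x) :
    ∫⁻ y in Set.Ioo z x, ENNReal.ofReal (4 * (x - y)) *
      ENNReal.ofReal ((2 * (y - z)) ^ (2 * a) / ((2 * a)! : ℝ)) =
      ENNReal.ofReal ((2 * (x - z)) ^ (2 * (a + 1)) / ((2 * (a + 1))! : ℝ)) := by
  have hcont : Continuous (fun y : ℝ => 4 * (x - y) *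
      ((2 * (y - z)) ^ (2 * a) / ((2 * a)! : ℝ))) := by
    fun_prop
  have h1 : ∫ y in z..x, 4 * (x - y) * ((2 * (y - z)) ^ (2 * a) / ((2 * a)! : ℝ)) =
      (2 * (x - z)) ^ (2 * (a + 1)) / ((2 * (a + 1))! : ℝ) := by
    rw [intervalIntegral.integral_eq_sub_of_hasDerivAt (fun y _ => A8b_deriv a z x y)
      (hcont.intervalIntegrable _ _)]
    have h4 : (2 * (a : ℝ) + 1) ≠ 0 := by positivity
    have h5 : (2 * (a : ℝ) + 2) ≠ 0 := by positivity
    have h6 : ((2 * a)! : ℝ) ≠ 0 := by positivity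
    have h7 : ((2 * (a + 1))! : ℝ) = (2 * a + 2) * ((2 * a + 1) * ((2 * a)! : ℝ)) := by
      rw [show 2 * (a + 1) = (2 * a + 1) + 1 by ring, Nat.factorial_succ, Nat.factorial_succ]
      push_cast
      ring
    rw [h7, sub_self, zero_pow (by omega), zero_pow (by omega), mul_zero, zero_div, zero_div,
      sub_zero, mul_zero, sub_zero, mul_pow]
    rw [show 2 * (a + 1) = 2 * a + 2 by ring]
    field_simp
    ring
  have h2 : ∀ y ∈ Set.Ioo z x, ENNReal.ofReal (4 * (x - y)) *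
      ENNReal.ofReal ((2 * (y - z)) ^ (2 * a) / ((2 * a)! : ℝ)) =
      ENNReal.ofReal (4 * (x - y) * ((2 * (y - z)) ^ (2 * a) / ((2 * a)! : ℝ))) := by
    intro y hy
    rw [← ENNReal.ofReal_mul (by have := hy.2; linarith)]
  rw [setLIntegral_congr_fun measurableSet_Ioo h2, ← h1,
    intervalIntegral.integral_of_le hzx, integral_Ioc_eq_integral_Ioo,
    ofReal_integral_eq_lintegral_ofReal]
  · exact (hcont.integrableOn_Icc (a := z) (b := x)).mono_set Set.Ioo_subset_Icc_self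
  · rw [Filter.EventuallyLE, ae_restrict_iff' measurableSet_Ioo]
    refine Filter.Eventually.of_forall fun y hy => ?_
    have h3 : 0 ≤ x - y := by have := hy.2; linarith
    have h4 : 0 ≤ y - z := by have := hy.1; linarith
    simp only [Pi.zero_apply]
    positivity

open Classical in
/-- The kernel. -/
noncomputable def A8b_K (a : ℕ) (g : ℝ → ℝ≥0∞) (x : ℝ) (y z : ℝ) : ℝ≥0∞ :=
  if 0 < z ∧ z < y ∧ y < x then ENNReal.ofReal (4 * (x - y)) *
    ENNReal.ofReal ((2 * (y - z)) ^ (2 * a) / ((2 * a)! : ℝ)) * g z else 0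

theorem A8b_K_meas (a : ℕ) (g : ℝ → ℝ≥0∞) (hg : Measurable g) (x : ℝ) :
    Measurable (Function.uncurry (A8b_K a g x)) := by
  unfold A8b_K Function.uncurry
  refine Measurable.ite ?_ ?_ measurable_const
  · exact (measurableSet_lt measurable_const measurable_snd).inter
      ((measurableSet_lt measurable_snd measurable_fst).inter
        (measurableSet_lt measurable_fst measurable_const))
  · have m1 := (by fun_prop : Measurable (fun p : ℝ × ℝ => 4 * (x - p.1))).ennreal_ofReal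
    have m2 := (by fun_prop : Measurable (fun p : ℝ × ℝ =>
        (2 * (p.1 - p.2)) ^ (2 * a) / ((2 * a)! : ℝ))).ennreal_ofReal
    exact (m1.mul m2).mul (hg.comp measurable_snd)

theorem A8b_tonelli (a : ℕ) (g : ℝ → ℝ≥0∞) (hg : Measurable g) (x : ℝ) :
    ∫⁻ y in Set.Ioo 0 x, ENNReal.ofReal (4 * (x - y)) *
      ∫⁻ z in Set.Ioo 0 y, ENNReal.ofReal ((2 * (y - z)) ^ (2 * a) / ((2 * a)! : ℝ)) * g z =
    ∫⁻ z in Set.Ioo 0 x,
      ENNReal.ofReal ((2 * (x - z)) ^ (2 * (a + 1)) / ((2 * (a + 1))! : ℝ)) * g z := by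
  classical
  have hL : ∫⁻ y in Set.Ioo 0 x, ENNReal.ofReal (4 * (x - y)) *
      ∫⁻ z in Set.Ioo 0 y, ENNReal.ofReal ((2 * (y - z)) ^ (2 * a) / ((2 * a)! : ℝ)) * g z =
      ∫⁻ y, ∫⁻ z, A8b_K a g x y z := by
    rw [← lintegral_indicator measurableSet_Ioo]
    refine lintegral_congr fun y => ?_
    by_cases hy : y ∈ Set.Ioo 0 x
    · rw [Set.indicator_of_mem hy, ← lintegral_const_mul, ← lintegral_indicator measurableSet_Ioo]
      · refine lintegral_congr fun z => ?_
        unfold A8b_K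
        by_cases hz : z ∈ Set.Ioo 0 y
        · rw [Set.indicator_of_mem hz, if_pos ⟨hz.1, hz.2, hy.2⟩, mul_assoc]
        · rw [Set.indicator_of_notMem hz, if_neg (fun h => hz ⟨h.1, h.2.1⟩)]
      · have m1 := (by fun_prop : Measurable (fun z : ℝ =>
          (2 * (y - z)) ^ (2 * a) / ((2 * a)! : ℝ))).ennreal_ofReal
        exact m1.mul hg
    · rw [Set.indicator_of_notMem hy]
      have h1 : ∀ z, A8b_K a g x y z = 0 := by
        intro z
        unfold A8b_K
        rw [if_neg (fun h => hy ⟨h.1.trans h.2.1, h.2.2⟩)]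
      simp_rw [h1]
      rw [lintegral_zero]
  have hR : ∫⁻ z in Set.Ioo 0 x,
      ENNReal.ofReal ((2 * (x - z)) ^ (2 * (a + 1)) / ((2 * (a + 1))! : ℝ)) * g z =
      ∫⁻ z, ∫⁻ y, A8b_K a g x y z := by
    rw [← lintegral_indicator measurableSet_Ioo]
    refine lintegral_congr fun z => ?_
    by_cases hz : z ∈ Set.Ioo 0 x
    · rw [Set.indicator_of_mem hz, ← A8b_int a z x hz.2.le, ← lintegral_mul_const,
        ← lintegral_indicator measurableSet_Ioo]
      · refine lintegral_congr fun y => ?_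
        unfold A8b_K
        by_cases hy : y ∈ Set.Ioo z x
        · rw [Set.indicator_of_mem hy, if_pos ⟨hz.1, hy.1, hy.2⟩]
        · rw [Set.indicator_of_notMem hy, if_neg (fun h => hy ⟨h.2.1, h.2.2⟩)]
      · have m1 := (by fun_prop : Measurable (fun y : ℝ => 4 * (x - y))).ennreal_ofReal
        have m2 := (by fun_prop : Measurable (fun y : ℝ =>
            (2 * (y - z)) ^ (2 * a) / ((2 * a)! : ℝ))).ennreal_ofReal
        exact m1.mul m2
    · rw [Set.indicator_of_notMem hz]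
      have h1 : ∀ y, A8b_K a g x y z = 0 := by
        intro y
        unfold A8b_K
        rw [if_neg (fun h => hz ⟨h.1, h.2.1.trans h.2.2⟩)]
      simp_rw [h1]
      rw [lintegral_zero]
  rw [hL, hR]
  exact lintegral_lintegral_swap (A8b_K_meas a g hg x).aemeasurable

theorem A8b_split (a : ℕ) (w : List ℕ) (x : ℝ) :
    ∫⁻ y in Set.Ioo 0 x,
      ENNReal.ofReal ((2 * (x - y)) ^ (2 * a) / ((2 * a)! : ℝ) * (2 * ct y)) * Lf (2 :: w) y =
    ∫⁻ y in Set.Ioo 0 x,
      ENNReal.ofReal ((2 * (x - y)) ^ (2 * a) / ((2 * a)! : ℝ)) *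
        (ENNReal.ofReal (2 * ct y) * Lf (2 :: w) y) := by
  refine lintegral_congr fun y => ?_
  rw [ENNReal.ofReal_mul, mul_assoc]
  rw [pow_mul]
  positivity

/-- repeated integration after a letter `3`. -/
theorem Lf_replicate_three (a : ℕ) (w : List ℕ) (x : ℝ) :
    Lf (List.replicate a 2 ++ 3 :: w) x = ∫⁻ y in Set.Ioo 0 x,
      ENNReal.ofReal ((2 * (x - y)) ^ (2 * a) / ((2 * a)! : ℝ) * (2 * ct y)) * Lf (2 :: w) y := by
  have hg : Measurable (fun y => ENNReal.ofReal (2 * ct y) * Lf (2 :: w) y) :=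
    ((ct_measurable.const_mul 2).ennreal_ofReal).mul (Lf_measurable _)
  induction a generalizing x with
  | zero =>
    rw [List.replicate_zero, List.nil_append, Lf, if_neg (by norm_num)]
    refine lintegral_congr fun y => ?_
    rw [Lf, if_pos rfl]
    simp
  | succ a ih =>
    rw [List.replicate_succ, List.cons_append, Lf, if_pos rfl, A8b_split, ← A8b_tonelli a _ hg x]
    refine lintegral_congr fun y => ?_
    rw [ih y, A8b_split]

end Pool.HB89
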