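import Pool.Agent.LibHB89.A6a

namespace Pool.HB89

open MeasureTheory Finset
open scoped ENNReal Nat

/-- measurability of an integral with a moving upper end. -/
theorem A9a_measurable_aux (F : ℝ → ℝ → ℝ≥0∞) (hF : Measurable (Function.uncurry F)) :
    Measurable (fun b => ∫⁻ y in Set.Ioo 0 b, F b y) := by
  have h1 : ∀ b : ℝ, ∫⁻ y in Set.Ioo 0 b, F b y =
      ∫⁻ y, {p : ℝ × ℝ | 0 < p.2 ∧ p.2 < p.1}.indicator (Function.uncurry F) (b, y) := by
    intro b
    rw [← lintegral_indicator measurableSet_Ioo]
    apply lintegral_congr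
    intro y
    by_cases h : 0 < y ∧ y < b
    · rw [Set.indicator_of_mem (by exact h), Set.indicator_of_mem (by exact h)]
      rfl
    · rw [Set.indicator_of_notMem (by exact h), Set.indicator_of_notMem (by exact h)]
  simp_rw [h1]
  apply Measurable.lintegral_prod_right'
    (f := fun p : ℝ × ℝ => {p : ℝ × ℝ | 0 < p.2 ∧ p.2 < p.1}.indicator (Function.uncurry F) p)
  apply hF.indicator
  apply MeasurableSet.inter
  · exact measurableSet_lt measurable_const measurable_snd
  · exact measurableSet_lt measurable_snd measurable_fst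

theorem Yf_measurable (n : ℕ) (a : Fin (n + 1) → ℕ) : Measurable (Yf n a) := by
  induction n with
  | zero =>
    have h : Yf 0 a = fun b =>
        ENNReal.ofReal ((2 * b) ^ (2 * a 0 + 2) / ((2 * a 0 + 2)! : ℝ)) := by
      funext b
      rw [Yf]
    rw [h]
    fun_prop
  | succ n ih =>
    have h : Yf (n + 1) a = fun b => ∫⁻ y in Set.Ioo 0 b,
      ENNReal.ofReal ((2 * (b - y)) ^ (2 * a 0 + 2) / ((2 * a 0 + 2)! : ℝ) * (2 * ct y)) *
        Yf n (fun i => a i.succ) y := by
      funext b
      rw [Yf]
    rw [h]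
    apply A9a_measurable_aux (fun b y => ENNReal.ofReal ((2 * (b - y)) ^ (2 * a 0 + 2) /
      ((2 * a 0 + 2)! : ℝ) * (2 * ct y)) * Yf n (fun i => a i.succ) y)
    have h2 : Measurable (fun p : ℝ × ℝ => Yf n (fun i => a i.succ) p.2) :=
      (ih _).comp measurable_snd
    have h3 : Measurable (fun p : ℝ × ℝ => ENNReal.ofReal ((2 * (p.1 - p.2)) ^ (2 * a 0 + 2) /
      ((2 * a 0 + 2)! : ℝ) * (2 * ct p.2))) := by
      unfold ct
      apply Measurable.ennreal_ofReal
      apply Measurable.mul
      · fun_prop
      · apply Measurable.const_mul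
        apply Measurable.div
        · exact Real.measurable_cos.comp measurable_snd
        · exact Real.measurable_sin.comp measurable_snd
    exact h3.mul h2

end Pool.HB89
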