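import Pool.Agent.LibHB89.A9a
import Pool.Agent.LibHB89.A8a
import Pool.Agent.LibHB89.A8b

namespace Pool.HB89

open MeasureTheory Finset
open scoped ENNReal Nat

theorem Lf_eq_Yf (n : ℕ) (a : Fin (n + 1) → ℕ) (x : ℝ) (hx : 0 ≤ x) :
    Lf (2 :: word n a) x = Yf n a x := by
  induction n generalizing x with
  | zero =>
    have h : (2 :: word 0 a) = List.replicate (a 0 + 1) 2 := by
      rw [word, List.replicate_succ]
    rw [h, Lf_replicate _ _ hx, Yf]
    rfl
  | succ n ih =>
    have h : (2 :: word (n + 1) a) =
        List.replicate (a 0 + 1) 2 ++ 3 :: word n (fun i => a i.succ) := by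
      rw [word, List.replicate_succ]
      rfl
    rw [h, Lf_replicate_three, Yf]
    apply setLIntegral_congr_fun measurableSet_Ioo
    intro y hy
    dsimp only
    rw [ih _ y hy.1.le]
    rfl

theorem word_mem (n : ℕ) (a : Fin (n + 1) → ℕ) : ∀ x ∈ word n a, x = 2 ∨ x = 3 := by
  induction n with
  | zero =>
    intro x hx
    rw [word] at hx
    exact Or.inl (List.eq_of_mem_replicate hx)
  | succ n ih =>
    intro x hx
    rw [word, List.mem_append, List.mem_cons] at hx
    rcases hx with hx | hx | hx
    · exact Or.inl (List.eq_of_mem_replicate hx)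
    · exact Or.inr hx
    · exact ih _ x hx

end Pool.HB89
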