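import Pool.Agent.LibHof81.P4

namespace Pool.HB89

/-- Lindemann: `π` is transcendental (over the algebraic closure of `ℚ` in `ℂ`). -/
theorem transcendental_pi_closure :
    Transcendental (algebraicClosure ℚ ℂ) ((Real.pi : ℝ) : ℂ) :=
  Pool.Agent.LibHof81.transcendental_pi_closure

end Pool.HB89
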