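import Pool.Agent.LibHof81.V3
import Pool.Agent.LibHof81.V4

set_option autoImplicit false

namespace Pool.HB89

/-- Levels can be coloured with `2 ^ (v ^ 2)` colours such that there is no relation
`∑ x^j z_j = 0` (`z_j ∈ V` not all zero) between levels `j` of one colour. -/
theorem exists_colouring (K : Type) [Field K] [Algebra K ℂ] {x : ℂ} (hx : Transcendental K x)
    (v : ℕ) (V : Submodule K ℂ) [FiniteDimensional K V] (hV : Module.finrank K V ≤ v) :
    ∃ χ : ℕ → Fin (2 ^ (v ^ 2)), ∀ (S : Finset ℕ) (z : ℕ → ℂ),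
      (∀ i ∈ S, ∀ j ∈ S, χ i = χ j) → (∀ j ∈ S, z j ∈ V) →
        ∑ j ∈ S, x ^ j * z j = 0 → ∀ j ∈ S, z j = 0 := by
  classical
  set b := Module.finBasis K V with hb
  set w : Fin v → ℂ := fun i =>
    if h : (i : ℕ) < Module.finrank K V then ((b ⟨i, h⟩ : V) : ℂ) else 0 with hw
  have hVw : V ≤ Submodule.span K (Set.range w) := by
    intro z hz
    have h1 : (⟨z, hz⟩ : V) = ∑ i, b.repr ⟨z, hz⟩ i • b i := (b.sum_repr _).symm
    have h2 : z = ∑ i, b.repr ⟨z, hz⟩ i • ((b i : V) : ℂ) := by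
      have := congrArg (Submodule.subtype V) h1
      rw [map_sum] at this
      simpa using this
    rw [h2]
    refine Submodule.sum_mem _ (fun i _ => Submodule.smul_mem _ _ (Submodule.subset_span ?_))
    refine ⟨⟨i, i.2.trans_le hV⟩, ?_⟩
    simp only [hw]
    rw [dif_pos i.2]
  obtain ⟨Δ, hΔc, hΔ0, hΔ⟩ := Pool.Agent.LibHof81.exists_differences x hx v w
  obtain ⟨χ, hχ⟩ := Pool.Agent.LibHof81.exists_colour Δ (v ^ 2) hΔc hΔ0
  refine ⟨χ, fun S z hS hz hsum => hΔ S z (fun j hj => hVw (hz j hj)) ?_ hsum⟩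
  intro i hi j hj hij hmem
  exact hχ i j hij hmem (hS i hi j hj)

end Pool.HB89
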