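import Mathlib

namespace Pool.HB89

open MvPolynomial in
/-- the even monomial on the hyperplane, as a polynomial in the last `d` variables -/
noncomputable def B3_Q (d : ℕ) (i : Fin (d + 1) → ℕ) : MvPolynomial (Fin d) ℚ :=
  (1 - ∑ j, X j) ^ (2 * i 0) * ∏ j : Fin d, X j ^ (2 * i j.succ)

open MvPolynomial in
theorem B3_deg (d m : ℕ) (i : Fin (d + 1) → ℕ) (hi : ∀ j, i j < m) (j : Fin d) :
    degreeOf j (B3_Q d i) < 4 * m := by
  classical
  unfold B3_Q
  have h0 := hi 0
  have h1 := hi j.succ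
  have e1 : degreeOf j (1 - ∑ j, X j : MvPolynomial (Fin d) ℚ) ≤ 1 := by
    refine (degreeOf_sub_le _ _ _).trans ?_
    rw [degreeOf_one]
    refine max_le (by norm_num) ((degreeOf_sum_le _ _ _).trans ?_)
    apply Finset.sup_le
    intro k _
    rw [degreeOf_X]
    split_ifs <;> norm_num
  have e2 : degreeOf j ((1 - ∑ j, X j : MvPolynomial (Fin d) ℚ) ^ (2 * i 0)) ≤ 2 * i 0 := by
    refine (degreeOf_pow_le _ _ _).trans ?_
    calc 2 * i 0 * degreeOf j (1 - ∑ j, X j : MvPolynomial (Fin d) ℚ) ≤ 2 * i 0 * 1 := Nat.mul_le_mul_left _ e1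
      _ = 2 * i 0 := mul_one _
  have e3 : degreeOf j (∏ j : Fin d, X j ^ (2 * i j.succ) : MvPolynomial (Fin d) ℚ) ≤ 2 * i j.succ := by
    refine (degreeOf_prod_le _ _ _).trans ?_
    rw [Finset.sum_eq_single j]
    · exact (degreeOf_X_self_pow j _).le
    · intro k _ hk
      exact degreeOf_X_pow_of_ne _ (Ne.symm hk)
    · intro h; exact absurd (Finset.mem_univ j) h
  have e4 := degreeOf_mul_le j ((1 - ∑ j, X j : MvPolynomial (Fin d) ℚ) ^ (2 * i 0))
    (∏ j : Fin d, X j ^ (2 * i j.succ))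
  omega

/-- More than `(4m)^d` even monomials with exponents `< 2m` in `d+1` variables satisfy a rational
linear relation on the hyperplane `∑ s = 1`. -/
theorem exists_relation (d m : ℕ) (F : Finset (Fin (d + 1) → ℕ))
    (hF : ∀ i ∈ F, ∀ j, i j < m) (hcard : (4 * m) ^ d < F.card) :
    ∃ c : (Fin (d + 1) → ℕ) → ℚ, (∃ i ∈ F, c i ≠ 0) ∧
      ∀ s : Fin (d + 1) → ℝ, ∑ j, s j = 1 →
        ∑ i ∈ F, (c i : ℝ) * ∏ j, (s j) ^ (2 * i j) = 0 := by
  classical
  have hm : 0 < m := by
    have : 0 < F.card := lt_of_le_of_lt (Nat.zero_le _) hcard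
    obtain ⟨i, hi⟩ := Finset.card_pos.1 this
    exact lt_of_le_of_lt (Nat.zero_le _) (hF i hi 0)
  let f : (F → ℚ) →ₗ[ℚ] ((Fin d → Fin (4 * m)) → ℚ) :=
    { toFun := fun c e => ∑ i : F, c i * MvPolynomial.coeff (Finsupp.equivFunOnFinite.symm fun j => (e j : ℕ)) (B3_Q d i.1)
      map_add' := by
        intro c c'
        funext e
        simp only [Pi.add_apply, add_mul, Finset.sum_add_distrib]
      map_smul' := by
        intro r c
        funext e
        simp only [Pi.smul_apply, smul_eq_mul, RingHom.id_apply, Finset.mul_sum, mul_assoc] }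
  have hker : LinearMap.ker f ≠ ⊥ := by
    apply LinearMap.ker_ne_bot_of_finrank_lt
    simpa using hcard
  obtain ⟨c, hc, hc0⟩ := (Submodule.ne_bot_iff _).1 hker
  have hfc : f c = 0 := hc
  obtain ⟨i0, hi0⟩ : ∃ i0, c i0 ≠ 0 := by
    by_contra h
    push Not at h
    exact hc0 (funext h)
  let c' : (Fin (d + 1) → ℕ) → ℚ := fun i => if h : i ∈ F then c ⟨i, h⟩ else 0
  have hc' : ∀ i : F, c' i.1 = c i := by
    intro i
    simp only [c', dif_pos i.2]
  -- the polynomial is zero
  have hpoly : ∑ i ∈ F, MvPolynomial.C (c' i) * B3_Q d i = 0 := by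
    ext e
    rw [MvPolynomial.coeff_sum, MvPolynomial.coeff_zero]
    by_cases he : ∀ j, e j < 4 * m
    · have h1 := congrFun hfc (fun j => ⟨e j, he j⟩)
      have h2 : (Finsupp.equivFunOnFinite.symm fun j => ((⟨e j, he j⟩ : Fin (4 * m)) : ℕ)) = e := by
        ext j; simp
      have h3 : ∑ i : F, c i * MvPolynomial.coeff e (B3_Q d i.1) = 0 := by
        have h4 : f c (fun j => ⟨e j, he j⟩) = ∑ i : F, c i * MvPolynomial.coeff e (B3_Q d i.1) := by
          show ∑ i : F, c i * MvPolynomial.coeff (Finsupp.equivFunOnFinite.symm fun j =>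
            ((⟨e j, he j⟩ : Fin (4 * m)) : ℕ)) (B3_Q d i.1) = _
          rw [h2]
        rw [← h4, h1]; rfl
      rw [← h3, ← Finset.sum_coe_sort F]
      apply Finset.sum_congr rfl
      intro i _
      rw [MvPolynomial.coeff_C_mul, hc']
    · push Not at he
      obtain ⟨j, hj⟩ := he
      apply Finset.sum_eq_zero
      intro i hi
      rw [MvPolynomial.coeff_C_mul]
      have h1 := B3_deg d m i (hF i hi) j
      rw [MvPolynomial.degreeOf_lt_iff (by omega)] at h1
      have h2 : e ∉ (B3_Q d i).support := fun h => absurd (h1 e h) (by omega)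
      rw [MvPolynomial.notMem_support_iff.1 h2, mul_zero]
  refine ⟨c', ⟨i0.1, i0.2, by rw [hc']; exact hi0⟩, fun s hs => ?_⟩
  have h1 := congrArg (MvPolynomial.aeval (fun j : Fin d => s j.succ)) hpoly
  rw [map_sum, map_zero] at h1
  rw [← h1]
  apply Finset.sum_congr rfl
  intro i _
  rw [map_mul, MvPolynomial.aeval_C, Fin.prod_univ_succ]
  unfold B3_Q
  rw [map_mul, map_pow, map_prod, map_sub, map_one, map_sum]
  simp only [map_pow, MvPolynomial.aeval_X]
  have hs0 : s 0 = 1 - ∑ j : Fin d, s j.succ := by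
    rw [Fin.sum_univ_succ] at hs
    linarith
  rw [hs0]
  rfl

end Pool.HB89
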