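import Pool.Agent.LibHB89.B4d

namespace Pool.HB89

open Finset

theorem B4b_continuousOn {d : ℕ} : ContinuousOn (fun z : (Fin d → ℝ) × (Fin d → ℝ) => amg z.1 z.2)
    {z | ∀ i, 0 < z.1 i} := by
  unfold amg
  refine continuousOn_finsetProd _ fun i _ => ?_
  intro z hz
  have hz' : 0 < z.1 i := hz i
  have h1 : ContinuousAt (fun z : (Fin d → ℝ) × (Fin d → ℝ) => z.1 i) z := by fun_prop
  have h2 : ContinuousAt (fun z : (Fin d → ℝ) × (Fin d → ℝ) => z.2 i) z := by fun_prop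
  exact ((h2.div h1 hz'.ne').rpow h1 (Or.inr hz')).continuousWithinAt

theorem B4b_self {d : ℕ} {p : Fin d → ℝ} (hp : ∀ i, 0 < p i) : amg p p = 1 := by
  unfold amg
  refine Finset.prod_eq_one fun i _ => ?_
  rw [div_self (hp i).ne', Real.one_rpow]

/-- `amg p s` is close to `1` for `s` close to `p`. -/
theorem amg_near {d : ℕ} (η : ℝ) (hη : 0 < η) (q : ℝ) (hq : q < 1) :
    ∃ ρ : ℝ, 0 < ρ ∧ ∀ p s : Fin d → ℝ, (∀ i, η ≤ p i) → ∑ i, p i = 1 →
      (∀ i, 0 ≤ s i) → ∑ i, s i = 1 → dist s p ≤ ρ → q ≤ amg p s := by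
  set K : Set ((Fin d → ℝ) × (Fin d → ℝ)) := {z | (∀ i, η ≤ z.1 i) ∧ ∑ i, z.1 i = 1 ∧
    (∀ i, 0 ≤ z.2 i) ∧ ∑ i, z.2 i = 1} with hK
  have hclosed : IsClosed K := by
    have e : K = (⋂ i, {z : (Fin d → ℝ) × (Fin d → ℝ) | η ≤ z.1 i}) ∩ ({z | ∑ i, z.1 i = 1} ∩
        ((⋂ i, {z : (Fin d → ℝ) × (Fin d → ℝ) | 0 ≤ z.2 i}) ∩ {z | ∑ i, z.2 i = 1})) := by
      ext z
      simp [hK]
    rw [e]
    refine (isClosed_iInter fun i => isClosed_le continuous_const (by fun_prop)).inter ?_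
    refine (isClosed_eq (by fun_prop) continuous_const).inter ?_
    refine (isClosed_iInter fun i => isClosed_le continuous_const (by fun_prop)).inter ?_
    exact isClosed_eq (by fun_prop) continuous_const
  have hsub : K ⊆ Set.Icc (fun _ => 0) (fun _ => 1) ×ˢ Set.Icc (fun _ => 0) (fun _ => 1) := by
    rintro ⟨p, s⟩ ⟨h1, h2, h3, h4⟩
    have hle : ∀ (f : Fin d → ℝ), (∀ i, 0 ≤ f i) → ∑ i, f i = 1 → ∀ i, f i ≤ 1 := by
      intro f hf hf1 i
      rw [← hf1]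
      exact Finset.single_le_sum (fun j _ => hf j) (Finset.mem_univ i)
    have hp0 : ∀ i, 0 ≤ p i := fun i => hη.le.trans (h1 i)
    exact ⟨⟨hp0, hle p hp0 h2⟩, ⟨h3, hle s h3 h4⟩⟩
  have hcomp : IsCompact K := (isCompact_Icc.prod isCompact_Icc).of_isClosed_subset hclosed hsub
  have hcont : ContinuousOn (fun z : (Fin d → ℝ) × (Fin d → ℝ) => amg z.1 z.2) K :=
    B4b_continuousOn.mono fun z hz i => hη.trans_le (hz.1 i)
  set K' : Set ((Fin d → ℝ) × (Fin d → ℝ)) :=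
    K ∩ (fun z : (Fin d → ℝ) × (Fin d → ℝ) => amg z.1 z.2) ⁻¹' Set.Iic q with hK'
  have hcomp' : IsCompact K' :=
    hcomp.of_isClosed_subset (hcont.preimage_isClosed_of_isClosed hclosed isClosed_Iic)
      Set.inter_subset_left
  rcases K'.eq_empty_or_nonempty with he | hne
  · refine ⟨1, one_pos, fun p s h1 h2 h3 h4 _ => ?_⟩
    by_contra hcon
    push Not at hcon
    have : (p, s) ∈ K' := ⟨⟨h1, h2, h3, h4⟩, hcon.le⟩
    rw [he] at this
    exact absurd this (Set.notMem_empty _)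
  · have hd : ContinuousOn (fun z : (Fin d → ℝ) × (Fin d → ℝ) => dist z.2 z.1) K' := by
      have : Continuous (fun z : (Fin d → ℝ) × (Fin d → ℝ) => dist z.2 z.1) := by fun_prop
      exact this.continuousOn
    obtain ⟨z, hz, hmin⟩ := hcomp'.exists_isMinOn hne hd
    have hpos : 0 < dist z.2 z.1 := by
      rw [dist_pos]
      intro h
      have h1 : amg z.1 z.2 ≤ q := hz.2
      rw [h, B4b_self fun i => hη.trans_le (hz.1.1 i)] at h1
      linarith
    refine ⟨dist z.2 z.1 / 2, half_pos hpos, fun p s h1 h2 h3 h4 h5 => ?_⟩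
    by_contra hcon
    push Not at hcon
    have hm : (p, s) ∈ K' := ⟨⟨h1, h2, h3, h4⟩, hcon.le⟩
    have := hmin hm
    simp only [Set.mem_setOf_eq] at this
    linarith

end Pool.HB89
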