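import Pool.Agent.LibHB89.B4d

namespace Pool.HB89

open Finset

/-- relation with integer powers. -/
theorem amg_pow {d : ℕ} (a : Fin d → ℕ) (n : ℕ) (hn : 0 < n) (hsum : ∑ i, a i = n)
    (ha : ∀ i, 0 < a i) (s : Fin d → ℝ) (hs : ∀ i, 0 ≤ s i) :
    ∏ i, (s i) ^ (2 * a i) =
      (∏ i, ((a i : ℝ) / n) ^ (2 * a i)) * (amg (fun i => (a i : ℝ) / n) s) ^ (2 * n) := by
  have hn' : (0 : ℝ) < n := by exact_mod_cast hn
  unfold amg
  rw [← Finset.prod_pow, ← Finset.prod_mul_distrib]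
  refine Finset.prod_congr rfl fun i _ => ?_
  have ha' : (0 : ℝ) < a i := by exact_mod_cast ha i
  have hp : (0 : ℝ) < (a i : ℝ) / n := div_pos ha' hn'
  have h0 : 0 ≤ s i / ((a i : ℝ) / n) := div_nonneg (hs i) hp.le
  have h1 : ((s i / ((a i : ℝ) / n)) ^ ((a i : ℝ) / n)) ^ (2 * n) =
      (s i / ((a i : ℝ) / n)) ^ (2 * a i) := by
    rw [← Real.rpow_natCast, ← Real.rpow_mul h0, ← Real.rpow_natCast]
    congr 1
    push_cast
    field_simp
  rw [h1, ← mul_pow, mul_div_cancel₀]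
  exact hp.ne'

end Pool.HB89
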