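import Pool.Agent.LibHB89.B4a
import Pool.Agent.LibHB89.B4b
import Pool.Agent.LibHB89.B4c

namespace Pool.HB89

open MeasureTheory Finset

/-- the compact set of base points -/
def B4_K (d : ℕ) (η : ℝ) : Set (Fin d → ℝ) := {p | (∀ i, η ≤ p i) ∧ ∑ i, p i = 1}

theorem B4_K_compact {d : ℕ} {η : ℝ} (hη : 0 < η) : IsCompact (B4_K d η) := by
  have h : B4_K d η = stdSimplex ℝ (Fin d) ∩ {p | ∀ i, η ≤ p i} := by
    ext p
    constructor
    · rintro ⟨h1, h2⟩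
      exact ⟨⟨fun i => hη.le.trans (h1 i), h2⟩, h1⟩
    · rintro ⟨⟨h1, h2⟩, h3⟩
      exact ⟨h3, h2⟩
  rw [h]
  apply (isCompact_stdSimplex (ι := Fin d) (𝕜 := ℝ)).inter_right
  have : {p : Fin d → ℝ | ∀ i, η ≤ p i} = ⋂ i, {p | η ≤ p i} := by ext p; simp
  rw [this]
  exact isClosed_iInter fun i => isClosed_le continuous_const (continuous_apply i)

theorem B4_lower {d : ℕ} {Ω : Type} [MeasurableSpace Ω] (ν : Measure Ω) [IsFiniteMeasure ν]
    (s : Ω → Fin d → ℝ)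
    (hfull : ∀ p : Fin d → ℝ, (∀ i, 0 < p i) → ∑ i, p i = 1 → ∀ ρ : ℝ, 0 < ρ →
      0 < ν {ω | dist (s ω) p < ρ}) {η ρ : ℝ} (hη : 0 < η) (hρ : 0 < ρ) :
    ∃ b : ℝ, 0 < b ∧ ∀ p ∈ B4_K d η, b ≤ ν.real {ω | dist (s ω) p < ρ} := by
  have := (B4_K_compact (d := d) hη).induction_on (p := fun S => ∃ b : ℝ, 0 < b ∧
    ∀ p ∈ S, b ≤ ν.real {ω | dist (s ω) p < ρ}) ?_ ?_ ?_ ?_
  · exact this
  · exact ⟨1, one_pos, fun p hp => absurd hp (Set.notMem_empty p)⟩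
  · rintro S T hST ⟨b, hb, h⟩
    exact ⟨b, hb, fun p hp => h p (hST hp)⟩
  · rintro S T ⟨b, hb, h⟩ ⟨b', hb', h'⟩
    refine ⟨min b b', lt_min hb hb', fun p hp => ?_⟩
    rcases hp with hp | hp
    · exact (min_le_left _ _).trans (h p hp)
    · exact (min_le_right _ _).trans (h' p hp)
  · intro x hx
    refine ⟨Metric.ball x (ρ / 2), mem_nhdsWithin_of_mem_nhds (Metric.ball_mem_nhds x (half_pos hρ)),
      ν.real {ω | dist (s ω) x < ρ / 2}, ?_, ?_⟩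
    · exact ENNReal.toReal_pos (hfull x (fun i => hη.trans_le (hx.1 i)) hx.2 _ (half_pos hρ)).ne'
        (measure_ne_top _ _)
    · intro p hp
      apply measureReal_mono
      · intro ω hω
        have h1 : dist (s ω) x < ρ / 2 := hω
        have h2 : dist p x < ρ / 2 := hp
        have h3 := dist_triangle_right (s ω) p x
        show dist (s ω) p < ρ
        linarith
      · exact measure_ne_top _ _

theorem amg_nonneg {d : ℕ} {p s : Fin d → ℝ} (hp : ∀ i, 0 ≤ p i) (hs : ∀ i, 0 ≤ s i) : 0 ≤ amg p s :=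
  Finset.prod_nonneg fun i _ => Real.rpow_nonneg (div_nonneg (hs i) (hp i)) _

/-- the positive case -/
theorem B4_pos {d : ℕ} {Ω : Type} [MeasurableSpace Ω] (ν : Measure Ω) [IsFiniteMeasure ν]
    (s : Ω → Fin d → ℝ) (hs : Measurable s) (h0 : ∀ᵐ ω ∂ν, ∀ i, 0 ≤ s ω i)
    (h1 : ∀ᵐ ω ∂ν, ∑ i, s ω i = 1)
    (hfull : ∀ p : Fin d → ℝ, (∀ i, 0 < p i) → ∑ i, p i = 1 → ∀ ρ : ℝ, 0 < ρ →
      0 < ν {ω | dist (s ω) p < ρ})
    (f : (Fin d → ℝ) → ℝ) (hf : Continuous f) (η : ℝ) (hη : 0 < η) :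
    ∃ N : ℕ, ∀ a : Fin d → ℕ, N ≤ ∑ i, a i → (∀ i, η * ((∑ j, a j : ℕ) : ℝ) ≤ a i) →
      η ≤ f (fun i => (a i : ℝ) / ((∑ j, a j : ℕ) : ℝ)) →
      0 < ∫ ω, (∏ i, s ω i ^ (2 * a i)) * f (s ω) ∂ν := by
  classical
  -- bound and uniform continuity
  obtain ⟨M, hM⟩ : ∃ M : ℝ, ∀ x ∈ stdSimplex ℝ (Fin d), |f x| ≤ M := by
    obtain ⟨M, hM⟩ := (isCompact_stdSimplex (ι := Fin d) (𝕜 := ℝ)).exists_bound_of_continuousOn
      hf.continuousOn
    exact ⟨M, fun x hx => by simpa using hM x hx⟩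
  obtain ⟨M', hM'0, hM'⟩ : ∃ M' : ℝ, 0 < M' ∧ ∀ x ∈ stdSimplex ℝ (Fin d), |f x| ≤ M' :=
    ⟨max M 1, by positivity, fun x hx => (hM x hx).trans (le_max_left _ _)⟩
  obtain ⟨ρ, hρ, hρf⟩ : ∃ ρ : ℝ, 0 < ρ ∧ ∀ x ∈ stdSimplex ℝ (Fin d), ∀ y ∈ stdSimplex ℝ (Fin d),
      dist x y < ρ → |f x - f y| < η / 2 := by
    have h := (isCompact_stdSimplex (ι := Fin d) (𝕜 := ℝ)).uniformContinuousOn_of_continuous
      hf.continuousOn
    rw [Metric.uniformContinuousOn_iff] at h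
    obtain ⟨ρ, hρ, h⟩ := h (η / 2) (half_pos hη)
    exact ⟨ρ, hρ, fun x hx y hy hxy => by have := h x hx y hy hxy; rwa [Real.dist_eq] at this⟩
  obtain ⟨q, hq0, hq1, hfar⟩ := amg_far (d := d) η (ρ / 2) hη (half_pos hρ)
  obtain ⟨q', hq'⟩ : ∃ q' : ℝ, q' = (1 + q) / 2 := ⟨_, rfl⟩
  have hq'1 : q' < 1 := by linarith
  have hqq' : q < q' := by linarith
  have hq'0 : 0 < q' := by linarith
  obtain ⟨ρ', hρ', hnear⟩ := amg_near (d := d) η hη q' hq'1
  obtain ⟨r, hr⟩ : ∃ r : ℝ, r = min ρ' (ρ / 2) := ⟨_, rfl⟩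
  have hr0 : 0 < r := by rw [hr]; exact lt_min hρ' (half_pos hρ)
  have hrρ' : r ≤ ρ' := by rw [hr]; exact min_le_left _ _
  have hrρ : r ≤ ρ / 2 := by rw [hr]; exact min_le_right _ _
  obtain ⟨b, hb, hbK⟩ := B4_lower ν s hfull hη hr0
  obtain ⟨V, hV⟩ : ∃ V : ℝ, V = ν.real Set.univ := ⟨_, rfl⟩
  have hV0 : 0 ≤ V := by rw [hV]; positivity
  -- choice of N
  obtain ⟨t, ht⟩ : ∃ t : ℝ, t = (q / q') ^ 2 := ⟨_, rfl⟩
  have ht0 : 0 ≤ t := by rw [ht]; positivity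
  have ht1 : t < 1 := by
    rw [ht]
    have : q / q' < 1 := by rw [div_lt_one hq'0]; exact hqq'
    have h2 : 0 ≤ q / q' := by positivity
    nlinarith
  have hlim : Filter.Tendsto (fun n : ℕ => M' * V * t ^ n) Filter.atTop (nhds 0) := by
    have := (tendsto_pow_atTop_nhds_zero_of_lt_one ht0 ht1).const_mul (M' * V)
    rwa [mul_zero] at this
  have hpos : 0 < η / 2 * b := by positivity
  obtain ⟨N, hN⟩ := Filter.eventually_atTop.1 (hlim.eventually_lt_const hpos)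
  refine ⟨max N 1, fun a haN haη hfa => ?_⟩
  obtain ⟨n, hn⟩ : ∃ n : ℕ, n = ∑ j, a j := ⟨_, rfl⟩
  rw [← hn] at haN haη hfa
  have hn1 : 1 ≤ n := (le_max_right _ _).trans haN
  have hnN : N ≤ n := (le_max_left _ _).trans haN
  have hn0 : (0 : ℝ) < n := by exact_mod_cast hn1
  obtain ⟨p, hp⟩ : ∃ p : Fin d → ℝ, p = fun i => (a i : ℝ) / n := ⟨_, rfl⟩
  have hpη : ∀ i, η ≤ p i := by
    intro i
    rw [hp]
    show η ≤ (a i : ℝ) / n
    rw [le_div_iff₀ hn0]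
    exact haη i
  have hpsum : ∑ i, p i = 1 := by
    rw [hp]
    show ∑ i, (a i : ℝ) / n = 1
    rw [← Finset.sum_div, div_eq_one_iff_eq hn0.ne', hn]
    push_cast; rfl
  have hpK : p ∈ B4_K d η := ⟨hpη, hpsum⟩
  have hpΔ : p ∈ stdSimplex ℝ (Fin d) := ⟨fun i => hη.le.trans (hpη i), hpsum⟩
  have ha0 : ∀ i, 0 < a i := by
    intro i
    have h2 : 0 < (a i : ℝ) := lt_of_lt_of_le (by positivity) (haη i)
    exact_mod_cast h2
  rw [← hp] at hfa
  obtain ⟨E, hE⟩ : ∃ E : ℝ, E = ∏ i, ((a i : ℝ) / n) ^ (2 * a i) := ⟨_, rfl⟩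
  have hE0 : 0 < E := by
    rw [hE]
    apply Finset.prod_pos
    intro i _
    have : (0 : ℝ) < a i := by exact_mod_cast ha0 i
    positivity
  have hpow : ∀ x : Fin d → ℝ, (∀ i, 0 ≤ x i) → ∏ i, (x i) ^ (2 * a i) = E * (amg p x) ^ (2 * n) := by
    intro x hx
    rw [hE, hp]
    exact amg_pow a n hn1 hn.symm ha0 x hx
  -- integrability
  have hmeas : Measurable fun ω => (∏ i, s ω i ^ (2 * a i)) * f (s ω) := by
    apply Measurable.mul
    · apply Finset.measurable_prod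
      intro i _
      exact ((measurable_pi_apply i).comp hs).pow_const _
    · exact hf.measurable.comp hs
  have hbound : ∀ᵐ ω ∂ν, ‖(∏ i, s ω i ^ (2 * a i)) * f (s ω)‖ ≤ M' := by
    filter_upwards [h0, h1] with ω hω0 hω1
    have hΔ : s ω ∈ stdSimplex ℝ (Fin d) := ⟨hω0, hω1⟩
    rw [norm_mul, Real.norm_eq_abs, Real.norm_eq_abs]
    have h2 : |∏ i, s ω i ^ (2 * a i)| ≤ 1 := by
      rw [abs_of_nonneg (Finset.prod_nonneg fun i _ => pow_nonneg (hω0 i) _)]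
      apply Finset.prod_le_one
      · intro i _; exact pow_nonneg (hω0 i) _
      · intro i _
        apply pow_le_one₀ (hω0 i)
        rw [← hω1]
        exact Finset.single_le_sum (fun j _ => hω0 j) (Finset.mem_univ i)
    have h3 := hM' _ hΔ
    have h4 : 0 ≤ |f (s ω)| := abs_nonneg _
    have h5 : 0 ≤ |∏ i, s ω i ^ (2 * a i)| := abs_nonneg _
    nlinarith
  have hint : Integrable (fun ω => (∏ i, s ω i ^ (2 * a i)) * f (s ω)) ν :=
    Integrable.of_bound hmeas.aestronglyMeasurable M' hbound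
  obtain ⟨B, hB⟩ : ∃ B : Set Ω, B = {ω | dist (s ω) p < r} := ⟨_, rfl⟩
  have hBm : MeasurableSet B := by
    rw [hB]
    exact measurableSet_lt (hs.dist measurable_const) measurable_const
  have hBb : b ≤ ν.real B := by rw [hB]; exact hbK p hpK
  -- pointwise lower bound
  have hle : ∀ᵐ ω ∂ν, B.indicator (fun _ => E * (η / 2 * q' ^ (2 * n))) ω - E * (M' * q ^ (2 * n)) ≤
      (∏ i, s ω i ^ (2 * a i)) * f (s ω) := by
    filter_upwards [h0, h1] with ω hω0 hω1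
    have hΔ : s ω ∈ stdSimplex ℝ (Fin d) := ⟨hω0, hω1⟩
    rw [hpow _ hω0]
    have hamg : 0 ≤ amg p (s ω) := amg_nonneg (fun i => hη.le.trans (hpη i)) hω0
    have hX : 0 ≤ E * amg p (s ω) ^ (2 * n) := by positivity
    have hY : 0 ≤ E * (M' * q ^ (2 * n)) := by positivity
    by_cases hω : ω ∈ B
    · rw [Set.indicator_of_mem hω]
      have hd : dist (s ω) p < r := by rw [hB] at hω; exact hω
      have h2 : q' ≤ amg p (s ω) := hnear p (s ω) hpη hpsum hω0 hω1 (hd.le.trans hrρ')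
      have h3 := hρf _ hΔ _ hpΔ (by linarith)
      rw [abs_lt] at h3
      have h4 : η / 2 ≤ f (s ω) := by linarith [h3.1]
      have h5 : q' ^ (2 * n) ≤ amg p (s ω) ^ (2 * n) := pow_le_pow_left₀ hq'0.le h2 _
      have h6 : E * (η / 2 * q' ^ (2 * n)) ≤ E * amg p (s ω) ^ (2 * n) * f (s ω) := by
        calc E * (η / 2 * q' ^ (2 * n)) = (E * q' ^ (2 * n)) * (η / 2) := by ring
          _ ≤ (E * amg p (s ω) ^ (2 * n)) * f (s ω) :=
            mul_le_mul (mul_le_mul_of_nonneg_left h5 hE0.le) h4 (by positivity) hX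
      linarith
    · rw [Set.indicator_of_notMem hω, zero_sub]
      rcases lt_or_ge (dist (s ω) p) (ρ / 2) with hd | hd
      · have h3 := hρf _ hΔ _ hpΔ (by linarith)
        rw [abs_lt] at h3
        have h4 : 0 ≤ f (s ω) := by linarith [h3.1]
        have := mul_nonneg hX h4
        linarith
      · have h2 : amg p (s ω) ≤ q := hfar p (s ω) hpη hpsum hω0 hω1 hd
        have h5 : amg p (s ω) ^ (2 * n) ≤ q ^ (2 * n) := pow_le_pow_left₀ hamg h2 _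
        have h6 := hM' _ hΔ
        rw [abs_le] at h6
        have h7 : E * amg p (s ω) ^ (2 * n) * (-M') ≤ E * amg p (s ω) ^ (2 * n) * f (s ω) :=
          mul_le_mul_of_nonneg_left h6.1 hX
        have h8 : E * amg p (s ω) ^ (2 * n) * M' ≤ E * (M' * q ^ (2 * n)) := by
          calc E * amg p (s ω) ^ (2 * n) * M' = E * M' * amg p (s ω) ^ (2 * n) := by ring
            _ ≤ E * M' * q ^ (2 * n) := mul_le_mul_of_nonneg_left h5 (by positivity)
            _ = _ := by ring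
        linarith
  have hint2 : Integrable (fun ω => B.indicator (fun _ => E * (η / 2 * q' ^ (2 * n))) ω -
      E * (M' * q ^ (2 * n))) ν :=
    ((integrable_const _).indicator hBm).sub (integrable_const _)
  refine lt_of_lt_of_le ?_ (integral_mono_ae hint2 hint hle)
  rw [integral_sub ((integrable_const _).indicator hBm) (integrable_const _), integral_indicator hBm,
    setIntegral_const, integral_const, ← hV, smul_eq_mul, smul_eq_mul]
  have h2 := hN n hnN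
  have h3 : q ^ (2 * n) = t ^ n * q' ^ (2 * n) := by
    rw [ht, ← pow_mul, div_pow]
    field_simp
  have hq'n : 0 < q' ^ (2 * n) := by positivity
  have h4 : V * (E * (M' * q ^ (2 * n))) = E * q' ^ (2 * n) * (M' * V * t ^ n) := by rw [h3]; ring
  have h5 : E * q' ^ (2 * n) * (M' * V * t ^ n) < E * q' ^ (2 * n) * (η / 2 * b) :=
    mul_lt_mul_of_pos_left h2 (by positivity)
  have h6 : E * q' ^ (2 * n) * (η / 2 * b) ≤ ν.real B * (E * (η / 2 * q' ^ (2 * n))) := by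
    calc E * q' ^ (2 * n) * (η / 2 * b) = b * (E * (η / 2 * q' ^ (2 * n))) := by ring
      _ ≤ _ := mul_le_mul_of_nonneg_right hBb (by positivity)
  linarith

/-- Concentration: `s^(2a) dν` concentrates at `a / |a|`. -/
theorem conc {d : ℕ} {Ω : Type} [MeasurableSpace Ω] (ν : Measure Ω) [IsFiniteMeasure ν]
    (s : Ω → Fin d → ℝ) (hs : Measurable s) (h0 : ∀ᵐ ω ∂ν, ∀ i, 0 ≤ s ω i)
    (h1 : ∀ᵐ ω ∂ν, ∑ i, s ω i = 1)
    (hfull : ∀ p : Fin d → ℝ, (∀ i, 0 < p i) → ∑ i, p i = 1 → ∀ ρ : ℝ, 0 < ρ →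
      0 < ν {ω | dist (s ω) p < ρ})
    (f : (Fin d → ℝ) → ℝ) (hf : Continuous f) (η : ℝ) (hη : 0 < η) :
    ∃ N : ℕ, ∀ a : Fin d → ℕ, N ≤ ∑ i, a i → (∀ i, η * ((∑ j, a j : ℕ) : ℝ) ≤ a i) →
      η ≤ |f (fun i => (a i : ℝ) / ((∑ j, a j : ℕ) : ℝ))| →
      ∫ ω, (∏ i, s ω i ^ (2 * a i)) * f (s ω) ∂ν ≠ 0 := by
  obtain ⟨N1, hN1⟩ := B4_pos ν s hs h0 h1 hfull f hf η hη
  obtain ⟨N2, hN2⟩ := B4_pos ν s hs h0 h1 hfull (fun x => -f x) hf.neg η hη
  refine ⟨max N1 N2, fun a ha haη hfa => ?_⟩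
  rcases le_abs.1 hfa with h | h
  · exact (hN1 a ((le_max_left _ _).trans ha) haη h).ne'
  · have h2 := hN2 a ((le_max_right _ _).trans ha) haη h
    intro h3
    have h4 : ∫ ω, (∏ i, s ω i ^ (2 * a i)) * -f (s ω) ∂ν =
        -∫ ω, (∏ i, s ω i ^ (2 * a i)) * f (s ω) ∂ν := by
      rw [← integral_neg]
      congr 1
      funext ω
      ring
    rw [h4, h3, neg_zero] at h2
    exact lt_irrefl _ h2

end Pool.HB89
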