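import Pool.Agent.LibHB89.B4d

namespace Pool.HB89

open Finset

theorem B4a_lt {d : ℕ} {p s : Fin d → ℝ} (hp : ∀ i, 0 < p i) (hp1 : ∑ i, p i = 1)
    (hs : ∀ i, 0 ≤ s i) (hs1 : ∑ i, s i = 1) (hne : s ≠ p) : amg p s < 1 := by
  have h := Real.geom_mean_lt_arith_mean_weighted_iff_of_pos Finset.univ p (fun i => s i / p i)
    (fun i _ => hp i) hp1 (fun i _ => div_nonneg (hs i) (hp i).le)
  have hsum : ∑ i, p i * (s i / p i) = 1 := by
    rw [← hs1]
    refine Finset.sum_congr rfl fun i _ => ?_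
    rw [mul_div_cancel₀]
    exact (hp i).ne'
  rw [hsum] at h
  unfold amg
  rw [h]
  by_contra hcon
  push Not at hcon
  apply hne
  have hd : (Finset.univ : Finset (Fin d)).Nonempty := by
    by_contra he
    rw [Finset.not_nonempty_iff_eq_empty] at he
    rw [he, Finset.sum_empty] at hp1
    exact zero_ne_one hp1
  obtain ⟨j, _⟩ := hd
  have hall : ∀ i, s i = (s j / p j) * p i := by
    intro i
    have := hcon i (Finset.mem_univ _) j (Finset.mem_univ _)
    rw [← this, div_mul_cancel₀]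
    exact (hp i).ne'
  have hc : s j / p j = 1 := by
    have h1 : ∑ i, s i = (s j / p j) * ∑ i, p i := by
      rw [Finset.mul_sum]
      exact Finset.sum_congr rfl fun i _ => hall i
    rw [hs1, hp1, mul_one] at h1
    exact h1.symm
  funext i
  rw [hall i, hc, one_mul]

theorem B4a_continuousOn {d : ℕ} : ContinuousOn (fun z : (Fin d → ℝ) × (Fin d → ℝ) => amg z.1 z.2)
    {z | ∀ i, 0 < z.1 i} := by
  unfold amg
  refine continuousOn_finsetProd _ fun i _ => ?_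
  intro z hz
  have hz' : 0 < z.1 i := hz i
  have h1 : ContinuousAt (fun z : (Fin d → ℝ) × (Fin d → ℝ) => z.1 i) z := by fun_prop
  have h2 : ContinuousAt (fun z : (Fin d → ℝ) × (Fin d → ℝ) => z.2 i) z := by fun_prop
  exact ((h2.div h1 hz'.ne').rpow h1 (Or.inr hz')).continuousWithinAt

/-- uniform strict AM-GM on the simplex. -/
theorem amg_far {d : ℕ} (η ρ : ℝ) (hη : 0 < η) (hρ : 0 < ρ) :
    ∃ q : ℝ, 0 < q ∧ q < 1 ∧ ∀ p s : Fin d → ℝ, (∀ i, η ≤ p i) → ∑ i, p i = 1 →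
      (∀ i, 0 ≤ s i) → ∑ i, s i = 1 → ρ ≤ dist s p → amg p s ≤ q := by
  set K : Set ((Fin d → ℝ) × (Fin d → ℝ)) := {z | (∀ i, η ≤ z.1 i) ∧ ∑ i, z.1 i = 1 ∧
    (∀ i, 0 ≤ z.2 i) ∧ ∑ i, z.2 i = 1 ∧ ρ ≤ dist z.2 z.1} with hK
  have hclosed : IsClosed K := by
    have e : K = (⋂ i, {z : (Fin d → ℝ) × (Fin d → ℝ) | η ≤ z.1 i}) ∩ ({z | ∑ i, z.1 i = 1} ∩
        ((⋂ i, {z : (Fin d → ℝ) × (Fin d → ℝ) | 0 ≤ z.2 i}) ∩ ({z | ∑ i, z.2 i = 1} ∩
          {z | ρ ≤ dist z.2 z.1}))) := by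
      ext z
      simp [hK]
    rw [e]
    refine (isClosed_iInter fun i => isClosed_le continuous_const (by fun_prop)).inter ?_
    refine (isClosed_eq (by fun_prop) continuous_const).inter ?_
    refine (isClosed_iInter fun i => isClosed_le continuous_const (by fun_prop)).inter ?_
    refine (isClosed_eq (by fun_prop) continuous_const).inter ?_
    exact isClosed_le continuous_const (by fun_prop)
  have hsub : K ⊆ Set.Icc (fun _ => 0) (fun _ => 1) ×ˢ Set.Icc (fun _ => 0) (fun _ => 1) := by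
    rintro ⟨p, s⟩ ⟨h1, h2, h3, h4, -⟩
    have hle : ∀ (f : Fin d → ℝ), (∀ i, 0 ≤ f i) → ∑ i, f i = 1 → ∀ i, f i ≤ 1 := by
      intro f hf hf1 i
      rw [← hf1]
      exact Finset.single_le_sum (fun j _ => hf j) (Finset.mem_univ i)
    have hp0 : ∀ i, 0 ≤ p i := fun i => hη.le.trans (h1 i)
    exact ⟨⟨hp0, hle p hp0 h2⟩, ⟨h3, hle s h3 h4⟩⟩
  have hcomp : IsCompact K := (isCompact_Icc.prod isCompact_Icc).of_isClosed_subset hclosed hsub
  have hcont : ContinuousOn (fun z : (Fin d → ℝ) × (Fin d → ℝ) => amg z.1 z.2) K :=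
    B4a_continuousOn.mono fun z hz i => hη.trans_le (hz.1 i)
  rcases K.eq_empty_or_nonempty with he | hne
  · refine ⟨1 / 2, by norm_num, by norm_num, fun p s h1 h2 h3 h4 h5 => ?_⟩
    have : (p, s) ∈ K := ⟨h1, h2, h3, h4, h5⟩
    rw [he] at this
    exact absurd this (Set.notMem_empty _)
  · obtain ⟨z, hz, hmax⟩ := hcomp.exists_isMaxOn hne hcont
    have hz1 : amg z.1 z.2 < 1 := by
      obtain ⟨h1, h2, h3, h4, h5⟩ := hz
      refine B4a_lt (fun i => hη.trans_le (h1 i)) h2 h3 h4 fun h => ?_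
      rw [h, dist_self] at h5
      linarith
    refine ⟨max (1 / 2) (amg z.1 z.2), lt_max_of_lt_left (by norm_num),
      max_lt (by norm_num) hz1, fun p s h1 h2 h3 h4 h5 => ?_⟩
    exact (hmax (show (p, s) ∈ K from ⟨h1, h2, h3, h4, h5⟩)).trans (le_max_right _ _)

end Pool.HB89
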