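import Mathlib

namespace Pool.HB89

open Finset

/-- `amg p s = ∏ (s i / p i) ^ (p i)` (real powers). -/
noncomputable def amg {d : ℕ} (p s : Fin d → ℝ) : ℝ := ∏ i, (s i / p i) ^ (p i)

end Pool.HB89
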