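import Mathlib

namespace Pool.HB89

open MeasureTheory

theorem volume_zeros (d : ℕ) (P : MvPolynomial (Fin d) ℝ) (hP : P ≠ 0) :
    volume {x : Fin d → ℝ | MvPolynomial.eval x P = 0} = 0 := by
  induction d with
  | zero =>
    obtain ⟨c, rfl⟩ : ∃ c : ℝ, P = MvPolynomial.C c :=
      ⟨_, MvPolynomial.eq_C_of_isEmpty P⟩
    have hc : c ≠ 0 := by
      rintro rfl
      exact hP (by simp)
    have : {x : Fin 0 → ℝ | MvPolynomial.eval x (MvPolynomial.C c) = 0} = ∅ := by
      ext x
      simp [hc]
    rw [this]
    exact measure_empty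
  | succ d ih =>
    set Q := MvPolynomial.finSuccEquiv ℝ d P with hQ
    have hQ0 : Q ≠ 0 := by
      intro h
      apply hP
      apply (MvPolynomial.finSuccEquiv ℝ d).injective
      rw [map_zero]
      exact h
    obtain ⟨k, hk⟩ : ∃ k, Q.coeff k ≠ 0 := by
      by_contra hcon
      push Not at hcon
      exact hQ0 (Polynomial.ext fun n => by simpa using hcon n)
    have h1 := ih (Q.coeff k) hk
    set S : Set (Fin (d + 1) → ℝ) := {x | MvPolynomial.eval x P = 0} with hS
    have hSm : MeasurableSet S := by
      have hc : Continuous fun x : Fin (d + 1) → ℝ => MvPolynomial.eval x P := MvPolynomial.continuous_eval P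
      exact (isClosed_singleton.preimage hc).measurableSet
    set e := MeasurableEquiv.piFinSuccAbove (fun _ : Fin (d + 1) => ℝ) 0 with he
    have hmp : MeasurePreserving e volume volume :=
      volume_preserving_piFinSuccAbove (fun _ : Fin (d + 1) => ℝ) 0
    have hpre : S = e ⁻¹' (e.symm ⁻¹' S) := by
      ext x
      simp
    have hm2 : MeasurableSet (e.symm ⁻¹' S) := e.symm.measurable hSm
    rw [hpre, hmp.measure_preimage hm2.nullMeasurableSet]
    rw [Measure.volume_eq_prod, Measure.prod_apply_symm hm2]
    have h2 : ∀ᵐ y : Fin d → ℝ, volume ((fun t : ℝ => (t, y)) ⁻¹' (e.symm ⁻¹' S)) = 0 := by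
      have h3 : ∀ᵐ y : Fin d → ℝ, MvPolynomial.eval y (Q.coeff k) ≠ 0 := by
        rw [ae_iff]
        simpa using h1
      filter_upwards [h3] with y hy
      have h4 : (fun t : ℝ => (t, y)) ⁻¹' (e.symm ⁻¹' S) ⊆
          {t | (Q.map (MvPolynomial.eval y)).IsRoot t} := by
        intro t ht
        have h5 : MvPolynomial.eval (Fin.cons t y : Fin (d + 1) → ℝ) P = 0 := by
          have h6 : e.symm (t, y) = (Fin.cons t y : Fin (d + 1) → ℝ) := by
            rw [he]
            simp [MeasurableEquiv.piFinSuccAbove, Fin.insertNthEquiv]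
          have h7 : e.symm (t, y) ∈ S := ht
          rw [h6] at h7
          exact h7
        rw [MvPolynomial.eval_eq_eval_mv_eval'] at h5
        exact h5
      have h8 : Q.map (MvPolynomial.eval y) ≠ 0 := by
        intro h
        apply hy
        have := congrArg (fun q => Polynomial.coeff q k) h
        simpa [Polynomial.coeff_map] using this
      exact measure_mono_null h4 ((Polynomial.finite_setOfPred_isRoot h8).measure_zero _)
    rw [lintegral_congr_ae h2]
    simp

end Pool.HB89
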