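import Pool.Agent.LibHB89.B5

namespace Pool.HB89

open MeasureTheory Finset

/-- the small cube at a lattice point -/
def B6_cube {d : ℕ} (X : ℕ) (a : Fin d → ℕ) : Set (Fin d → ℝ) :=
  Set.pi Set.univ fun i => Set.Ico ((a i : ℝ) / X) (((a i : ℝ) + 1) / X)

theorem B6_volume {d : ℕ} {X : ℕ} (hX : 0 < X) (a : Fin d → ℕ) :
    volume (B6_cube X a) = ENNReal.ofReal (((1 : ℝ) / X) ^ d) := by
  unfold B6_cube
  rw [Real.volume_pi_Ico]
  have : ∀ i, ENNReal.ofReal (((a i : ℝ) + 1) / X - (a i : ℝ) / X) = ENNReal.ofReal (1 / X) := by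
    intro i; congr 1; ring
  rw [Finset.prod_congr rfl fun i _ => this i, Finset.prod_const, Finset.card_univ, Fintype.card_fin,
    ENNReal.ofReal_pow (by positivity)]

theorem B6_disjoint {d : ℕ} {X : ℕ} (hX : 0 < X) {a b : Fin d → ℕ} (hab : a ≠ b) :
    Disjoint (B6_cube X a) (B6_cube X b) := by
  rw [Set.disjoint_left]
  intro x hxa hxb
  apply hab
  funext i
  have hX' : (0 : ℝ) < X := by exact_mod_cast hX
  have h1 := hxa i (Set.mem_univ i)
  have h2 := hxb i (Set.mem_univ i)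
  have h3 : (a i : ℝ) < b i + 1 := by
    have := h1.1.trans_lt h2.2
    rwa [div_lt_div_iff_of_pos_right hX'] at this
  have h4 : (b i : ℝ) < a i + 1 := by
    have := h2.1.trans_lt h1.2
    rwa [div_lt_div_iff_of_pos_right hX'] at this
  have h5 : a i < b i + 1 := by exact_mod_cast h3
  have h6 : b i < a i + 1 := by exact_mod_cast h4
  omega

theorem B6_small (d : ℕ) (P : MvPolynomial (Fin d) ℝ) (hP : P ≠ 0) (ε : ℝ) (hε : 0 < ε) :
    ∃ η : ℝ, 0 < η ∧ volume {x : Fin d → ℝ | x ∈ Set.Icc (0 : Fin d → ℝ) 1 ∧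
      |MvPolynomial.eval x P| ≤ 2 * η} ≤ ENNReal.ofReal ε := by
  have hc : Continuous fun x : Fin d → ℝ => MvPolynomial.eval x P := MvPolynomial.continuous_eval P
  let S : ℕ → Set (Fin d → ℝ) := fun n => {x | x ∈ Set.Icc (0 : Fin d → ℝ) 1 ∧
      |MvPolynomial.eval x P| ≤ 2 * (1 / ((n : ℝ) + 1))}
  have hScl : ∀ n, IsClosed (S n) := fun n =>
    isClosed_Icc.inter (isClosed_le hc.abs continuous_const)
  have hanti : Antitone S := by
    intro m n hmn x hx
    refine ⟨hx.1, hx.2.trans ?_⟩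
    have : 1 / ((n : ℝ) + 1) ≤ 1 / ((m : ℝ) + 1) := by
      apply one_div_le_one_div_of_le (by positivity)
      have : (m : ℝ) ≤ n := by exact_mod_cast hmn
      linarith
    linarith
  have hfin : volume (S 0) ≠ ⊤ := by
    apply ne_top_of_le_ne_top _ (measure_mono (show S 0 ⊆ Set.Icc (0 : Fin d → ℝ) 1 from fun x hx => hx.1))
    exact (isCompact_Icc.measure_lt_top).ne
  have h := tendsto_measure_iInter_atTop (μ := volume) (fun n => (hScl n).measurableSet.nullMeasurableSet) hanti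
    ⟨0, hfin⟩
  have h0 : volume (⋂ n, S n) = 0 := by
    apply measure_mono_null _ (volume_zeros d P hP)
    intro x hx
    rw [Set.mem_iInter] at hx
    show MvPolynomial.eval x P = 0
    by_contra hne
    have hpos : 0 < |MvPolynomial.eval x P| := abs_pos.2 hne
    obtain ⟨n, hn⟩ := exists_nat_one_div_lt (half_pos hpos)
    have := (hx n).2
    linarith
  rw [h0] at h
  have hε' : (0 : ENNReal) < ENNReal.ofReal ε := ENNReal.ofReal_pos.2 hε
  obtain ⟨n, hn⟩ := (h.eventually_lt_const hε').exists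
  exact ⟨1 / ((n : ℝ) + 1), by positivity, le_of_lt hn⟩

/-- Few lattice points of a large cube are close to the zero set of a polynomial. -/
theorem count_small (d : ℕ) (P : MvPolynomial (Fin d) ℝ) (hP : P ≠ 0) (ε : ℝ) (hε : 0 < ε) :
    ∃ η : ℝ, 0 < η ∧ ∃ X₀ : ℕ, ∀ X : ℕ, X₀ ≤ X →
      (((Fintype.piFinset (fun _ : Fin d => range X)).filter
        (fun a => |MvPolynomial.eval (fun i => (a i : ℝ) / X) P| < η)).card : ℝ) ≤ ε * X ^ d := by
  classical
  obtain ⟨η, hη, hvol⟩ := B6_small d P hP ε hε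
  have hc : Continuous fun x : Fin d → ℝ => MvPolynomial.eval x P := MvPolynomial.continuous_eval P
  obtain ⟨δ, hδ, hunif⟩ : ∃ δ : ℝ, 0 < δ ∧ ∀ x ∈ Set.Icc (0 : Fin d → ℝ) 1, ∀ y ∈ Set.Icc (0 : Fin d → ℝ) 1,
      dist x y < δ → |MvPolynomial.eval x P - MvPolynomial.eval y P| < η := by
    have h := (isCompact_Icc (a := (0 : Fin d → ℝ)) (b := 1)).uniformContinuousOn_of_continuous hc.continuousOn
    rw [Metric.uniformContinuousOn_iff] at h
    obtain ⟨ρ, hρ, h⟩ := h η hη
    exact ⟨ρ, hρ, fun x hx y hy hxy => by have := h x hx y hy hxy; rwa [Real.dist_eq] at this⟩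
  obtain ⟨N, hN⟩ := exists_nat_one_div_lt hδ
  refine ⟨η, hη, N + 1, fun X hX => ?_⟩
  have hX0 : 0 < X := by omega
  have hXr : (0 : ℝ) < X := by exact_mod_cast hX0
  have hXδ : 1 / (X : ℝ) < δ := by
    refine lt_of_le_of_lt ?_ hN
    apply one_div_le_one_div_of_le (by positivity)
    exact_mod_cast hX
  obtain ⟨T, hT⟩ : ∃ T : Finset (Fin d → ℕ), T = (Fintype.piFinset (fun _ : Fin d => range X)).filter
        (fun a => |MvPolynomial.eval (fun i => (a i : ℝ) / X) P| < η) := ⟨_, rfl⟩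
  rw [← hT]
  have hsub : (⋃ a ∈ T, B6_cube X a) ⊆ {x : Fin d → ℝ | x ∈ Set.Icc (0 : Fin d → ℝ) 1 ∧
      |MvPolynomial.eval x P| ≤ 2 * η} := by
    intro x hx
    rw [Set.mem_iUnion₂] at hx
    obtain ⟨a, ha, hxa⟩ := hx
    rw [hT, Finset.mem_filter, Fintype.mem_piFinset] at ha
    obtain ⟨ha1, ha2⟩ := ha
    have hai : ∀ i, (a i : ℝ) + 1 ≤ X := by
      intro i
      have := Finset.mem_range.1 (ha1 i)
      exact_mod_cast this
    have hxi : ∀ i, (a i : ℝ) / X ≤ x i ∧ x i < ((a i : ℝ) + 1) / X := fun i => hxa i (Set.mem_univ i)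
    have hx01 : x ∈ Set.Icc (0 : Fin d → ℝ) 1 := by
      constructor
      · intro i
        exact (show (0 : ℝ) ≤ (a i : ℝ) / X by positivity).trans (hxi i).1
      · intro i
        refine ((hxi i).2.le.trans ?_)
        rw [Pi.one_apply, div_le_one hXr]
        exact hai i
    have ha01 : (fun i => (a i : ℝ) / X) ∈ Set.Icc (0 : Fin d → ℝ) 1 := by
      constructor
      · intro i
        show (0 : ℝ) ≤ (a i : ℝ) / X
        positivity
      · intro i
        show (a i : ℝ) / X ≤ 1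
        rw [div_le_one hXr]
        linarith [hai i]
    have hdist : dist x (fun i => (a i : ℝ) / X) < δ := by
      refine lt_of_le_of_lt ?_ hXδ
      rw [dist_pi_le_iff (by positivity)]
      intro i
      rw [Real.dist_eq, abs_of_nonneg (by linarith [(hxi i).1])]
      have := (hxi i).2
      rw [add_div] at this
      linarith
    have h1 := hunif x hx01 _ ha01 hdist
    refine ⟨hx01, ?_⟩
    have h2 := abs_sub_abs_le_abs_sub (MvPolynomial.eval x P) (MvPolynomial.eval (fun i => (a i : ℝ) / X) P)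
    linarith
  have hle := (measure_mono hsub).trans hvol
  rw [measure_biUnion_finset] at hle
  · rw [Finset.sum_congr rfl fun a _ => B6_volume hX0 a, Finset.sum_const, nsmul_eq_mul,
      ← ENNReal.ofReal_natCast, ← ENNReal.ofReal_mul (by positivity)] at hle
    rw [ENNReal.ofReal_le_ofReal_iff hε.le] at hle
    rw [div_pow, one_pow, mul_one_div, div_le_iff₀ (by positivity)] at hle
    exact hle
  · intro a _ b _ hab
    exact B6_disjoint hX0 hab
  · intro a _
    exact MeasurableSet.univ_pi fun i => measurableSet_Ico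

end Pool.HB89
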