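import Mathlib

namespace Pool.HB89

open Finset

theorem B6b_fix (d : ℕ) (i : Fin d) (η : ℝ) (hη : 0 ≤ η) (X : ℕ) :
    (((Fintype.piFinset (fun _ : Fin d => range X)).filter
        (fun a => (a i : ℝ) < η * X)).card : ℝ) ≤ (η * X + 1) * X ^ (d - 1) := by
  classical
  have h1 : ((Fintype.piFinset (fun _ : Fin d => range X)).filter
        (fun a => (a i : ℝ) < η * X)) ⊆ Fintype.piFinset
        (Function.update (fun _ : Fin d => range X) i (range ⌈η * X⌉₊)) := by
    intro a ha
    rw [Finset.mem_filter, Fintype.mem_piFinset] at ha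
    rw [Fintype.mem_piFinset]
    intro j
    by_cases hj : j = i
    · subst hj
      rw [Function.update_self, Finset.mem_range]
      exact Nat.lt_ceil.2 ha.2
    · rw [Function.update_of_ne hj]
      exact ha.1 j
  have h2 := Finset.card_le_card h1
  rw [Fintype.card_piFinset] at h2
  have h3 : ∏ j, (Function.update (fun _ : Fin d => range X) i (range ⌈η * X⌉₊) j).card =
      ⌈η * X⌉₊ * X ^ (d - 1) := by
    have h4 : ∀ j, (Function.update (fun _ : Fin d => range X) i (range ⌈η * X⌉₊) j).card =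
        Function.update (fun _ : Fin d => X) i ⌈η * X⌉₊ j := by
      intro j
      by_cases hj : j = i
      · subst hj; simp
      · simp [Function.update_of_ne hj]
    rw [Finset.prod_congr rfl fun j _ => h4 j, Finset.prod_update_of_mem (Finset.mem_univ i),
      Finset.prod_const, Finset.card_sdiff]
    simp
  rw [h3] at h2
  have h5 : (((Fintype.piFinset (fun _ : Fin d => range X)).filter
        (fun a => (a i : ℝ) < η * X)).card : ℝ) ≤ (⌈η * X⌉₊ : ℝ) * X ^ (d - 1) := by
    exact_mod_cast h2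
  refine h5.trans (mul_le_mul_of_nonneg_right ?_ (by positivity))
  exact (Nat.ceil_lt_add_one (by positivity)).le

/-- Few lattice points of a large cube have a small coordinate. -/
theorem count_coord (d : ℕ) (ε : ℝ) (hε : 0 < ε) :
    ∃ η : ℝ, 0 < η ∧ ∃ X₀ : ℕ, ∀ X : ℕ, X₀ ≤ X →
      (((Fintype.piFinset (fun _ : Fin d => range X)).filter
        (fun a => ∃ i, (a i : ℝ) < η * X)).card : ℝ) ≤ ε * X ^ d := by
  classical
  rcases Nat.eq_zero_or_pos d with rfl | hd
  · refine ⟨1, one_pos, 0, fun X _ => ?_⟩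
    simp
    exact hε.le
  · have hd' : (0 : ℝ) < d := by exact_mod_cast hd
    refine ⟨ε / (2 * d), by positivity, ⌈2 * d / ε⌉₊, fun X hX => ?_⟩
    have hX' : 2 * d / ε ≤ X := Nat.ceil_le.1 hX
    have hX'' : 2 * d ≤ ε * X := by
      rw [div_le_iff₀ hε] at hX'
      linarith
    have h1 : ((Fintype.piFinset (fun _ : Fin d => range X)).filter
        (fun a => ∃ i, (a i : ℝ) < ε / (2 * d) * X)) ⊆ (Finset.univ : Finset (Fin d)).biUnion
        (fun i => (Fintype.piFinset (fun _ : Fin d => range X)).filter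
          (fun a => (a i : ℝ) < ε / (2 * d) * X)) := by
      intro a ha
      rw [Finset.mem_filter] at ha
      obtain ⟨h2, i, hi⟩ := ha
      rw [Finset.mem_biUnion]
      exact ⟨i, Finset.mem_univ _, Finset.mem_filter.2 ⟨h2, hi⟩⟩
    have h2 := (Finset.card_le_card h1).trans Finset.card_biUnion_le
    have h3 : (((Fintype.piFinset (fun _ : Fin d => range X)).filter
        (fun a => ∃ i, (a i : ℝ) < ε / (2 * d) * X)).card : ℝ) ≤
        ∑ i : Fin d, (((Fintype.piFinset (fun _ : Fin d => range X)).filter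
          (fun a => (a i : ℝ) < ε / (2 * d) * X)).card : ℝ) := by exact_mod_cast h2
    refine h3.trans ((Finset.sum_le_sum fun i _ =>
      B6b_fix d i (ε / (2 * d)) (by positivity) X).trans ?_)
    rw [Finset.sum_const, Finset.card_univ, Fintype.card_fin, nsmul_eq_mul]
    obtain ⟨e, rfl⟩ := Nat.exists_eq_succ_of_ne_zero hd.ne'
    simp only [Nat.succ_eq_add_one, Nat.add_sub_cancel, pow_succ]
    have h4 : ((e + 1 : ℕ) : ℝ) * (ε / (2 * ((e + 1 : ℕ) : ℝ)) * X + 1) ≤ ε * X := by
      have : ((e + 1 : ℕ) : ℝ) * (ε / (2 * ((e + 1 : ℕ) : ℝ)) * X + 1) =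
          ε * X / 2 + ((e + 1 : ℕ) : ℝ) := by
        field_simp
      rw [this]
      have h5 : 2 * ((e + 1 : ℕ) : ℝ) ≤ ε * X := hX''
      linarith
    calc ((e + 1 : ℕ) : ℝ) * ((ε / (2 * ((e + 1 : ℕ) : ℝ)) * X + 1) * (X : ℝ) ^ e)
        = (((e + 1 : ℕ) : ℝ) * (ε / (2 * ((e + 1 : ℕ) : ℝ)) * X + 1)) * (X : ℝ) ^ e := by ring
      _ ≤ (ε * X) * (X : ℝ) ^ e := mul_le_mul_of_nonneg_right h4 (by positivity)
      _ = ε * ((X : ℝ) ^ e * X) := by ring

end Pool.HB89
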