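import Pool.Agent.LibHB89.B4
import Pool.Agent.LibHB89.B6
import Pool.Agent.LibHB89.B6b

namespace Pool.HB89

open MeasureTheory Finset

theorem B7_hom {d n : ℕ} {P : MvPolynomial (Fin d) ℝ} (h : P.IsHomogeneous n) (c : ℝ)
    (x : Fin d → ℝ) :
    MvPolynomial.eval (fun i => c * x i) P = c ^ n * MvPolynomial.eval x P := by
  rw [MvPolynomial.eval_eq', MvPolynomial.eval_eq', Finset.mul_sum]
  refine Finset.sum_congr rfl fun m hm => ?_
  have h1 : ∑ i, m i = n := by
    have h2 := h (MvPolynomial.mem_support_iff.1 hm)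
    rw [Finsupp.weight_apply, Finsupp.sum_fintype _ _ (by simp)] at h2
    simpa using h2
  have h3 : ∏ i, (c * x i) ^ m i = c ^ n * ∏ i, x i ^ m i := by
    simp only [mul_pow]
    rw [Finset.prod_mul_distrib, Finset.prod_pow_eq_pow_sum, h1]
  rw [h3]
  ring

/-- The set of `a` at which `∫ s^(2a) P(s) dν` vanishes has density zero. -/
theorem zero_density {d : ℕ} {Ω : Type} [MeasurableSpace Ω] (ν : Measure Ω) [IsFiniteMeasure ν]
    (s : Ω → Fin d → ℝ) (hs : Measurable s) (h0 : ∀ᵐ ω ∂ν, ∀ i, 0 ≤ s ω i)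
    (h1 : ∀ᵐ ω ∂ν, ∑ i, s ω i = 1)
    (hfull : ∀ p : Fin d → ℝ, (∀ i, 0 < p i) → ∑ i, p i = 1 → ∀ ρ : ℝ, 0 < ρ →
      0 < ν {ω | dist (s ω) p < ρ})
    (hd : 0 < d) (n : ℕ) (P : MvPolynomial (Fin d) ℝ) (hhom : P.IsHomogeneous n) (hP : P ≠ 0)
    (ε : ℝ) (hε : 0 < ε) :
    ∃ X₀ : ℕ, ∀ X : ℕ, X₀ ≤ X →
      (((Fintype.piFinset (fun _ : Fin d => range X)).filter
        (fun a => ∫ ω, (∏ i, s ω i ^ (2 * a i)) * MvPolynomial.eval (s ω) P ∂ν = 0)).card : ℝ)
          ≤ ε * X ^ d := by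
  classical
  obtain ⟨η₁, hη₁, X₁, hX₁⟩ := count_small d P hP (ε / 2) (by positivity)
  obtain ⟨η₂, hη₂, X₂, hX₂⟩ := count_coord d (ε / 2) (by positivity)
  have hd' : (0 : ℝ) < d := by exact_mod_cast hd
  set η : ℝ := min (η₂ / d) (η₁ * (1 / d) ^ n) with hη
  have hη0 : 0 < η := lt_min (by positivity) (by positivity)
  obtain ⟨N, hN⟩ := conc ν s hs h0 h1 hfull (fun x => MvPolynomial.eval x P)
    (MvPolynomial.continuous_eval P) η hη0
  refine ⟨max (max X₁ X₂) (max 1 ⌈N / η₂⌉₊), fun X hX => ?_⟩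
  have hXa : X₁ ≤ X := (le_max_left _ _).trans ((le_max_left _ _).trans hX)
  have hXb : X₂ ≤ X := (le_max_right _ _).trans ((le_max_left _ _).trans hX)
  have hXc : 1 ≤ X := (le_max_left _ _).trans ((le_max_right _ _).trans hX)
  have hXd : ⌈N / η₂⌉₊ ≤ X := (le_max_right _ _).trans ((le_max_right _ _).trans hX)
  have hX0 : (0 : ℝ) < X := by exact_mod_cast hXc
  have hNX : (N : ℝ) ≤ η₂ * X := by
    have := Nat.ceil_le.1 hXd
    rw [div_le_iff₀ hη₂] at this
    linarith
  have b1 := hX₁ X hXa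
  have b2 := hX₂ X hXb
  set S := Fintype.piFinset (fun _ : Fin d => range X) with hS
  have hsub : (S.filter
        (fun a => ∫ ω, (∏ i, s ω i ^ (2 * a i)) * MvPolynomial.eval (s ω) P ∂ν = 0)) ⊆
      (S.filter (fun a => |MvPolynomial.eval (fun i => (a i : ℝ) / X) P| < η₁)) ∪
        (S.filter (fun a => ∃ i, (a i : ℝ) < η₂ * X)) := by
    intro a ha
    rw [Finset.mem_filter] at ha
    obtain ⟨haS, ha0⟩ := ha
    rw [Finset.mem_union, Finset.mem_filter, Finset.mem_filter]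
    by_contra hcon
    push Not at hcon
    have c1 : η₁ ≤ |MvPolynomial.eval (fun i => (a i : ℝ) / X) P| := hcon.1 haS
    have c2 : ∀ i, η₂ * X ≤ (a i : ℝ) := hcon.2 haS
    set A : ℕ := ∑ j, a j with hA
    have i0 : Fin d := ⟨0, hd⟩
    have hAi : ∀ i, (a i : ℝ) ≤ A := by
      intro i
      have : a i ≤ A := Finset.single_le_sum (f := a) (fun _ _ => Nat.zero_le _) (Finset.mem_univ i)
      exact_mod_cast this
    have hAlow : η₂ * X ≤ A := (c2 i0).trans (hAi i0)
    have hA0 : (0 : ℝ) < A := lt_of_lt_of_le (by positivity) hAlow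
    have hAup : (A : ℝ) ≤ d * X := by
      have h3 : A ≤ ∑ _j : Fin d, X := Finset.sum_le_sum fun j _ =>
        (Finset.mem_range.1 (Fintype.mem_piFinset.1 haS j)).le
      rw [Finset.sum_const, Finset.card_univ, Fintype.card_fin, smul_eq_mul] at h3
      exact_mod_cast h3
    have hNA : N ≤ A := by
      have : (N : ℝ) ≤ A := hNX.trans hAlow
      exact_mod_cast this
    refine hN a hNA (fun i => ?_) ?_ ha0
    · have h4 : η ≤ η₂ / d := min_le_left _ _
      calc η * (A : ℝ) ≤ (η₂ / d) * (d * X) :=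
            mul_le_mul h4 hAup hA0.le (by positivity)
        _ = η₂ * X := by field_simp
        _ ≤ a i := c2 i
    · have h5 : MvPolynomial.eval (fun i => (a i : ℝ) / A) P =
          ((X : ℝ) / A) ^ n * MvPolynomial.eval (fun i => (a i : ℝ) / X) P := by
        rw [← B7_hom hhom]
        congr 1
        congr 1
        funext i
        field_simp
      rw [h5, abs_mul, abs_of_nonneg (by positivity)]
      have h6 : η ≤ η₁ * (1 / d) ^ n := min_le_right _ _
      have h7 : (1 / (d : ℝ)) ≤ X / A := by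
        rw [div_le_div_iff₀ hd' hA0]
        linarith
      calc η ≤ η₁ * (1 / d) ^ n := h6
        _ = (1 / (d : ℝ)) ^ n * η₁ := by ring
        _ ≤ (X / A) ^ n * |MvPolynomial.eval (fun i => (a i : ℝ) / X) P| :=
            mul_le_mul (pow_le_pow_left₀ (by positivity) h7 n) c1 hη₁.le (by positivity)
  have hc := (Finset.card_le_card hsub).trans (Finset.card_union_le _ _)
  have hc' : ((S.filter
        (fun a => ∫ ω, (∏ i, s ω i ^ (2 * a i)) * MvPolynomial.eval (s ω) P ∂ν = 0)).card : ℝ) ≤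
      ((S.filter (fun a => |MvPolynomial.eval (fun i => (a i : ℝ) / X) P| < η₁)).card : ℝ) +
        ((S.filter (fun a => ∃ i, (a i : ℝ) < η₂ * X)).card : ℝ) := by exact_mod_cast hc
  linarith

end Pool.HB89
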