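import Pool.Agent.LibHB89.B2
import Pool.Agent.LibHB89.B3
import Pool.Agent.LibHB89.B7

namespace Pool.HB89

open MeasureTheory Finset

section B8

variable {d : ℕ} {Ω : Type} [MeasurableSpace Ω] (ν : Measure Ω) [IsFiniteMeasure ν]
  (s : Ω → Fin d → ℝ) (hs : Measurable s) (h0 : ∀ᵐ ω ∂ν, ∀ i, 0 ≤ s ω i)
  (h1 : ∀ᵐ ω ∂ν, ∑ i, s ω i = 1)

include hs h0 h1

theorem B8_int (a : Fin d → ℕ) : Integrable (fun ω => ∏ i, s ω i ^ (2 * a i)) ν := by
  refine Integrable.of_bound (C := 1) ?_ ?_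
  · refine Measurable.aestronglyMeasurable ?_
    refine Finset.measurable_prod _ (fun i _ => ?_)
    exact ((measurable_pi_apply i).comp hs).pow_const _
  · filter_upwards [h0, h1] with ω ha hb
    have hle : ∀ i, s ω i ≤ 1 := by
      intro i
      rw [← hb]
      exact Finset.single_le_sum (f := fun i => s ω i) (fun j _ => ha j) (Finset.mem_univ i)
    rw [Real.norm_eq_abs, abs_of_nonneg (Finset.prod_nonneg fun i _ => pow_nonneg (ha i) _)]
    exact Finset.prod_le_one (fun i _ => pow_nonneg (ha i) _)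
      (fun i _ => pow_le_one₀ (ha i) (hle i))

/-- the integrated relation. -/
theorem B8_rel (F : Finset (Fin d → ℕ)) (c : (Fin d → ℕ) → ℚ)
    (hc : ∀ s : Fin d → ℝ, ∑ j, s j = 1 → ∑ i ∈ F, (c i : ℝ) * ∏ j, (s j) ^ (2 * i j) = 0)
    (a : Fin d → ℕ) :
    ∑ i ∈ F, (c i : ℝ) * ∫ ω, ∏ j, s ω j ^ (2 * (a + i) j) ∂ν = 0 := by
  have h2 : ∑ i ∈ F, (c i : ℝ) * ∫ ω, ∏ j, s ω j ^ (2 * (a + i) j) ∂ν =
      ∫ ω, ∑ i ∈ F, (c i : ℝ) * ∏ j, s ω j ^ (2 * (a + i) j) ∂ν := by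
    rw [integral_finsetSum]
    · refine Finset.sum_congr rfl (fun i _ => ?_)
      rw [integral_const_mul]
    · intro i _
      exact (B8_int ν s hs h0 h1 (a + i)).const_mul _
  rw [h2]
  rw [integral_congr_ae (g := fun _ => (0 : ℝ))]
  · simp
  · filter_upwards [h1] with ω hω
    have h3 : ∀ i ∈ F, (c i : ℝ) * ∏ j, s ω j ^ (2 * (a + i) j) =
        (∏ j, s ω j ^ (2 * a j)) * ((c i : ℝ) * ∏ j, s ω j ^ (2 * i j)) := by
      intro i _
      have : ∏ j, s ω j ^ (2 * (a + i) j) =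
          (∏ j, s ω j ^ (2 * a j)) * ∏ j, s ω j ^ (2 * i j) := by
        rw [← Finset.prod_mul_distrib]
        refine Finset.prod_congr rfl (fun j _ => ?_)
        rw [← pow_add, Pi.add_apply, mul_add]
      rw [this]; ring
    rw [Finset.sum_congr rfl h3, ← Finset.mul_sum, hc _ hω, mul_zero]

omit [IsFiniteMeasure ν] hs h0 h1 in
/-- the polynomial of one level. -/
noncomputable def B8_poly (F : Finset (Fin d → ℕ)) (c : (Fin d → ℕ) → ℚ) (t : ℕ) :
    MvPolynomial (Fin d) ℝ :=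
  ∑ i ∈ F.filter (fun i => ∑ j, i j = t),
    MvPolynomial.monomial (Finsupp.equivFunOnFinite.symm (fun j => 2 * i j)) (c i : ℝ)

omit hs h0 h1 in
theorem B8_poly_hom (F : Finset (Fin d → ℕ)) (c : (Fin d → ℕ) → ℚ) (t : ℕ) :
    (B8_poly F c t).IsHomogeneous (2 * t) := by
  refine MvPolynomial.IsHomogeneous.sum _ _ _ (fun i hi => ?_)
  refine MvPolynomial.isHomogeneous_monomial _ ?_
  rw [Finset.mem_filter] at hi
  rw [Finsupp.degree_eq_sum]
  simp only [Finsupp.equivFunOnFinite_symm_apply_apply]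
  rw [← Finset.mul_sum, hi.2]

omit hs h0 h1 in
theorem B8_poly_ne (F : Finset (Fin d → ℕ)) (c : (Fin d → ℕ) → ℚ) (t : ℕ)
    (i₀ : Fin d → ℕ) (hi₀ : i₀ ∈ F) (ht : ∑ j, i₀ j = t) (hne : c i₀ ≠ 0) :
    B8_poly F c t ≠ 0 := by
  intro h
  have h2 := congrArg (MvPolynomial.coeff
    (Finsupp.equivFunOnFinite.symm (fun j => 2 * i₀ j))) h
  rw [B8_poly, MvPolynomial.coeff_sum, MvPolynomial.coeff_zero] at h2
  rw [Finset.sum_eq_single i₀] at h2
  · rw [MvPolynomial.coeff_monomial, if_pos rfl] at h2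
    exact hne (by exact_mod_cast h2)
  · intro i _ hi
    rw [MvPolynomial.coeff_monomial, if_neg]
    intro h3
    apply hi
    funext j
    have := DFunLike.congr_fun h3 j
    simp only [Finsupp.equivFunOnFinite_symm_apply_apply] at this
    omega
  · intro h3
    exact absurd (Finset.mem_filter.mpr ⟨hi₀, ht⟩) h3

omit hs h0 h1 in
theorem B8_poly_eval (F : Finset (Fin d → ℕ)) (c : (Fin d → ℕ) → ℚ) (t : ℕ) (x : Fin d → ℝ) :
    MvPolynomial.eval x (B8_poly F c t) =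
      ∑ i ∈ F.filter (fun i => ∑ j, i j = t), (c i : ℝ) * ∏ j, x j ^ (2 * i j) := by
  rw [B8_poly, map_sum]
  refine Finset.sum_congr rfl (fun i _ => ?_)
  rw [MvPolynomial.eval_monomial]
  congr 1
  rw [Finsupp.prod_fintype]
  · simp
  · intro i; simp

/-- the level part of the relation as an integral. -/
theorem B8_level (F : Finset (Fin d → ℕ)) (c : (Fin d → ℕ) → ℚ) (t : ℕ) (a : Fin d → ℕ) :
    ∑ i ∈ F.filter (fun i => ∑ j, i j = t), (c i : ℝ) * ∫ ω, ∏ j, s ω j ^ (2 * (a + i) j) ∂ν =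
      ∫ ω, (∏ j, s ω j ^ (2 * a j)) * MvPolynomial.eval (s ω) (B8_poly F c t) ∂ν := by
  have h2 : ∑ i ∈ F.filter (fun i => ∑ j, i j = t),
      (c i : ℝ) * ∫ ω, ∏ j, s ω j ^ (2 * (a + i) j) ∂ν =
      ∫ ω, ∑ i ∈ F.filter (fun i => ∑ j, i j = t),
        (c i : ℝ) * ∏ j, s ω j ^ (2 * (a + i) j) ∂ν := by
    rw [integral_finsetSum]
    · refine Finset.sum_congr rfl (fun i _ => ?_)
      rw [integral_const_mul]
    · intro i _
      exact (B8_int ν s hs h0 h1 (a + i)).const_mul _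
  rw [h2]
  congr 1
  funext ω
  rw [B8_poly_eval, Finset.mul_sum]
  refine Finset.sum_congr rfl (fun i _ => ?_)
  have : ∏ j, s ω j ^ (2 * (a + i) j) =
      (∏ j, s ω j ^ (2 * a j)) * ∏ j, s ω j ^ (2 * i j) := by
    rw [← Finset.prod_mul_distrib]
    refine Finset.prod_congr rfl (fun j _ => ?_)
    rw [← pow_add, Pi.add_apply, mul_add]
  rw [this]; ring

end B8

open Classical in
/-- The rich windows are zeros. -/
theorem B8_window {d : ℕ} {Ω : Type} [MeasurableSpace Ω] (ν : Measure Ω)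
    [IsFiniteMeasure ν]
    (s : Ω → Fin d → ℝ) (hs : Measurable s) (h0 : ∀ᵐ ω ∂ν, ∀ i, 0 ≤ s ω i)
    (h1 : ∀ᵐ ω ∂ν, ∑ i, s ω i = 1)
    (K : Type) [Field K] [Algebra K ℂ] (p : ℂ) (hp0 : p ≠ 0) (V : Submodule K ℂ)
    {C : ℕ} (χ : ℕ → Fin C)
    (hχ : ∀ (S : Finset ℕ) (z : ℕ → ℂ),
      (∀ i ∈ S, ∀ j ∈ S, χ i = χ j) → (∀ j ∈ S, z j ∈ V) →
        ∑ j ∈ S, ((p ^ 2)⁻¹) ^ j * z j = 0 → ∀ j ∈ S, z j = 0)
    (F : Finset (Fin d → ℕ)) (c : (Fin d → ℕ) → ℚ)
    (hc : ∀ s : Fin d → ℝ, ∑ j, s j = 1 → ∑ i ∈ F, (c i : ℝ) * ∏ j, (s j) ^ (2 * i j) = 0)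
    (a : Fin d → ℕ)
    (hF : ∀ i ∈ F, p ^ (2 * ∑ j, (a + i) j) *
      ((∫ ω, ∏ j, s ω j ^ (2 * (a + i) j) ∂ν : ℝ) : ℂ) ∈ V)
    (hcol : ∀ i ∈ F, ∀ i' ∈ F, χ (∑ j, (a + i) j) = χ (∑ j, (a + i') j)) (t : ℕ) :
    ∫ ω, (∏ j, s ω j ^ (2 * a j)) * MvPolynomial.eval (s ω) (B8_poly F c t) ∂ν = 0 := by
  set μ : (Fin d → ℕ) → ℝ := fun b => ∫ ω, ∏ j, s ω j ^ (2 * b j) ∂ν with hμ
  set lev : (Fin d → ℕ) → ℕ := fun i => ∑ j, (a + i) j with hlev
  have hlev' : ∀ i, lev i = ∑ j, a j + ∑ j, i j := by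
    intro i
    simp only [hlev, Pi.add_apply, Finset.sum_add_distrib]
  set S : Finset ℕ := F.image lev with hS
  set z : ℕ → ℂ := fun k => ∑ i ∈ F.filter (fun i => lev i = k),
    ((c i : ℚ) : ℂ) * (p ^ (2 * lev i) * ((μ (a + i) : ℝ) : ℂ)) with hz
  have hzV : ∀ j ∈ S, z j ∈ V := by
    intro j _
    refine Submodule.sum_mem _ (fun i hi => ?_)
    rw [Finset.mem_filter] at hi
    have h3 := hF i hi.1
    have h4 : ((c i : ℚ) : ℂ) = algebraMap K ℂ ((c i : ℚ) : K) := by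
      rw [map_ratCast]
    rw [h4, ← Algebra.smul_def]
    exact V.smul_mem _ h3
  have hcolS : ∀ i ∈ S, ∀ j ∈ S, χ i = χ j := by
    intro i hi j hj
    rw [hS, Finset.mem_image] at hi hj
    obtain ⟨i', hi', rfl⟩ := hi
    obtain ⟨j', hj', rfl⟩ := hj
    exact hcol i' hi' j' hj'
  have hpow : ∀ k : ℕ, ((p ^ 2)⁻¹) ^ k * p ^ (2 * k) = 1 := by
    intro k
    rw [inv_pow, ← pow_mul]
    exact inv_mul_cancel₀ (pow_ne_zero _ hp0)
  have hzk : ∀ k, ((p ^ 2)⁻¹) ^ k * z k =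
      ∑ i ∈ F.filter (fun i => lev i = k), ((c i : ℚ) : ℂ) * ((μ (a + i) : ℝ) : ℂ) := by
    intro k
    rw [hz]
    simp only
    rw [Finset.mul_sum]
    refine Finset.sum_congr rfl (fun i hi => ?_)
    rw [Finset.mem_filter] at hi
    rw [hi.2]
    calc ((p ^ 2)⁻¹) ^ k * (((c i : ℚ) : ℂ) * (p ^ (2 * k) * ((μ (a + i) : ℝ) : ℂ)))
        = (((p ^ 2)⁻¹) ^ k * p ^ (2 * k)) * (((c i : ℚ) : ℂ) * ((μ (a + i) : ℝ) : ℂ)) := by ring
      _ = _ := by rw [hpow, one_mul]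
  have hsum : ∑ k ∈ S, ((p ^ 2)⁻¹) ^ k * z k = 0 := by
    rw [Finset.sum_congr rfl (fun k _ => hzk k)]
    rw [Finset.sum_fiberwise_of_maps_to (fun i hi => Finset.mem_image_of_mem lev hi)]
    have h5 := B8_rel ν s hs h0 h1 F c hc a
    have h6 : ((∑ i ∈ F, (c i : ℝ) * μ (a + i) : ℝ) : ℂ) = 0 := by
      rw [h5]; simp
    rw [← h6]
    push_cast
    rfl
  have hall := hχ S z hcolS hzV hsum
  rw [← B8_level ν s hs h0 h1 F c t a]
  have hfil : F.filter (fun i => ∑ j, i j = t) =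
      F.filter (fun i => lev i = ∑ j, a j + t) := by
    refine Finset.filter_congr (fun i _ => ?_)
    rw [hlev']
    omega
  by_cases hmem : (∑ j, a j + t) ∈ S
  · have h7 := hall _ hmem
    have h8 := hzk (∑ j, a j + t)
    rw [h7, mul_zero] at h8
    rw [hfil]
    have h9 : ((∑ i ∈ F.filter (fun i => lev i = ∑ j, a j + t), (c i : ℝ) * μ (a + i) : ℝ) : ℂ)
        = 0 := by
      rw [h8]
      push_cast
      rfl
    exact_mod_cast h9
  · have h10 : F.filter (fun i => lev i = ∑ j, a j + t) = ∅ := by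
      rw [Finset.filter_eq_empty_iff]
      intro i hi h11
      exact hmem (h11 ▸ Finset.mem_image_of_mem lev hi)
    rw [hfil, h10, Finset.sum_empty]


theorem B8_choose_m (l C : ℕ) (δ : ℝ) (hδ : 0 < δ) :
    ∃ m : ℕ, 1 ≤ m ∧ (C : ℝ) * ((4 * m : ℕ) : ℝ) ^ l ≤ δ / 2 * (m : ℝ) ^ (l + 1) := by
  obtain ⟨m, hm⟩ := exists_nat_ge (2 * (C : ℝ) * 4 ^ l / δ + 1)
  refine ⟨m, ?_, ?_⟩
  · have : (1 : ℝ) ≤ m := by
      have h2 : 0 ≤ 2 * (C : ℝ) * 4 ^ l / δ := by positivity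
      linarith
    exact_mod_cast this
  · have h3 : 2 * (C : ℝ) * 4 ^ l / δ ≤ m := by linarith
    rw [div_le_iff₀ hδ] at h3
    have h4 : (C : ℝ) * 4 ^ l ≤ δ / 2 * m := by linarith
    push_cast
    rw [mul_pow, pow_succ]
    calc (C : ℝ) * (4 ^ l * (m : ℝ) ^ l) = (C * 4 ^ l) * (m : ℝ) ^ l := by ring
      _ ≤ (δ / 2 * m) * (m : ℝ) ^ l := by gcongr
      _ = δ / 2 * ((m : ℝ) ^ l * m) := by ring

theorem B8_choose_X (d m : ℕ) :
    ∃ X₁ : ℕ, ∀ X : ℕ, X₁ ≤ X → ((X : ℝ) + m) ^ d ≤ 3 / 2 * (X : ℝ) ^ d := by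
  have h1 : Filter.Tendsto (fun X : ℕ => (1 + (m : ℝ) / (X : ℝ)) ^ d) Filter.atTop
      (nhds ((1 + 0) ^ d)) := by
    refine Filter.Tendsto.pow ?_ d
    refine Filter.Tendsto.const_add 1 ?_
    exact tendsto_const_div_atTop_nhds_zero_nat (m : ℝ)
  rw [add_zero, one_pow] at h1
  have h2 := h1.eventually (gt_mem_nhds (show (1 : ℝ) < 3 / 2 by norm_num))
  obtain ⟨X₁, hX₁⟩ := Filter.eventually_atTop.mp h2
  refine ⟨max X₁ 1, fun X hX => ?_⟩
  have hX1 : 1 ≤ X := le_of_max_le_right hX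
  have h3 := hX₁ X (le_of_max_le_left hX)
  have hXp : (0 : ℝ) < X := by exact_mod_cast hX1
  have h4 : (X : ℝ) + m = (1 + (m : ℝ) / X) * X := by field_simp
  rw [h4, mul_pow]
  gcongr

open Classical in
/-- The abstract density theorem. -/
theorem abstract_density (l : ℕ) {Ω : Type} [MeasurableSpace Ω] (ν : Measure Ω)
    [IsFiniteMeasure ν]
    (s : Ω → Fin (l + 1) → ℝ) (hs : Measurable s) (h0 : ∀ᵐ ω ∂ν, ∀ i, 0 ≤ s ω i)
    (h1 : ∀ᵐ ω ∂ν, ∑ i, s ω i = 1)
    (hfull : ∀ p : Fin (l + 1) → ℝ, (∀ i, 0 < p i) → ∑ i, p i = 1 → ∀ ρ : ℝ, 0 < ρ →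
      0 < ν {ω | dist (s ω) p < ρ})
    (v : ℕ) (δ : ℝ) (hδ : 0 < δ) :
    ∃ X₀ : ℕ, ∀ X : ℕ, X₀ ≤ X → ∀ (K : Type) [Field K] [Algebra K ℂ] (p : ℂ)
      (_ : Transcendental K p) (V : Submodule K ℂ) [FiniteDimensional K V]
      (_ : Module.finrank K V ≤ v),
      (((Fintype.piFinset (fun _ : Fin (l + 1) => range X)).filter
        (fun a => p ^ (2 * ∑ i, a i) * ((∫ ω, ∏ i, s ω i ^ (2 * a i) ∂ν : ℝ) : ℂ) ∈ V)).card : ℝ)
          ≤ δ * X ^ (l + 1) := by
  set C : ℕ := 2 ^ (v ^ 2) with hC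
  obtain ⟨m, hm1, hm2⟩ := B8_choose_m l C δ hδ
  set box : Finset (Fin (l + 1) → ℕ) := Fintype.piFinset (fun _ => range m) with hbox
  set Fam : Finset (Finset (Fin (l + 1) → ℕ)) :=
    box.powerset.filter (fun F => (4 * m) ^ l < F.card) with hFam
  have hrel : ∀ F : Finset (Fin (l + 1) → ℕ), F ∈ Fam → ∃ c : (Fin (l + 1) → ℕ) → ℚ,
      (∃ i ∈ F, c i ≠ 0) ∧ ∀ s : Fin (l + 1) → ℝ, ∑ j, s j = 1 →
        ∑ i ∈ F, (c i : ℝ) * ∏ j, (s j) ^ (2 * i j) = 0 := by
    intro F hF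
    rw [hFam, Finset.mem_filter, Finset.mem_powerset] at hF
    refine exists_relation l m F (fun i hi j => ?_) hF.2
    have := hF.1 hi
    rw [hbox, Fintype.mem_piFinset] at this
    exact Finset.mem_range.mp (this j)
  choose! c hc1 hc2 using hrel
  choose! i₀ hi₀ using hc1
  set t : Finset (Fin (l + 1) → ℕ) → ℕ := fun F => ∑ j, i₀ F j with ht
  set ε' : ℝ := δ / (4 * (m : ℝ) ^ (l + 1) * (Fam.card + 1)) with hε'
  have hmp : (0 : ℝ) < m := by exact_mod_cast hm1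
  have hε'pos : 0 < ε' := by positivity
  have hzd : ∀ F : Finset (Fin (l + 1) → ℕ), F ∈ Fam → ∃ X₀ : ℕ, ∀ X : ℕ, X₀ ≤ X →
      (((Fintype.piFinset (fun _ : Fin (l + 1) => range X)).filter
        (fun a => ∫ ω, (∏ i, s ω i ^ (2 * a i)) *
          MvPolynomial.eval (s ω) (B8_poly F (c F) (t F)) ∂ν = 0)).card : ℝ)
          ≤ ε' * X ^ (l + 1) := by
    intro F hF
    exact zero_density ν s hs h0 h1 hfull (Nat.succ_pos l) (2 * t F) (B8_poly F (c F) (t F))
      (B8_poly_hom F (c F) (t F))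
      (B8_poly_ne F (c F) (t F) (i₀ F) (hi₀ F hF).1 rfl (hi₀ F hF).2) ε' hε'pos
  choose! XF hXF using hzd
  obtain ⟨X₁, hX₁⟩ := B8_choose_X (l + 1) m
  refine ⟨max X₁ (Fam.sup XF), fun X hX K _ _ p hp V _ hV => ?_⟩
  have hX1 := hX₁ X (le_of_max_le_left hX)
  have hXFle : ∀ F ∈ Fam, XF F ≤ X := fun F hF =>
    le_trans (Finset.le_sup hF) (le_of_max_le_right hX)
  have hp0 : p ≠ 0 := by
    rintro rfl
    exact hp (isAlgebraic_zero)
  have hx : Transcendental K ((p ^ 2)⁻¹) := by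
    intro h
    rw [IsAlgebraic.inv_iff] at h
    exact hp (IsAlgebraic.of_pow (by norm_num) h)
  obtain ⟨χ, hχ⟩ := exists_colouring K hx v V hV
  -- the windows
  set S : Finset (Fin (l + 1) → ℕ) := (Fintype.piFinset (fun _ : Fin (l + 1) => range X)).filter
        (fun a => p ^ (2 * ∑ i, a i) * ((∫ ω, ∏ i, s ω i ^ (2 * a i) ∂ν : ℝ) : ℂ) ∈ V) with hS
  set Q : Finset (Fin (l + 1) → ℕ) := Fintype.piFinset (fun _ => range (X / m + 1)) with hQ
  set W : (Fin (l + 1) → ℕ) → Finset (Fin (l + 1) → ℕ) :=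
    fun q => box.filter (fun i => (fun j => m * q j + i j) ∈ S) with hW
  have hmaps : ∀ a ∈ S, (fun j => a j / m) ∈ Q := by
    intro a ha
    rw [hS, Finset.mem_filter, Fintype.mem_piFinset] at ha
    rw [hQ, Fintype.mem_piFinset]
    intro j
    have := Finset.mem_range.mp (ha.1 j)
    rw [Finset.mem_range]
    have : a j / m ≤ X / m := Nat.div_le_div_right this.le
    omega
  have hfib : ∀ q, (S.filter (fun a => (fun j => a j / m) = q)).card ≤ (W q).card := by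
    intro q
    refine Finset.card_le_card_of_injOn (fun a j => a j % m) ?_ ?_
    · intro a ha
      rw [Finset.coe_filter, Set.mem_setOf_eq] at ha
      obtain ⟨ha1, ha2⟩ := ha
      rw [Finset.mem_coe, hW, Finset.mem_filter]
      constructor
      · rw [hbox, Fintype.mem_piFinset]
        intro j
        exact Finset.mem_range.mpr (Nat.mod_lt _ (by omega))
      · have : (fun j => m * q j + a j % m) = a := by
          funext j
          rw [← ha2]
          exact Nat.div_add_mod (a j) m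
        rw [this]
        exact ha1
    · intro a ha b hb hab
      rw [Finset.coe_filter, Set.mem_setOf_eq] at ha hb
      funext j
      have e1 := congrFun ha.2 j
      have e2 := congrFun hb.2 j
      have e3 := congrFun hab j
      simp only at e1 e2 e3
      rw [← Nat.div_add_mod (a j) m, ← Nat.div_add_mod (b j) m, e1, e2, e3]
  have hcardS : S.card ≤ ∑ q ∈ Q, (W q).card := by
    rw [Finset.card_eq_sum_card_fiberwise (f := fun a => (fun j => a j / m)) (t := Q)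
      (fun a ha => hmaps a ha)]
    exact Finset.sum_le_sum (fun q _ => hfib q)
  set R : Finset (Fin (l + 1) → ℕ) := Q.filter (fun q => C * (4 * m) ^ l < (W q).card) with hR
  set Z : Finset (Fin (l + 1) → ℕ) → Finset (Fin (l + 1) → ℕ) := fun F =>
    (Fintype.piFinset (fun _ : Fin (l + 1) => range X)).filter
        (fun a => ∫ ω, (∏ i, s ω i ^ (2 * a i)) *
          MvPolynomial.eval (s ω) (B8_poly F (c F) (t F)) ∂ν = 0) with hZ
  have hRZ : ∀ q ∈ R, ∃ F ∈ Fam, (fun j => m * q j) ∈ Z F := by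
    intro q hq
    rw [hR, Finset.mem_filter] at hq
    obtain ⟨κ, _, hκ⟩ := Finset.exists_lt_card_fiber_of_mul_lt_card_of_maps_to
      (s := W q) (t := (Finset.univ : Finset (Fin C)))
      (f := fun i => χ (∑ j, ((fun j => m * q j) + i) j)) (n := (4 * m) ^ l)
      (fun _ _ => Finset.mem_univ _) (by simpa using hq.2)
    set F : Finset (Fin (l + 1) → ℕ) :=
      (W q).filter (fun i => χ (∑ j, ((fun j => m * q j) + i) j) = κ) with hF
    have hFFam : F ∈ Fam := by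
      rw [hFam, Finset.mem_filter, Finset.mem_powerset]
      refine ⟨?_, hκ⟩
      intro i hi
      rw [hF, Finset.mem_filter, hW, Finset.mem_filter] at hi
      exact hi.1.1
    have hFS : ∀ i ∈ F, ((fun j => m * q j) + i) ∈ S := by
      intro i hi
      rw [hF, Finset.mem_filter, hW, Finset.mem_filter] at hi
      exact hi.1.2
    refine ⟨F, hFFam, ?_⟩
    rw [hZ, Finset.mem_filter]
    constructor
    · rw [Fintype.mem_piFinset]
      intro j
      have h3 := hFS (i₀ F) (hi₀ F hFFam).1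
      rw [hS, Finset.mem_filter, Fintype.mem_piFinset] at h3
      have h4 := Finset.mem_range.mp (h3.1 j)
      simp only [Pi.add_apply] at h4
      exact Finset.mem_range.mpr (by omega)
    · refine B8_window ν s hs h0 h1 K p hp0 V χ hχ F (c F) (hc2 F hFFam) (fun j => m * q j)
        ?_ ?_ (t F)
      · intro i hi
        have h3 := hFS i hi
        rw [hS, Finset.mem_filter] at h3
        exact h3.2
      · intro i hi i' hi'
        rw [hF, Finset.mem_filter] at hi hi'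
        rw [hi.2, hi'.2]
  have hRcard : (R.card : ℝ) ≤ Fam.card * (ε' * X ^ (l + 1)) := by
    have h5 : R.card ≤ ∑ F ∈ Fam, (Z F).card := by
      have h6 : R.image (fun q => (fun j => m * q j)) ⊆ Fam.biUnion Z := by
        intro a ha
        rw [Finset.mem_image] at ha
        obtain ⟨q, hq, rfl⟩ := ha
        obtain ⟨F, hF, hq2⟩ := hRZ q hq
        exact Finset.mem_biUnion.mpr ⟨F, hF, hq2⟩
      have h7 : (R.image (fun q => (fun j => m * q j))).card = R.card := by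
        refine Finset.card_image_of_injective _ ?_
        intro a b hab
        funext j
        have := congrFun hab j
        simp only at this
        exact Nat.eq_of_mul_eq_mul_left (by omega) this
      rw [← h7]
      exact le_trans (Finset.card_le_card h6) Finset.card_biUnion_le
    calc (R.card : ℝ) ≤ ((∑ F ∈ Fam, (Z F).card : ℕ) : ℝ) := by exact_mod_cast h5
      _ = ∑ F ∈ Fam, ((Z F).card : ℝ) := by push_cast; rfl
      _ ≤ ∑ F ∈ Fam, ε' * X ^ (l + 1) :=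
          Finset.sum_le_sum (fun F hF => hXF F hF X (hXFle F hF))
      _ = Fam.card * (ε' * X ^ (l + 1)) := by rw [Finset.sum_const, nsmul_eq_mul]
  have hWle : ∀ q ∈ Q, (W q).card ≤ C * (4 * m) ^ l + (if q ∈ R then m ^ (l + 1) else 0) := by
    intro q hq
    by_cases hqR : q ∈ R
    · rw [if_pos hqR]
      have : (W q).card ≤ box.card := Finset.card_filter_le _ _
      have hb : box.card = m ^ (l + 1) := by
        rw [hbox, Fintype.card_piFinset]; simp
      omega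
    · rw [if_neg hqR, add_zero]
      rw [hR, Finset.mem_filter, not_and] at hqR
      exact not_lt.mp (hqR hq)
  have hsumW : ∑ q ∈ Q, (W q).card ≤ Q.card * (C * (4 * m) ^ l) + R.card * m ^ (l + 1) := by
    refine le_trans (Finset.sum_le_sum hWle) ?_
    rw [Finset.sum_add_distrib, Finset.sum_const, smul_eq_mul]
    refine Nat.add_le_add_left ?_ _
    rw [← Finset.sum_filter, Finset.sum_const, smul_eq_mul]
    refine Nat.mul_le_mul_right _ (Finset.card_le_card ?_)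
    intro q hq
    exact (Finset.mem_filter.mp hq).2
  have hQcard : Q.card = (X / m + 1) ^ (l + 1) := by
    rw [hQ, Fintype.card_piFinset]; simp
  have hfin : (S.card : ℝ) ≤ (Q.card : ℝ) * (C * ((4 * m : ℕ) : ℝ) ^ l) +
      (R.card : ℝ) * (m : ℝ) ^ (l + 1) := by
    have := le_trans hcardS hsumW
    exact_mod_cast this
  have hQ2 : (Q.card : ℝ) * (m : ℝ) ^ (l + 1) ≤ 3 / 2 * (X : ℝ) ^ (l + 1) := by
    rw [hQcard]
    push_cast
    rw [← mul_pow]
    refine le_trans (pow_le_pow_left₀ (by positivity) ?_ _) hX1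
    have : (((X / m : ℕ) : ℝ)) * m ≤ X := by exact_mod_cast Nat.div_mul_le_self X m
    linarith [this]
  have hA : (Q.card : ℝ) * (C * ((4 * m : ℕ) : ℝ) ^ l) ≤ 3 / 4 * δ * (X : ℝ) ^ (l + 1) := by
    calc (Q.card : ℝ) * (C * ((4 * m : ℕ) : ℝ) ^ l)
        ≤ (Q.card : ℝ) * (δ / 2 * (m : ℝ) ^ (l + 1)) := by gcongr
      _ = δ / 2 * ((Q.card : ℝ) * (m : ℝ) ^ (l + 1)) := by ring
      _ ≤ δ / 2 * (3 / 2 * (X : ℝ) ^ (l + 1)) := by gcongr
      _ = 3 / 4 * δ * (X : ℝ) ^ (l + 1) := by ring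
  have hB : (R.card : ℝ) * (m : ℝ) ^ (l + 1) ≤ 1 / 4 * δ * (X : ℝ) ^ (l + 1) := by
    calc (R.card : ℝ) * (m : ℝ) ^ (l + 1)
        ≤ (Fam.card * (ε' * X ^ (l + 1))) * (m : ℝ) ^ (l + 1) := by gcongr
      _ = (Fam.card / (Fam.card + 1)) * (1 / 4 * δ * (X : ℝ) ^ (l + 1)) := by
          rw [hε']
          field_simp
      _ ≤ 1 * (1 / 4 * δ * (X : ℝ) ^ (l + 1)) := by
          gcongr
          rw [div_le_one (by positivity)]
          linarith
      _ = 1 / 4 * δ * (X : ℝ) ^ (l + 1) := one_mul _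
  linarith

end Pool.HB89
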