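import Pool.Agent.LibHB89.Defs

namespace Pool.HB89

open MeasureTheory Finset
open scoped ENNReal Nat

theorem C1a_cancel (u u' : List ℕ) : ∀ m m' : ℕ,
    List.replicate m 2 ++ 3 :: u = List.replicate m' 2 ++ 3 :: u' → m = m' ∧ u = u'
  | 0, 0, h => ⟨rfl, by simpa using h⟩
  | 0, m' + 1, h => by simp [List.replicate_succ] at h
  | m + 1, 0, h => by simp [List.replicate_succ] at h
  | m + 1, m' + 1, h => by
    simp only [List.replicate_succ, List.cons_append, List.cons.injEq, true_and] at h
    obtain ⟨h1, h2⟩ := C1a_cancel u u' m m' h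
    exact ⟨by omega, h2⟩

theorem word_injective (l : ℕ) : Function.Injective (word l) := by
  induction l with
  | zero =>
    intro a b h
    have h1 : List.replicate (a 0) 2 = List.replicate (b 0) 2 := h
    have h2 := congrArg List.length h1
    simp only [List.length_replicate] at h2
    funext i
    rw [show i = 0 from Fin.ext (by omega), h2]
  | succ l ih =>
    intro a b h
    have h1 : List.replicate (a 0) 2 ++ 3 :: word l (fun i => a i.succ) =
      List.replicate (b 0) 2 ++ 3 :: word l (fun i => b i.succ) := h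
    obtain ⟨h2, h3⟩ := C1a_cancel _ _ _ _ h1
    have h4 := ih h3
    funext i
    refine Fin.cases h2 (fun i => ?_) i
    exact congrFun h4 i

theorem word_sum (l : ℕ) (a : Fin (l + 1) → ℕ) : (word l a).sum = 2 * ∑ i, a i + 3 * l := by
  induction l with
  | zero => simp [word]; ring
  | succ l ih =>
    rw [Fin.sum_univ_succ]
    simp only [word, List.sum_append, List.sum_cons, List.sum_replicate, ih, smul_eq_mul]
    ring

theorem C1a_mem (l : ℕ) (a : Fin (l + 1) → ℕ) : ∀ x ∈ word l a, x = 2 ∨ x = 3 := by
  induction l with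
  | zero =>
    intro x hx
    exact Or.inl (List.eq_of_mem_replicate hx)
  | succ l ih =>
    intro x hx
    simp only [word, List.mem_append, List.mem_cons] at hx
    rcases hx with hx | hx | hx
    · exact Or.inl (List.eq_of_mem_replicate hx)
    · exact Or.inr hx
    · exact ih _ x hx

theorem C1a_count (l : ℕ) (a : Fin (l + 1) → ℕ) : (word l a).count 3 = l := by
  induction l with
  | zero => simp [word, List.count_replicate]
  | succ l ih => simp [word, List.count_append, List.count_replicate, ih]

theorem C1a_two (l : ℕ) (a : Fin (l + 1) → ℕ) : ∃ b, word l b = 2 :: word l a := by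
  refine ⟨Function.update a 0 (a 0 + 1), ?_⟩
  cases l with
  | zero => simp [word, List.replicate_succ]
  | succ l => simp [word, List.replicate_succ]

theorem C1a_surj (w : List ℕ) (hw : ∀ x ∈ w, x = 2 ∨ x = 3) :
    ∀ l, w.count 3 = l → ∃ a, word l a = w := by
  induction w with
  | nil =>
    intro l hl
    simp only [List.count_nil] at hl
    subst hl
    exact ⟨fun _ => 0, rfl⟩
  | cons x w ih =>
    intro l hl
    have hw' : ∀ x ∈ w, x = 2 ∨ x = 3 := fun y hy => hw y (List.mem_cons_of_mem _ hy)
    rcases hw x List.mem_cons_self with rfl | rfl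
    · rw [List.count_cons_of_ne (by norm_num)] at hl
      obtain ⟨a, rfl⟩ := ih hw' l hl
      exact C1a_two l a
    · rw [List.count_cons_self] at hl
      subst hl
      obtain ⟨a, ha⟩ := ih hw' _ rfl
      refine ⟨Fin.cons 0 a, ?_⟩
      have h1 : (fun i : Fin (List.count 3 w + 1) =>
          (Fin.cons 0 a : Fin (List.count 3 w + 1 + 1) → ℕ) i.succ) = a := by
        funext i
        rw [Fin.cons_succ]
      simp only [word, Fin.cons_zero, List.replicate_zero, List.nil_append]
      rw [h1, ha]

/-- `hoffman l N` is the image of the `a` with `2 |a| + 3 l ≤ N`. -/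
theorem hoffman_eq (l N : ℕ) :
    hoffman l N = word l '' {a | 2 * ∑ i, a i + 3 * l ≤ N} := by
  ext w
  constructor
  · rintro ⟨h1, h2, h3⟩
    obtain ⟨a, rfl⟩ := C1a_surj w h1 l h2
    refine ⟨a, ?_, rfl⟩
    rw [word_sum] at h3
    exact h3
  · rintro ⟨a, ha, rfl⟩
    refine ⟨C1a_mem l a, C1a_count l a, ?_⟩
    rw [word_sum]
    exact ha

theorem hoffman_finite (l N : ℕ) : (hoffman l N).Finite := by
  rw [hoffman_eq]
  refine Set.Finite.image _ ((Set.finite_Iic (fun _ => N : Fin (l + 1) → ℕ)).subset ?_)
  intro a ha i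
  have h1 : a i ≤ ∑ i, a i := Finset.single_le_sum (fun _ _ => Nat.zero_le _) (Finset.mem_univ i)
  have h2 : 2 * ∑ i, a i + 3 * l ≤ N := ha
  show a i ≤ N
  omega

end Pool.HB89
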