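import Mathlib

/-!
Definitions for MP_c2d7b4_nt (Hoffman elements with a bounded number of threes).
-/

namespace Pool.HB89

open MeasureTheory Finset
open scoped ENNReal Nat

/-- The multiple zeta value `ζ(n₁,…,n_r)` (same formula as in the problem). -/
noncomputable def mzv (n : List ℕ) : ℝ :=
  ∑' k : {k : Fin n.length → ℕ // StrictAnti k ∧ ∀ i, 0 < k i},
    ∏ i, ((k.1 i : ℝ) ^ (n.get i))⁻¹

/-- The words over `{2,3}` with exactly `l` letters `3` and weight at most `N`. -/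
def hoffman (l N : ℕ) : Set (List ℕ) :=
  {w | (∀ x ∈ w, x = 2 ∨ x = 3) ∧ w.count 3 = l ∧ w.sum ≤ N}

/-- The word `{2}^{a 0} 3 {2}^{a 1} 3 ⋯ 3 {2}^{a l}`. -/
def word : (l : ℕ) → (Fin (l + 1) → ℕ) → List ℕ
  | 0, a => List.replicate (a 0) 2
  | l + 1, a => List.replicate (a 0) 2 ++ 3 :: word l (fun i => a i.succ)

/-- `co (n₁ … n_r) k = ∑_{k = k₁ > ⋯ > k_r > 0} ∏ k_i ^ (-n_i)`. -/
noncomputable def co : List ℕ → ℕ → ℝ≥0∞
  | [], k => if k = 0 then 1 else 0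
  | n :: w, k => if k = 0 then 0 else ((k : ℝ≥0∞) ^ n)⁻¹ * ∑ j ∈ range k, co w j

/-- `cb k = 4 ^ k / binom (2 k) k`. -/
noncomputable def cb (k : ℕ) : ℝ := 4 ^ k / (Nat.centralBinom k : ℝ)

/-- `gs k x = cb k * sin x ^ (2 k)`. -/
noncomputable def gs (k : ℕ) (x : ℝ) : ℝ≥0∞ := ENNReal.ofReal (cb k * Real.sin x ^ (2 * k))

/-- The cotangent. -/
noncomputable def ct (x : ℝ) : ℝ := Real.cos x / Real.sin x

/-- The iterated integral attached to a word in `2, 3`. -/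
noncomputable def Lf : List ℕ → ℝ → ℝ≥0∞
  | [], _ => 1
  | n :: w, x =>
    if n = 2 then ∫⁻ y in Set.Ioo 0 x, ENNReal.ofReal (4 * (x - y)) * Lf w y
    else ∫⁻ y in Set.Ioo 0 x, ENNReal.ofReal (2 * ct y) *
      ∫⁻ z in Set.Ioo 0 y, ENNReal.ofReal (4 * (y - z)) * Lf w z

/-- The iterated integral for `2 {2}^{a 0} 3 ⋯ 3 {2}^{a n}`. -/
noncomputable def Yf : (n : ℕ) → (Fin (n + 1) → ℕ) → ℝ → ℝ≥0∞
  | 0, a, b => ENNReal.ofReal ((2 * b) ^ (2 * a 0 + 2) / ((2 * a 0 + 2)! : ℝ))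
  | n + 1, a, b => ∫⁻ y in Set.Ioo 0 b,
      ENNReal.ofReal ((2 * (b - y)) ^ (2 * a 0 + 2) / ((2 * a 0 + 2)! : ℝ) * (2 * ct y)) *
        Yf n (fun i => a i.succ) y

/-- The increments `(b - x 0, x 0 - x 1, …, x (n-1))`. -/
def incr : (n : ℕ) → ℝ → (Fin n → ℝ) → (Fin (n + 1) → ℝ)
  | 0, b, _ => fun _ => b
  | n + 1, b, x => Fin.cons (b - x 0) (incr n (x 0) (fun i => x i.succ))

/-- The region `b > x 0 > ⋯ > x (n-1) > 0`. -/
def region (n : ℕ) (b : ℝ) : Set (Fin n → ℝ) := {x | ∀ i, 0 < incr n b x i}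

/-- The density of the measure `nu l`. -/
noncomputable def dens (l : ℕ) (x : Fin l → ℝ) : ℝ≥0∞ :=
  (region l (Real.pi / 2)).indicator (fun x => ENNReal.ofReal
    (1 / Real.pi * (2 * incr l (Real.pi / 2) x 0) *
      (∏ i : Fin l, (2 * incr l (Real.pi / 2) x i.succ) ^ 2) * ∏ i : Fin l, (2 * ct (x i)))) x

/-- The measure on `Fin l → ℝ`. -/
noncomputable def nu (l : ℕ) : Measure (Fin l → ℝ) := volume.withDensity (dens l)

/-- The normalised increments (a point of the simplex). -/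
noncomputable def sp (l : ℕ) (x : Fin l → ℝ) : Fin (l + 1) → ℝ :=
  fun i => 2 / Real.pi * incr l (Real.pi / 2) x i

/-- The product of factorials `(2 a₀ + 1)! ∏ (2 a_i + 2)!`. -/
def nfac (l : ℕ) (a : Fin (l + 1) → ℕ) : ℕ :=
  (2 * a 0 + 1)! * ∏ i : Fin l, (2 * a i.succ + 2)!

end Pool.HB89
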