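import Mathlib

/-!
The Hoffman words with exactly `l` letters `3` in a window of weights.
-/

namespace Pool.HB89

/-- The words over `{2,3}` with exactly `l` letters `3` and weight in `[N, N + m)`. -/
def hoffmanIn (l N m : ℕ) : Set (List ℕ) :=
  {w | (∀ x ∈ w, x = 2 ∨ x = 3) ∧ w.count 3 = l ∧ N ≤ w.sum ∧ w.sum < N + m}

end Pool.HB89
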