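import Mathlib

namespace Pool.HB89

open MvPolynomial

/-- the product of all `1 - ∑ ± X i` -/
noncomputable def E1_f (n : ℕ) : MvPolynomial (Fin n) ℚ :=
  ∏ ε : Fin n → ℤˣ, (1 - ∑ i, C (((ε i : ℤˣ) : ℤ) : ℚ) * X i)

/-- coefficients after rescaling the variables -/
theorem E1_coeff_rescale (n : ℕ) (a : Fin n → ℚ) (f : MvPolynomial (Fin n) ℚ) (m : Fin n →₀ ℕ) :
    coeff m (aeval (fun j => C (a j) * X j) f : MvPolynomial (Fin n) ℚ) =
      (∏ j, a j ^ m j) * coeff m f := by
  classical
  induction f using MvPolynomial.induction_on' with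
  | monomial u r =>
    rw [aeval_monomial]
    have h1 : (u.prod fun i k => (C (a i) * X i : MvPolynomial (Fin n) ℚ) ^ k) =
        monomial u (∏ j, a j ^ u j) := by
      rw [Finsupp.prod_fintype _ _ (fun i => pow_zero _)]
      simp only [mul_pow]
      rw [Finset.prod_mul_distrib]
      have h2 : (∏ i, (X i : MvPolynomial (Fin n) ℚ) ^ u i) = monomial u 1 := by
        rw [MvPolynomial.monomial_eq, C_1, one_mul, Finsupp.prod_fintype _ _ (fun i => pow_zero _)]
      rw [h2]
      have h3 : (∏ i, (C (a i) : MvPolynomial (Fin n) ℚ) ^ u i) = C (∏ j, a j ^ u j) := by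
        rw [map_prod]
        simp [map_pow]
      rw [h3, C_mul_monomial, mul_one]
    rw [h1, MvPolynomial.algebraMap_eq, C_mul_monomial, coeff_monomial, coeff_monomial]
    split_ifs with h
    · rw [h]; ring
    · rw [mul_zero]
  | add p q hp hq =>
    rw [map_add, coeff_add, coeff_add, hp, hq]
    ring

theorem E1_even (n : ℕ) (m : Fin n →₀ ℕ) (h : coeff m (E1_f n) ≠ 0) (i : Fin n) :
    Even (m i) := by
  classical
  by_contra hodd
  rw [Nat.not_even_iff_odd] at hodd
  -- the sign change of the `i`-th variable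
  have key := E1_coeff_rescale n (Function.update (fun _ => 1) i (-1)) (E1_f n) m
  have hinv : (aeval (fun j => C ((Function.update (fun _ => 1) i (-1) : Fin n → ℚ) j) * X j) (E1_f n) :
      MvPolynomial (Fin n) ℚ) = E1_f n := by
    unfold E1_f
    rw [map_prod]
    refine Fintype.prod_equiv (Equiv.mulRight (Function.update (1 : Fin n → ℤˣ) i (-1))) _ _ ?_
    intro ε
    rw [map_sub, map_one, map_sum]
    congr 1
    refine Finset.sum_congr rfl fun j _ => ?_
    rw [map_mul, aeval_X, ← MvPolynomial.algebraMap_eq, AlgHom.commutes]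
    simp only [MvPolynomial.algebraMap_eq, Equiv.coe_mulRight, Pi.mul_apply]
    rw [← mul_assoc, ← C_mul]
    congr 2
    by_cases hj : j = i
    · subst hj
      simp
    · simp [Function.update_of_ne hj]
  rw [hinv] at key
  have hprod : (∏ j, (Function.update (fun _ => 1) i (-1) : Fin n → ℚ) j ^ m j) = -1 := by
    rw [Finset.prod_eq_single i]
    · simp [hodd.neg_one_pow]
    · intro j _ hj
      simp [Function.update_of_ne hj]
    · intro h; exact absurd (Finset.mem_univ i) h
  rw [hprod] at key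
  apply h
  linarith

theorem E1_degree (n : ℕ) : (E1_f n).totalDegree ≤ 2 ^ n := by
  classical
  unfold E1_f
  refine (totalDegree_finsetProd _ _).trans ?_
  have h1 : ∀ ε : Fin n → ℤˣ,
      (1 - ∑ i, C (((ε i : ℤˣ) : ℤ) : ℚ) * X i : MvPolynomial (Fin n) ℚ).totalDegree ≤ 1 := by
    intro ε
    refine (totalDegree_sub _ _).trans ?_
    rw [totalDegree_one]
    refine max_le (by norm_num) ?_
    refine (totalDegree_finsetSum _ _).trans ?_
    refine Finset.sup_le fun i _ => ?_
    refine (totalDegree_mul _ _).trans ?_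
    rw [totalDegree_C, totalDegree_X]
  refine (Finset.sum_le_sum fun ε _ => h1 ε).trans ?_
  rw [Finset.sum_const, smul_eq_mul, mul_one, Finset.card_univ, Fintype.card_fun]
  simp

theorem E1_constant (n : ℕ) : coeff 0 (E1_f n) = 1 := by
  rw [← constantCoeff_eq]
  unfold E1_f
  rw [map_prod]
  apply Finset.prod_eq_one
  intro ε _
  rw [map_sub, map_one, map_sum]
  simp

theorem E1_eval (n : ℕ) (s : Fin n → ℝ) (hs : ∑ i, s i = 1) : aeval s (E1_f n) = 0 := by
  unfold E1_f
  rw [map_prod]
  refine Finset.prod_eq_zero (Finset.mem_univ 1) ?_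
  rw [map_sub, map_one, map_sum]
  simp [hs]

/-- The relation: on `∑ s i = 1` one has `∑ c p s ^ (2 p) = 0` with `c 0 = 1`, all `|p| ≤ 2 ^ l`. -/
theorem exists_even_relation (l : ℕ) : ∃ (S : Finset (Fin (l + 1) → ℕ)) (c : (Fin (l + 1) → ℕ) → ℚ),
    0 ∈ S ∧ c 0 = 1 ∧ (∀ p ∈ S, ∑ i, p i ≤ 2 ^ l) ∧
      ∀ s : Fin (l + 1) → ℝ, ∑ i, s i = 1 → ∑ p ∈ S, (c p : ℝ) * ∏ i, s i ^ (2 * p i) = 0 := by
  classical
  set f := E1_f (l + 1) with hf
  let half : (Fin (l + 1) →₀ ℕ) → (Fin (l + 1) → ℕ) := fun m i => m i / 2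
  let dbl : (Fin (l + 1) → ℕ) → (Fin (l + 1) →₀ ℕ) := fun p => Finsupp.equivFunOnFinite.symm fun i => 2 * p i
  have hdh : ∀ m ∈ f.support, dbl (half m) = m := by
    intro m hm
    ext i
    have := E1_even (l + 1) m (mem_support_iff.1 hm) i
    simp only [dbl, half, Finsupp.equivFunOnFinite_symm_apply_apply]
    exact Nat.two_mul_div_two_of_even this
  have h0 : (0 : Fin (l + 1) →₀ ℕ) ∈ f.support := by
    rw [mem_support_iff, hf, E1_constant]
    norm_num
  refine ⟨f.support.image half, fun p => coeff (dbl p) f, ?_, ?_, ?_, ?_⟩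
  · rw [Finset.mem_image]
    refine ⟨0, h0, ?_⟩
    funext i
    simp [half]
  · have : dbl 0 = 0 := by
      ext i
      simp [dbl]
    simp only
    rw [this, hf, E1_constant]
  · intro p hp
    rw [Finset.mem_image] at hp
    obtain ⟨m, hm, rfl⟩ := hp
    have h1 := (le_totalDegree hm).trans (E1_degree (l + 1))
    have h2 : (m.sum fun _ e => e) = ∑ i, m i := Finsupp.sum_fintype _ _ (fun _ => rfl)
    rw [h2] at h1
    have h3 : 2 * ∑ i, half m i = ∑ i, m i := by
      rw [Finset.mul_sum]
      refine Finset.sum_congr rfl fun i _ => ?_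
      exact Nat.two_mul_div_two_of_even (E1_even (l + 1) m (mem_support_iff.1 hm) i)
    rw [pow_succ] at h1
    omega
  · intro s hs
    have h1 := E1_eval (l + 1) s hs
    rw [← hf, MvPolynomial.aeval_eq_eval₂Hom, MvPolynomial.coe_eval₂Hom, MvPolynomial.eval₂_eq'] at h1
    rw [Finset.sum_image]
    · rw [← h1]
      refine Finset.sum_congr rfl fun m hm => ?_
      show ((coeff (dbl (half m)) f : ℚ) : ℝ) * _ = _
      rw [hdh m hm]
      congr 1
      refine Finset.prod_congr rfl fun i _ => ?_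
      congr 1
      exact Nat.two_mul_div_two_of_even (E1_even (l + 1) m (mem_support_iff.1 hm) i)
    · intro m hm m' hm' hmm
      rw [← hdh m hm, ← hdh m' hm', hmm]

end Pool.HB89
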