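import Mathlib

namespace Pool.HB89

open Finset

/-- powers of a transcendental element times a nonzero number are independent -/
theorem E2_indep {K : Type*} [Field K] [Algebra K ℂ] {x : ℂ} (hx : Transcendental K x) (h : ℂ)
    (hh : h ≠ 0) (m : ℕ) : LinearIndependent K (fun n : Fin m => x ^ (n : ℕ) * h) := by
  rw [Fintype.linearIndependent_iff]
  intro g hg i
  set p : Polynomial K := ∑ n : Fin m, Polynomial.C (g n) * Polynomial.X ^ (n : ℕ) with hp
  have h1 : Polynomial.aeval x p = 0 := by
    have h2 : Polynomial.aeval x p * h = 0 := by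
      rw [← hg, hp, map_sum, Finset.sum_mul]
      refine Finset.sum_congr rfl fun n _ => ?_
      rw [map_mul, Polynomial.aeval_C, map_pow, Polynomial.aeval_X, Algebra.smul_def]
      ring
    exact (mul_eq_zero.1 h2).resolve_right hh
  have h3 : p = 0 := by
    by_contra hne
    exact hx ⟨p, hne, h1⟩
  have h4 := congrArg (fun q => q.coeff i) h3
  simp only [hp, Polynomial.finsetSum_coeff, Polynomial.coeff_C_mul_X_pow, Polynomial.coeff_zero] at h4
  rw [Finset.sum_eq_single i] at h4
  · simpa using h4
  · intro j _ hj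
    rw [if_neg]
    intro he
    exact hj (Fin.ext he.symm)
  · intro h; exact absurd (Finset.mem_univ i) h

theorem window_abstract {K : Type*} [Field K] [Algebra K ℂ] {x : ℂ} (hx : Transcendental K x)
    (d L : ℕ) (S : Finset (Fin d → ℕ)) (c : (Fin d → ℕ) → ℚ) (hS0 : 0 ∈ S) (hc0 : c 0 = 1)
    (hSL : ∀ p ∈ S, ∑ i, p i ≤ L) (H : (Fin d → ℕ) → ℂ)
    (hrel : ∀ a, ∑ p ∈ S, (c p : ℂ) * (x ^ (L - ∑ i, p i) * H (a + p)) = 0)
    (V : Submodule K ℂ) [FiniteDimensional K V] (a : Fin d → ℕ) (ha : H a ≠ 0) (m : ℕ)
    (hV : ∀ p : Fin d → ℕ, ∑ i, p i < m → H (a + p) ∈ V) :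
    m ≤ L * Module.finrank K V := by
  classical
  let T : (Fin L → V) →ₗ[K] ℂ :=
    ∑ i : Fin L, (LinearMap.mulLeft K (x ^ (i : ℕ))).comp
      (V.subtype.comp (LinearMap.proj i))
  have hT : ∀ z, T z = ∑ i : Fin L, x ^ (i : ℕ) * ((z i : V) : ℂ) := by
    intro z
    simp [T, LinearMap.sum_apply]
  have hrat : ∀ (r : ℚ) (U : Submodule K ℂ) (h : ℂ), h ∈ U → (r : ℂ) * h ∈ U := by
    intro r U h hh
    have hcz : CharZero K := (algebraMap K ℂ).charZero
    have : (r : ℂ) = algebraMap K ℂ (r : K) := by rw [map_ratCast]
    rw [this, ← Algebra.smul_def]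
    exact U.smul_mem _ hh
  have claim : ∀ n : ℕ, ∀ q : Fin d → ℕ, ∑ i, q i + n < m →
      x ^ n * H (a + q) ∈ LinearMap.range T := by
    intro n
    induction n using Nat.strong_induction_on with
    | _ n ih =>
      intro q hq
      rcases lt_or_ge n L with hn | hn
      · refine ⟨Pi.single ⟨n, hn⟩ ⟨H (a + q), hV q (by omega)⟩, ?_⟩
        rw [hT, Finset.sum_eq_single (⟨n, hn⟩ : Fin L)]
        · simp
        · intro j _ hj
          rw [Pi.single_eq_of_ne hj]
          simp
        · intro h; exact absurd (Finset.mem_univ _) h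
      · have h1 := hrel (a + q)
        rw [← Finset.add_sum_erase _ _ hS0, hc0] at h1
        have h2 : x ^ n * H (a + q) =
            -∑ p ∈ S.erase 0, (c p : ℂ) * (x ^ (n - ∑ i, p i) * H (a + (q + p))) := by
          have h3 : x ^ n = x ^ (n - L) * x ^ L := by
            rw [← pow_add]
            congr 1
            omega
          have h4 : ∑ p ∈ S.erase 0, (c p : ℂ) * (x ^ (n - ∑ i, p i) * H (a + (q + p))) =
              x ^ (n - L) * ∑ p ∈ S.erase 0, (c p : ℂ) * (x ^ (L - ∑ i, p i) * H (a + q + p)) := by
            rw [Finset.mul_sum]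
            refine Finset.sum_congr rfl fun p hp => ?_
            have hpL := hSL p (Finset.mem_of_mem_erase hp)
            have h5 : x ^ (n - ∑ i, p i) = x ^ (n - L) * x ^ (L - ∑ i, p i) := by
              rw [← pow_add]
              congr 1
              omega
            rw [h5, add_assoc]
            ring
          have h6 : x ^ L * H (a + q) =
              -∑ p ∈ S.erase 0, (c p : ℂ) * (x ^ (L - ∑ i, p i) * H (a + q + p)) := by
            have h7 : (∑ i, (0 : Fin d → ℕ) i) = 0 := by simp
            rw [h7] at h1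
            simp only [Nat.sub_zero, add_zero, Rat.cast_one, one_mul] at h1
            exact eq_neg_of_add_eq_zero_left h1
          rw [h4, h3, mul_assoc, h6]
          ring
        rw [h2]
        refine Submodule.neg_mem _ (Submodule.sum_mem _ fun p hp => hrat _ _ _ ?_)
        have hp0 : p ≠ 0 := Finset.ne_of_mem_erase hp
        have hpL := hSL p (Finset.mem_of_mem_erase hp)
        have hp1 : 1 ≤ ∑ i, p i := by
          by_contra hcon
          apply hp0
          funext i
          have : p i ≤ ∑ j, p j := Finset.single_le_sum (fun _ _ => Nat.zero_le _) (Finset.mem_univ i)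
          show p i = 0
          omega
        have hsum : ∑ i, (q + p) i = ∑ i, q i + ∑ i, p i := by
          simp only [Pi.add_apply]
          exact Finset.sum_add_distrib
        apply ih (n - ∑ i, p i) (by omega)
        rw [hsum]
        omega
  have hli : LinearIndependent K (fun n : Fin m => x ^ (n : ℕ) * H a) := E2_indep hx (H a) ha m
  have hmem : ∀ n : Fin m, x ^ (n : ℕ) * H a ∈ LinearMap.range T := by
    intro n
    have := claim n 0 (by simp)
    simpa using this
  have hli' : LinearIndependent K (fun n : Fin m =>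
      (⟨x ^ (n : ℕ) * H a, hmem n⟩ : LinearMap.range T)) := by
    apply LinearIndependent.of_comp (LinearMap.range T).subtype
    exact hli
  have h1 := hli'.fintype_card_le_finrank
  rw [Fintype.card_fin] at h1
  refine h1.trans ((LinearMap.finrank_range_le T).trans ?_)
  rw [Module.finrank_pi_fintype]
  simp

end Pool.HB89
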