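import Pool.Agent.LibHB89.A12c
import Pool.Agent.LibHB89.A12d
import Pool.Agent.LibHB89.E1
import Pool.Agent.LibHB89.E2

namespace Pool.HB89

open MeasureTheory Finset
open scoped ENNReal Nat

theorem sp_le_one (l : ℕ) : ∀ᵐ x ∂(nu l), ∀ i, sp l x i ≤ 1 := by
  filter_upwards [sp_nonneg l] with x hx i
  rw [← sp_sum l x]
  exact Finset.single_le_sum (fun j _ => hx j) (Finset.mem_univ i)

theorem sp_prod_measurable (l : ℕ) (a : Fin (l + 1) → ℕ) :
    Measurable (fun x : Fin l → ℝ => ∏ i, sp l x i ^ (2 * a i)) := by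
  apply Finset.measurable_fun_prod
  intro i _
  exact (measurable_pi_iff.1 (sp_measurable l) i).pow_const _

theorem sp_prod_integrable (l : ℕ) (a : Fin (l + 1) → ℕ) :
    Integrable (fun x => ∏ i, sp l x i ^ (2 * a i)) (nu l) := by
  refine Integrable.of_bound (sp_prod_measurable l a).aestronglyMeasurable 1 ?_
  filter_upwards [sp_nonneg l, sp_le_one l] with x hx hx1
  rw [Real.norm_eq_abs, Finset.abs_prod]
  refine Finset.prod_le_one (fun i _ => abs_nonneg _) fun i _ => ?_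
  rw [abs_of_nonneg (pow_nonneg (hx i) _)]
  exact pow_le_one₀ (hx i) (hx1 i)

theorem sp_prod_integral_pos (l : ℕ) (a : Fin (l + 1) → ℕ) :
    0 < ∫ x, ∏ i, sp l x i ^ (2 * a i) ∂(nu l) := by
  have hnn : 0 ≤ᵐ[nu l] fun x => ∏ i, sp l x i ^ (2 * a i) := by
    filter_upwards [sp_nonneg l] with x hx
    exact Finset.prod_nonneg fun i _ => pow_nonneg (hx i) _
  rw [integral_pos_iff_support_of_nonneg_ae hnn (sp_prod_integrable l a)]
  have hl : (0 : ℝ) < (l : ℝ) + 1 := by positivity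
  refine lt_of_lt_of_le (nu_full l (fun _ => 1 / ((l : ℝ) + 1)) (fun _ => by positivity) (by
    rw [Finset.sum_const, Finset.card_univ, Fintype.card_fin, nsmul_eq_mul]
    push_cast
    field_simp) (1 / ((l : ℝ) + 1)) (by positivity)) (measure_mono ?_)
  intro x hx
  rw [Function.mem_support]
  refine (Finset.prod_pos fun i _ => pow_pos ?_ _).ne'
  have h1 : dist (sp l x i) (1 / ((l : ℝ) + 1)) < 1 / ((l : ℝ) + 1) :=
    lt_of_le_of_lt (dist_le_pi_dist (sp l x) (fun _ => 1 / ((l : ℝ) + 1)) i) hx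
  rw [Real.dist_eq, abs_lt] at h1
  linarith [h1.1]

/-- `H a = (2 a₀ + 1)! ∏ (2 a_i + 2)! ζ(word a)`. -/
noncomputable def Hv (l : ℕ) (a : Fin (l + 1) → ℕ) : ℂ := (nfac l a : ℂ) * (mzv (word l a) : ℂ)

theorem Hv_eq (l : ℕ) (a : Fin (l + 1) → ℕ) :
    Hv l a = ((Real.pi : ℂ) ^ 2) ^ (∑ i, a i) *
      ((∫ x, ∏ i, sp l x i ^ (2 * a i) ∂(nu l) : ℝ) : ℂ) := by
  have := congrArg (fun r : ℝ => (r : ℂ)) (moment l a)
  simp only [Complex.ofReal_mul, Complex.ofReal_pow, Complex.ofReal_natCast] at this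
  rw [Hv, this, ← pow_mul]

theorem Hv_ne_zero (l : ℕ) (a : Fin (l + 1) → ℕ) : Hv l a ≠ 0 := by
  rw [Hv_eq]
  refine mul_ne_zero (pow_ne_zero _ (pow_ne_zero _ (by exact_mod_cast Real.pi_ne_zero))) ?_
  exact_mod_cast (sp_prod_integral_pos l a).ne'

theorem nfac_ne_zero (l : ℕ) (a : Fin (l + 1) → ℕ) : nfac l a ≠ 0 := by
  unfold nfac
  refine mul_ne_zero (Nat.factorial_ne_zero _) (Finset.prod_ne_zero_iff.2 fun i _ => Nat.factorial_ne_zero _)

theorem mzv_word_ne_zero (l : ℕ) (a : Fin (l + 1) → ℕ) : (mzv (word l a) : ℂ) ≠ 0 := by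
  have := Hv_ne_zero l a
  rw [Hv] at this
  exact right_ne_zero_of_mul this

theorem pi_sq_transcendental {K : Type*} [Field K] [Algebra K ℂ]
    (hK : Transcendental K (Real.pi : ℂ)) : Transcendental K ((Real.pi : ℂ) ^ 2) := by
  intro h
  exact hK (IsAlgebraic.of_pow (by norm_num) h)

/-- The relation between the `H a`. -/
theorem Hv_relation (l : ℕ) (S : Finset (Fin (l + 1) → ℕ)) (c : (Fin (l + 1) → ℕ) → ℚ)
    (L : ℕ) (hSL : ∀ p ∈ S, ∑ i, p i ≤ L)
    (hrel : ∀ s : Fin (l + 1) → ℝ, ∑ i, s i = 1 → ∑ p ∈ S, (c p : ℝ) * ∏ i, s i ^ (2 * p i) = 0)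
    (a : Fin (l + 1) → ℕ) :
    ∑ p ∈ S, (c p : ℂ) * (((Real.pi : ℂ) ^ 2) ^ (L - ∑ i, p i) * Hv l (a + p)) = 0 := by
  have h1 : ∑ p ∈ S, (c p : ℝ) * ∫ x, ∏ i, sp l x i ^ (2 * (a + p) i) ∂(nu l) = 0 := by
    have h2 : ∀ p ∈ S, (c p : ℝ) * ∫ x, ∏ i, sp l x i ^ (2 * (a + p) i) ∂(nu l) =
        ∫ x, (c p : ℝ) * ∏ i, sp l x i ^ (2 * (a + p) i) ∂(nu l) := fun p _ =>
      (integral_const_mul _ _).symm
    rw [Finset.sum_congr rfl h2, ← integral_finsetSum _ (fun p _ =>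
      (sp_prod_integrable l (a + p)).const_mul _)]
    have h3 : ∀ x, ∑ p ∈ S, (c p : ℝ) * ∏ i, sp l x i ^ (2 * (a + p) i) = 0 := by
      intro x
      have h4 := hrel (sp l x) (sp_sum l x)
      calc ∑ p ∈ S, (c p : ℝ) * ∏ i, sp l x i ^ (2 * (a + p) i)
          = (∏ i, sp l x i ^ (2 * a i)) * ∑ p ∈ S, (c p : ℝ) * ∏ i, sp l x i ^ (2 * p i) := by
            rw [Finset.mul_sum]
            refine Finset.sum_congr rfl fun p _ => ?_
            rw [mul_left_comm, ← Finset.prod_mul_distrib]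
            congr 1
            refine Finset.prod_congr rfl fun i _ => ?_
            rw [← pow_add, Pi.add_apply, mul_add]
        _ = 0 := by rw [h4, mul_zero]
    exact (integral_congr_ae (Filter.Eventually.of_forall h3)).trans (integral_zero _ _)
  have h5 : ∑ p ∈ S, (c p : ℂ) * (((Real.pi : ℂ) ^ 2) ^ (L - ∑ i, p i) * Hv l (a + p)) =
      ((Real.pi : ℂ) ^ 2) ^ (L + ∑ i, a i) *
        ((∑ p ∈ S, (c p : ℝ) * ∫ x, ∏ i, sp l x i ^ (2 * (a + p) i) ∂(nu l) : ℝ) : ℂ) := by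
    rw [Complex.ofReal_sum, Finset.mul_sum]
    refine Finset.sum_congr rfl fun p hp => ?_
    rw [Hv_eq]
    have hs : ∑ i, (a + p) i = ∑ i, a i + ∑ i, p i := by
      simp only [Pi.add_apply]
      exact Finset.sum_add_distrib
    have hL := hSL p hp
    have h6 : L + ∑ i, a i = (L - ∑ i, p i) + ∑ i, (a + p) i := by
      rw [hs]; omega
    rw [h6, pow_add]
    push_cast
    ring
  rw [h5, h1]
  simp

/-- Windows: the Hoffman values `ζ(word (a + p))`, `|p| < m`, span a space of dimension at least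
`m / 2 ^ l`. -/
theorem windows (l m : ℕ) (a : Fin (l + 1) → ℕ) {K : Type*} [Field K] [Algebra K ℂ]
    (hK : Transcendental K (Real.pi : ℂ)) (V : Submodule K ℂ) [FiniteDimensional K V]
    (hV : ∀ p : Fin (l + 1) → ℕ, ∑ i, p i < m → (mzv (word l (a + p)) : ℂ) ∈ V) :
    m ≤ 2 ^ l * Module.finrank K V := by
  obtain ⟨S, c, hS0, hc0, hSL, hrel⟩ := exists_even_relation l
  refine window_abstract (pi_sq_transcendental hK) (l + 1) (2 ^ l) S c hS0 hc0 hSL (Hv l)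
    (Hv_relation l S c (2 ^ l) hSL hrel) V a (Hv_ne_zero l a) m ?_
  intro p hp
  rw [Hv, ← nsmul_eq_mul]
  exact V.smul_of_tower_mem _ (hV p hp)

end Pool.HB89
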