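import Mathlib

namespace Pool.HB89

open Finset

/-- moving the first word of the tuple to the fixed family -/
theorem E4_move {K : Type*} [Field K] [Algebra K ℂ] {s : ℕ} {ι : Type} (u : ι → ℂ)
    (z : List ℕ → ℂ) (w : Fin (s + 1) → List ℕ)
    (h : LinearIndependent K (Sum.elim (fun o : Option ι => Option.casesOn' o (z (w 0)) u)
      (fun i : Fin s => z (w i.succ)))) :
    LinearIndependent K (Sum.elim u (fun i => z (w i))) := by
  let e : Option ι ⊕ Fin s → ι ⊕ Fin (s + 1) := fun o =>
    match o with
    | Sum.inl none => Sum.inr 0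
    | Sum.inl (some i) => Sum.inl i
    | Sum.inr j => Sum.inr j.succ
  have he : Function.Bijective e := by
    constructor
    · rintro ((_ | i) | j) ((_ | i') | j') h
      · rfl
      · simp [e] at h
      · simp only [e, Sum.inr.injEq] at h
        exact absurd h.symm (Fin.succ_ne_zero j')
      · simp [e] at h
      · simp only [e, Sum.inl.injEq] at h
        rw [h]
      · simp [e] at h
      · simp only [e, Sum.inr.injEq] at h
        exact absurd h (Fin.succ_ne_zero j)
      · simp [e] at h
      · simp only [e, Sum.inr.injEq] at h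
        rw [Fin.succ_injective _ h]
    · rintro (i | j)
      · exact ⟨Sum.inl (some i), rfl⟩
      · refine Fin.cases ?_ (fun j => ?_) j
        · exact ⟨Sum.inl none, rfl⟩
        · exact ⟨Sum.inr j, rfl⟩
  have hcomp : (Sum.elim u (fun i => z (w i))) ∘ e =
      Sum.elim (fun o : Option ι => Option.casesOn' o (z (w 0)) u)
        (fun i : Fin s => z (w i.succ)) := by
    funext x
    rcases x with (_ | i) | j <;> rfl
  rw [← hcomp] at h
  exact (linearIndependent_equiv' (Equiv.ofBijective e he) rfl).1 h

theorem tuples_general {K : Type*} [Field K] [Algebra K ℂ] (z : List ℕ → ℂ) (ε : ℝ) (hε : 0 ≤ ε)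
    (n : ℕ) (s : ℕ) : ∀ (ι : Type) [Fintype ι] (u : ι → ℂ), LinearIndependent K u →
      ∀ H : Fin s → Finset (List ℕ), Fintype.card ι + s ≤ n →
      (∀ i, ∀ V : Submodule K ℂ, FiniteDimensional K V → Module.finrank K V ≤ n →
        ((({w ∈ (H i : Set (List ℕ)) | z w ∈ V}).ncard : ℕ) : ℝ) ≤ ε * (H i).card) →
      ((({w : Fin s → List ℕ | (∀ i, w i ∈ H i) ∧
        ¬ LinearIndependent K (Sum.elim u (fun i => z (w i)))}).ncard : ℕ) : ℝ) ≤
        s * ε * ∏ i, ((H i).card : ℝ) := by
  classical
  induction s with
  | zero =>
    intro ι _ u hu H _ _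
    have : {w : Fin 0 → List ℕ | (∀ i, w i ∈ H i) ∧
        ¬ LinearIndependent K (Sum.elim u (fun i => z (w i)))} = ∅ := by
      ext w
      simp only [Set.mem_ofPred_eq, Set.mem_empty_iff_false, iff_false, not_and, not_not]
      intro _
      have he : (Sum.elim u (fun i : Fin 0 => z (w i))) =
          u ∘ (Equiv.sumEmpty ι (Fin 0)) := by
        funext x
        rcases x with i | j
        · rfl
        · exact j.elim0
      rw [he]
      exact hu.comp _ (Equiv.sumEmpty ι (Fin 0)).injective
    rw [this]
    simp
  | succ s ih =>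
    intro ι _ u hu H hn h
    set B : Set (Fin (s + 1) → List ℕ) := {w | (∀ i, w i ∈ H i) ∧
        ¬ LinearIndependent K (Sum.elim u (fun i => z (w i)))} with hB
    have hBfin : B.Finite := by
      refine (Finset.finite_toSet (Fintype.piFinset H)).subset ?_
      intro w hw
      rw [Finset.mem_coe, Fintype.mem_piFinset]
      exact hw.1
    set Bf := hBfin.toFinset with hBf
    have hcard : B.ncard = Bf.card := Set.ncard_eq_toFinset_card B hBfin
    obtain ⟨P, hP⟩ : ∃ P : ℝ, P = ∏ i : Fin s, ((H i.succ).card : ℝ) := ⟨_, rfl⟩
    have hP0 : 0 ≤ P := by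
      rw [hP]
      exact Finset.prod_nonneg fun _ _ => Nat.cast_nonneg _
    have hPtot : ∏ i, ((H i).card : ℝ) = (H 0).card * P := by
      rw [hP]
      exact Fin.prod_univ_succ _
    -- the fibres
    set V : Submodule K ℂ := Submodule.span K (Set.range u) with hV
    have hVfd : FiniteDimensional K V := FiniteDimensional.span_of_finite K (Set.finite_range u)
    have hVr : Module.finrank K V ≤ n :=
      (finrank_range_le_card u).trans (by omega)
    have hfib : ∀ w0 ∈ H 0, ((Bf.filter (fun w => w 0 = w0)).card : ℝ) ≤
        (if z w0 ∈ V then P else 0) + s * ε * P := by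
      intro w0 hw0
      by_cases hz : z w0 ∈ V
      · rw [if_pos hz]
        have h1 : (Bf.filter (fun w => w 0 = w0)).card ≤
            (Fintype.piFinset (fun i : Fin s => H i.succ)).card := by
          refine Finset.card_le_card_of_injOn (fun w => Fin.tail w) ?_ ?_
          · intro w hw
            rw [Finset.mem_coe, Finset.mem_filter, hBf, Set.Finite.mem_toFinset] at hw
            rw [Finset.mem_coe, Fintype.mem_piFinset]
            intro i
            exact hw.1.1 i.succ
          · intro w hw w' hw' hww
            rw [Finset.mem_coe, Finset.mem_filter] at hw hw'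
            rw [← Fin.cons_self_tail w, ← Fin.cons_self_tail w']
            simp only at hww
            rw [hww, hw.2, hw'.2]
        rw [Fintype.card_piFinset] at h1
        have h2 : ((Bf.filter (fun w => w 0 = w0)).card : ℝ) ≤ P := by
          rw [hP, ← Nat.cast_prod]
          exact Nat.cast_le.2 h1
        have h3 : 0 ≤ (s : ℝ) * ε * P := mul_nonneg (mul_nonneg (Nat.cast_nonneg _) hε) hP0
        exact h2.trans (le_add_of_nonneg_right h3)
      · rw [if_neg hz, zero_add]
        have hu' : LinearIndependent K (fun o : Option ι => (Option.casesOn' o (z w0) u : ℂ)) := by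
          rw [linearIndependent_option']
          exact ⟨hu, hz⟩
        have h1 := ih (Option ι) (fun o : Option ι => (Option.casesOn' o (z w0) u : ℂ)) hu'
          (fun i => H i.succ) (by
            rw [Fintype.card_option]; omega) (fun i => h i.succ)
        rw [← hP] at h1
        refine le_trans ?_ h1
        rw [Nat.cast_le, ← Set.ncard_coe_finset]
        refine Set.ncard_le_ncard_of_injOn (fun w => Fin.tail w) ?_ ?_ ?_
        · intro w hw
          rw [Finset.mem_coe, Finset.mem_filter, hBf, Set.Finite.mem_toFinset] at hw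
          refine ⟨fun i => hw.1.1 i.succ, fun hcon => hw.1.2 ?_⟩
          refine E4_move u z w ?_
          rw [hw.2]
          exact hcon
        · intro w hw w' hw' hww
          rw [Finset.mem_coe, Finset.mem_filter] at hw hw'
          rw [← Fin.cons_self_tail w, ← Fin.cons_self_tail w']
          simp only at hww
          rw [hww, hw.2, hw'.2]
        · refine (Finset.finite_toSet (Fintype.piFinset (fun i : Fin s => H i.succ))).subset ?_
          intro w hw
          rw [Finset.mem_coe, Fintype.mem_piFinset]
          exact hw.1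
    have hsum : Bf.card = ∑ w0 ∈ H 0, (Bf.filter (fun w => w 0 = w0)).card := by
      refine Finset.card_eq_sum_card_fiberwise ?_
      intro w hw
      rw [Finset.mem_coe, hBf, Set.Finite.mem_toFinset] at hw
      exact hw.1 0
    have hzero : (∑ w0 ∈ H 0, if z w0 ∈ V then P else 0) ≤ ε * (H 0).card * P := by
      have h1 := h 0 V hVfd hVr
      have h2 : ({w ∈ (H 0 : Set (List ℕ)) | z w ∈ V}).ncard =
          ((H 0).filter (fun w => z w ∈ V)).card := by
        rw [← Set.ncard_coe_finset]
        congr 1
        ext w
        simp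
      rw [h2] at h1
      rw [← Finset.sum_filter, Finset.sum_const, nsmul_eq_mul]
      exact mul_le_mul_of_nonneg_right h1 hP0
    rw [hcard, hsum, hPtot]
    push_cast
    calc ∑ w0 ∈ H 0, ((Bf.filter (fun w => w 0 = w0)).card : ℝ)
        ≤ ∑ w0 ∈ H 0, ((if z w0 ∈ V then P else 0) + s * ε * P) := Finset.sum_le_sum hfib
      _ = (∑ w0 ∈ H 0, if z w0 ∈ V then P else 0) + (H 0).card * (s * ε * P) := by
          rw [Finset.sum_add_distrib, Finset.sum_const, nsmul_eq_mul]
      _ ≤ ε * (H 0).card * P + (H 0).card * (s * ε * P) := by linarith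
      _ = ((s : ℝ) + 1) * ε * ((H 0).card * P) := by ring

end Pool.HB89
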