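import Pool.Agent.LibHof81.A1
import Pool.Agent.LibHof81.D2
import Pool.Agent.LibHof81.V3
import Pool.Agent.LibHof81.V4
import Pool.Agent.LibHB89.E3

set_option autoImplicit false

namespace Pool.HB89

open Polynomial MeasureTheory
open Pool.Agent.LibHof81 (mon lev Good good_density good_of_class exists_differences exists_colour)

/-- a space of dimension `≤ d` is contained in the span of `d` vectors -/
theorem exists_le_span {K : Type*} [Field K] [Algebra K ℂ] (d : ℕ) (V : Submodule K ℂ)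
    [FiniteDimensional K V] (hV : Module.finrank K V ≤ d) :
    ∃ w : Fin d → ℂ, V ≤ Submodule.span K (Set.range w) := by
  classical
  set b := Module.finBasis K V with hb
  refine ⟨fun i => if h : (i : ℕ) < Module.finrank K V then ((b ⟨i, h⟩ : V) : ℂ) else 0, ?_⟩
  intro z hz
  have h1 : (⟨z, hz⟩ : V) = ∑ i, b.repr ⟨z, hz⟩ i • b i := (b.sum_repr _).symm
  have h2 : z = ∑ i, b.repr ⟨z, hz⟩ i • ((b i : V) : ℂ) := by
    have := congrArg (Submodule.subtype V) h1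
    rw [map_sum] at this
    simpa using this
  rw [h2]
  refine Submodule.sum_mem _ (fun i _ => Submodule.smul_mem _ _ (Submodule.subset_span ?_))
  refine ⟨⟨i, i.2.trans_le hV⟩, ?_⟩
  simp only
  rw [dif_pos i.2]

/-- helper81's exceptional bound, uniform in everything. -/
theorem exceptional_square (d : ℕ) (ε : ℝ) (hε : 0 < ε) :
    ∃ M₀ : ℕ, ∀ M ≥ M₀, ∀ (K : Type) [Field K] [Algebra K ℂ] (y : ℂ) (_ : Transcendental K y)
      (H : ℕ × ℕ → ℂ) (_ : ∀ p, H p ≠ 0) (c : ℕ × ℕ → ℚ) (_ : ∀ p, c p ≠ 0) (Λ : ℚ[X] →ₗ[ℚ] ℂ)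
      (_ : ∀ p, Λ (mon p) = (c p : ℂ) * H p * y ^ lev p) (V : Submodule K ℂ)
      (_ : FiniteDimensional K V) (_ : Module.finrank K V ≤ d),
      ({p : ℕ × ℕ | (p.1 < M ∧ p.2 < M) ∧ H p ∈ V}.ncard : ℝ) ≤ ε * (M : ℝ) ^ 2 := by
  classical
  set k : ℕ := 2 ^ (d ^ 2) with hk
  have hkpos : (0 : ℝ) < (k : ℝ) := by
    rw [hk]; positivity
  obtain ⟨M₀, hM₀⟩ := good_density (ε / k) (by positivity)
  refine ⟨M₀, fun M hM K _ _ y hy H hH c hc Λ hΛ V hVf hVd => ?_⟩
  obtain ⟨w, hw⟩ := exists_le_span d V hVd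
  obtain ⟨Δ, hΔc, hΔ0, hΔ⟩ := exists_differences y hy d w
  obtain ⟨χ, hχ⟩ := exists_colour Δ (d ^ 2) hΔc hΔ0
  set E : Finset (ℕ × ℕ) := (Finset.range M ×ˢ Finset.range M).filter
    (fun p => H p ∈ Submodule.span K (Set.range w)) with hE
  have hEset : {p : ℕ × ℕ | (p.1 < M ∧ p.2 < M) ∧ H p ∈ V} ⊆ (E : Set (ℕ × ℕ)) := by
    intro p hp
    rw [hE, Finset.coe_filter]
    refine ⟨?_, hw hp.2⟩
    rw [Finset.mem_product, Finset.mem_range, Finset.mem_range]
    exact hp.1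
  have hle := Set.ncard_le_ncard hEset (Finset.finite_toSet _)
  rw [Set.ncard_coe_finset] at hle
  refine (Nat.cast_le.2 hle).trans ?_
  have hclass : ∀ i : Fin k, ((E.filter (fun p => χ (lev p) = i)).card : ℝ) ≤
      ε / k * (M : ℝ) ^ 2 := by
    intro i
    apply hM₀ M hM
    · refine good_of_class y H hH c hc Λ hΛ (Submodule.span K (Set.range w)) Δ hΔ _ ?_ ?_
      · intro p hp
        have := (Finset.mem_filter.1 (Finset.mem_coe.1 hp)).1
        exact (Finset.mem_filter.1 this).2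
      · intro p hp q hq hlt hmem
        have h1 := (Finset.mem_filter.1 (Finset.mem_coe.1 hp)).2
        have h2 := (Finset.mem_filter.1 (Finset.mem_coe.1 hq)).2
        exact hχ _ _ hlt hmem (h1.trans h2.symm)
    · intro p hp
      have h1 := (Finset.mem_filter.1 (Finset.mem_filter.1 hp).1).1
      rw [Finset.mem_product, Finset.mem_range, Finset.mem_range] at h1
      exact h1
  have hsum : E.card = ∑ i : Fin k, (E.filter (fun p => χ (lev p) = i)).card :=
    Finset.card_eq_sum_card_fiberwise (fun p _ => Finset.mem_coe.2 (Finset.mem_univ _))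
  rw [hsum]
  push_cast
  calc ∑ i : Fin k, ((E.filter (fun p => χ (lev p) = i)).card : ℝ)
      ≤ ∑ _i : Fin k, ε / k * (M : ℝ) ^ 2 := Finset.sum_le_sum (fun i _ => hclass i)
    _ = ε * (M : ℝ) ^ 2 := by
        rw [Finset.sum_const, Finset.card_univ, Fintype.card_fin, nsmul_eq_mul]
        field_simp

/-- polynomials in `s₀` are integrable -/
theorem E6_int (a : Fin 2 → ℕ) (q : ℚ[X]) :
    Integrable (fun x => (∏ i, sp 1 x i ^ (2 * a i)) * aeval (sp 1 x 0) q) (nu 1) := by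
  induction q using Polynomial.induction_on' with
  | add p q hp hq =>
    simp only [map_add, mul_add]
    exact hp.add hq
  | monomial n r =>
    simp only [Polynomial.aeval_monomial]
    have h1 : Measurable fun x : Fin 1 → ℝ => (∏ i, sp 1 x i ^ (2 * a i)) *
        ((algebraMap ℚ ℝ) r * sp 1 x 0 ^ n) :=
      (sp_prod_measurable 1 a).mul
        (((measurable_pi_iff.1 (sp_measurable 1) 0).pow_const n).const_mul _)
    refine Integrable.of_bound h1.aestronglyMeasurable |(algebraMap ℚ ℝ) r| ?_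
    filter_upwards [sp_nonneg 1, sp_le_one 1] with x hx hx1
    rw [Real.norm_eq_abs, abs_mul, abs_mul, Finset.abs_prod]
    have h2 : ∏ i, |sp 1 x i ^ (2 * a i)| ≤ 1 := by
      refine Finset.prod_le_one (fun i _ => abs_nonneg _) fun i _ => ?_
      rw [abs_of_nonneg (pow_nonneg (hx i) _)]
      exact pow_le_one₀ (hx i) (hx1 i)
    have h3 : |sp 1 x 0 ^ n| ≤ 1 := by
      rw [abs_of_nonneg (pow_nonneg (hx 0) _)]
      exact pow_le_one₀ (hx 0) (hx1 0)
    have h4 : 0 ≤ ∏ i, |sp 1 x i ^ (2 * a i)| := Finset.prod_nonneg fun i _ => abs_nonneg _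
    have h5 : |(algebraMap ℚ ℝ) r| * |sp 1 x 0 ^ n| ≤ |(algebraMap ℚ ℝ) r| := by
      nlinarith [abs_nonneg ((algebraMap ℚ ℝ) r)]
    calc (∏ i, |sp 1 x i ^ (2 * a i)|) * (|(algebraMap ℚ ℝ) r| * |sp 1 x 0 ^ n|)
        ≤ 1 * |(algebraMap ℚ ℝ) r| := by gcongr
      _ = |(algebraMap ℚ ℝ) r| := one_mul _

/-- the functional -/
noncomputable def E6_L (a : Fin 2 → ℕ) : ℚ[X] →ₗ[ℚ] ℂ where
  toFun q := ((Real.pi : ℂ) ^ 2) ^ (∑ i, a i) *
    ((∫ x, (∏ i, sp 1 x i ^ (2 * a i)) * aeval (sp 1 x 0) q ∂(nu 1) : ℝ) : ℂ)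
  map_add' p q := by
    simp only [map_add, mul_add]
    rw [integral_add (E6_int a p) (E6_int a q)]
    push_cast
    ring
  map_smul' r q := by
    have h1 : ∀ x, (∏ i, sp 1 x i ^ (2 * a i)) * aeval (sp 1 x 0) (r • q) =
        (r : ℝ) * ((∏ i, sp 1 x i ^ (2 * a i)) * aeval (sp 1 x 0) q) := by
      intro x
      rw [map_smul, Rat.smul_def]
      ring
    simp only [h1]
    rw [integral_const_mul]
    rw [RingHom.id_apply, Rat.smul_def]
    push_cast
    ring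

theorem E6_L_mon (a : Fin 2 → ℕ) (p : ℕ × ℕ) :
    E6_L a (mon p) = ((nfac 1 (a + ![p.1, p.2]) : ℚ) : ℂ) *
      (mzv (word 1 (a + ![p.1, p.2])) : ℂ) * (((Real.pi : ℂ) ^ 2)⁻¹) ^ lev p := by
  have hpi : ((Real.pi : ℝ) : ℂ) ≠ 0 := by exact_mod_cast Real.pi_ne_zero
  have h1 := Hv_eq 1 (a + ![p.1, p.2])
  rw [Hv] at h1
  have h2 : ∀ x, (∏ i, sp 1 x i ^ (2 * a i)) * aeval (sp 1 x 0) (mon p) =
      ∏ i, sp 1 x i ^ (2 * (a + ![p.1, p.2]) i) := by
    intro x
    have h3 : sp 1 x 1 = 1 - sp 1 x 0 := by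
      have := sp_sum 1 x
      rw [Fin.sum_univ_two] at this
      linarith
    have h4 : aeval (sp 1 x 0) (mon p) = sp 1 x 0 ^ (2 * p.1) * (1 - sp 1 x 0) ^ (2 * p.2) := by
      unfold mon
      simp
    rw [h4, Fin.prod_univ_two, Fin.prod_univ_two, ← h3]
    simp only [Pi.add_apply, Matrix.cons_val_zero, Matrix.cons_val_one]
    rw [mul_add, mul_add, pow_add, pow_add]
    ring
  show ((Real.pi : ℂ) ^ 2) ^ (∑ i, a i) *
    ((∫ x, (∏ i, sp 1 x i ^ (2 * a i)) * aeval (sp 1 x 0) (mon p) ∂(nu 1) : ℝ) : ℂ) = _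
  simp only [h2]
  have h5 : (((nfac 1 (a + ![p.1, p.2]) : ℕ) : ℚ) : ℂ) = ((nfac 1 (a + ![p.1, p.2]) : ℕ) : ℂ) := by
    push_cast
    rfl
  rw [h5, h1]
  have h6 : ∑ i, (a + ![p.1, p.2]) i = ∑ i, a i + lev p := by
    rw [Fin.sum_univ_two, Fin.sum_univ_two]
    simp only [Pi.add_apply, Matrix.cons_val_zero, Matrix.cons_val_one, lev]
    ring
  rw [h6, pow_add, inv_pow]
  have h7 : ((Real.pi : ℂ) ^ 2) ^ lev p ≠ 0 := pow_ne_zero _ (pow_ne_zero _ hpi)
  field_simp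

/-- one three: the exceptional set has density zero in every large square. -/
theorem windows_one (v : ℕ) (ε : ℝ) (hε : 0 < ε) :
    ∃ M₀ : ℕ, ∀ M ≥ M₀, ∀ (a : Fin 2 → ℕ) (K : Type) [Field K] [Algebra K ℂ]
      (_ : Transcendental K (Real.pi : ℂ)) (V : Submodule K ℂ) (_ : FiniteDimensional K V)
      (_ : Module.finrank K V ≤ v),
      ({p : Fin 2 → ℕ | (∀ i, p i < M) ∧ (mzv (word 1 (a + p)) : ℂ) ∈ V}.ncard : ℝ) ≤
        ε * (M : ℝ) ^ 2 := by
  obtain ⟨M₀, hM₀⟩ := exceptional_square v ε hε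
  refine ⟨M₀, fun M hM a K _ _ hK V hVf hV => ?_⟩
  have hy : Transcendental K (((Real.pi : ℂ) ^ 2)⁻¹) := by
    intro h
    exact pi_sq_transcendental hK (IsAlgebraic.inv_iff.1 h)
  have h1 := hM₀ M hM K _ hy (fun p => (mzv (word 1 (a + ![p.1, p.2])) : ℂ))
    (fun p => mzv_word_ne_zero 1 _) (fun p => (nfac 1 (a + ![p.1, p.2]) : ℚ))
    (fun p => by exact_mod_cast nfac_ne_zero 1 _) (E6_L a) (fun p => E6_L_mon a p) V hVf hV
  refine le_trans ?_ h1
  rw [Nat.cast_le]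
  refine Set.ncard_le_ncard_of_injOn (fun p => (p 0, p 1)) ?_ ?_ ?_
  · intro p hp
    refine ⟨⟨hp.1 0, hp.1 1⟩, ?_⟩
    have : (![p 0, p 1] : Fin 2 → ℕ) = p := by
      funext i
      fin_cases i <;> rfl
    show (mzv (word 1 (a + ![p 0, p 1])) : ℂ) ∈ V
    rw [this]
    exact hp.2
  · intro p _ q _ hpq
    simp only [Prod.mk.injEq] at hpq
    funext i
    fin_cases i
    · exact hpq.1
    · exact hpq.2
  · refine (Finset.finite_toSet (Finset.range M ×ˢ Finset.range M)).subset ?_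
    intro p hp
    rw [Finset.mem_coe, Finset.mem_product, Finset.mem_range, Finset.mem_range]
    exact hp.1

end Pool.HB89
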