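import Pool.Agent.LibHB89.B4
import Pool.Agent.LibHB89.B6
import Pool.Agent.LibHB89.B6b
import Pool.Agent.LibHB89.B7

namespace Pool.HB89

open MeasureTheory Finset

/-- The dehomogenisation of `P` on the simplex `∑ s = 1`. -/
noncomputable def G1_deh {l : ℕ} (P : MvPolynomial (Fin (l + 1)) ℝ) : MvPolynomial (Fin l) ℝ :=
  MvPolynomial.bind₁ (Fin.cons (1 - ∑ j, MvPolynomial.X j) (fun j => MvPolynomial.X j)) P

theorem G1_eval {l : ℕ} (P : MvPolynomial (Fin (l + 1)) ℝ) (x : Fin l → ℝ) :
    MvPolynomial.eval x (G1_deh P) = MvPolynomial.eval (Fin.cons (1 - ∑ j, x j) x) P := by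
  have h := MvPolynomial.aeval_bind₁ x (Fin.cons (1 - ∑ j, MvPolynomial.X j)
    (fun j => MvPolynomial.X j) : Fin (l + 1) → MvPolynomial (Fin l) ℝ) P
  have e : ∀ {k : ℕ} (y : Fin k → ℝ) (q : MvPolynomial (Fin k) ℝ),
      MvPolynomial.aeval y q = MvPolynomial.eval y q := fun y q => by
    rw [← MvPolynomial.coe_aeval_eq_eval]; rfl
  simp only [e] at h
  unfold G1_deh
  rw [h]
  congr 1
  congr 1
  funext i
  refine Fin.cases ?_ (fun j => ?_) i
  · simp
  · simp

theorem G1_ne {l n : ℕ} {P : MvPolynomial (Fin (l + 1)) ℝ} (hhom : P.IsHomogeneous n)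
    (hP : P ≠ 0) : G1_deh P ≠ 0 := by
  intro h0
  have h1 : ∀ s : Fin (l + 1) → ℝ, ∑ i, s i = 1 → MvPolynomial.eval s P = 0 := by
    intro s hs
    have h2 := G1_eval P (fun j => s j.succ)
    rw [h0, map_zero] at h2
    have h3 : (Fin.cons (1 - ∑ j : Fin l, s j.succ) (fun j => s j.succ) : Fin (l + 1) → ℝ) = s := by
      funext i
      refine Fin.cases ?_ (fun j => ?_) i
      · rw [Fin.sum_univ_succ] at hs
        simp only [Fin.cons_zero]
        linarith
      · simp
    rw [h3] at h2
    exact h2.symm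
  have h2 : P * (∑ i, MvPolynomial.X i) = 0 := by
    apply MvPolynomial.funext
    intro s
    rw [map_mul, map_zero, map_sum]
    simp only [MvPolynomial.eval_X]
    by_cases hs : ∑ i, s i = 0
    · rw [hs, mul_zero]
    · have h3 := h1 (fun i => (∑ j, s j)⁻¹ * s i) (by
        rw [← Finset.mul_sum, inv_mul_cancel₀ hs])
      rw [B7_hom hhom] at h3
      rcases mul_eq_zero.1 h3 with h4 | h4
      · exact absurd h4 (pow_ne_zero _ (inv_ne_zero hs))
      · rw [h4, zero_mul]
  rcases mul_eq_zero.1 h2 with h3 | h3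
  · exact hP h3
  · have h4 := congrArg (MvPolynomial.eval (fun i : Fin (l + 1) => if i = 0 then (1 : ℝ) else 0)) h3
    rw [map_sum, map_zero] at h4
    simp at h4

open Classical in
/-- Level version of `zero_density` (`B7`): few `a` with `|a| = X` have a vanishing integral. -/
theorem zero_density_level {l : ℕ} {Ω : Type} [MeasurableSpace Ω] (ν : Measure Ω)
    [IsFiniteMeasure ν]
    (s : Ω → Fin (l + 1) → ℝ) (hs : Measurable s) (h0 : ∀ᵐ ω ∂ν, ∀ i, 0 ≤ s ω i)
    (h1 : ∀ᵐ ω ∂ν, ∑ i, s ω i = 1)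
    (hfull : ∀ p : Fin (l + 1) → ℝ, (∀ i, 0 < p i) → ∑ i, p i = 1 → ∀ ρ : ℝ, 0 < ρ →
      0 < ν {ω | dist (s ω) p < ρ})
    (n : ℕ) (P : MvPolynomial (Fin (l + 1)) ℝ) (hhom : P.IsHomogeneous n) (hP : P ≠ 0)
    (ε : ℝ) (hε : 0 < ε) :
    ∃ X₀ : ℕ, ∀ X : ℕ, X₀ ≤ X →
      ((((Finset.univ : Finset (Fin (l + 1))).piAntidiag X).filter
        (fun a => ∫ ω, (∏ i, s ω i ^ (2 * a i)) * MvPolynomial.eval (s ω) P ∂ν = 0)).card : ℝ)
          ≤ ε * X ^ l := by
  obtain ⟨η₁, hη₁, X₁, hX₁⟩ := count_small l (G1_deh P) (G1_ne hhom hP) (ε / 3) (by positivity)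
  obtain ⟨η₂, hη₂, X₂, hX₂⟩ := count_coord l (ε / (3 * 2 ^ l)) (by positivity)
  set η : ℝ := min (min η₁ η₂) (1 / 2) with hη
  have hη0 : 0 < η := lt_min (lt_min hη₁ hη₂) (by norm_num)
  have hηa : η ≤ η₁ := (min_le_left _ _).trans (min_le_left _ _)
  have hηb : η ≤ η₂ := (min_le_left _ _).trans (min_le_right _ _)
  have hηc : η ≤ 1 / 2 := min_le_right _ _
  obtain ⟨N, hN⟩ := conc ν s hs h0 h1 hfull (fun x => MvPolynomial.eval x P)
    (MvPolynomial.continuous_eval P) η hη0
  refine ⟨max (max X₁ X₂) (max 1 N), fun X hX => ?_⟩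
  have hXa : X₁ ≤ X := (le_max_left _ _).trans ((le_max_left _ _).trans hX)
  have hXb : X₂ ≤ X := (le_max_right _ _).trans ((le_max_left _ _).trans hX)
  have hXc : 1 ≤ X := (le_max_left _ _).trans ((le_max_right _ _).trans hX)
  have hXd : N ≤ X := (le_max_right _ _).trans ((le_max_right _ _).trans hX)
  have hX0 : (0 : ℝ) < X := by exact_mod_cast hXc
  have b1 := hX₁ X hXa
  have b2 := hX₂ (X + 1) (by omega)
  set S := (Finset.univ : Finset (Fin (l + 1))).piAntidiag X with hS
  have hmemS : ∀ a, a ∈ S ↔ ∑ i, a i = X := by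
    intro a
    rw [hS, Finset.mem_piAntidiag]
    simp
  set A1 := (Fintype.piFinset (fun _ : Fin l => range X)).filter
    (fun a => |MvPolynomial.eval (fun i => (a i : ℝ) / X) (G1_deh P)| < η₁) with hA1
  set A2 := (Fintype.piFinset (fun _ : Fin l => range (X + 1))).filter
    (fun a => ∃ i, (a i : ℝ) < η₂ * ((X + 1 : ℕ) : ℝ)) with hA2
  clear_value S A1 A2
  have hcov : ∀ a ∈ S.filter
      (fun a => ∫ ω, (∏ i, s ω i ^ (2 * a i)) * MvPolynomial.eval (s ω) P ∂ν = 0),
      a ∈ (S.filter fun a => (fun j : Fin l => a j.succ) ∈ A1) ∪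
        ((S.filter fun a => (fun j : Fin l => a j.succ) ∈ A2) ∪
          (S.filter fun a => (fun j : Fin l => a j.castSucc) ∈ A2)) := by
    intro a ha
    rw [Finset.mem_filter] at ha
    obtain ⟨haS, ha0⟩ := ha
    have hsum := (hmemS a).1 haS
    have hle : ∀ i, a i ≤ X := by
      intro i
      rw [← hsum]
      exact Finset.single_le_sum (f := a) (fun _ _ => Nat.zero_le _) (Finset.mem_univ i)
    rw [Finset.mem_union, Finset.mem_union, Finset.mem_filter, Finset.mem_filter,
      Finset.mem_filter]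
    by_cases hall : ∀ i, η * X ≤ a i
    · left
      refine ⟨haS, ?_⟩
      have hP1 : |MvPolynomial.eval (fun i => (a i : ℝ) / X) P| < η := by
        by_contra hcon
        refine hN a (by rw [hsum]; exact hXd) (fun i => by rw [hsum]; exact hall i) ?_ ha0
        rw [hsum]
        exact not_lt.1 hcon
      rw [hA1, Finset.mem_filter, Fintype.mem_piFinset]
      refine ⟨fun j => ?_, ?_⟩
      · rw [Finset.mem_range]
        have h3 : 0 < a 0 := by
          have h4 : (0 : ℝ) < a 0 := lt_of_lt_of_le (by positivity) (hall 0)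
          exact_mod_cast h4
        rw [Fin.sum_univ_succ] at hsum
        have h5 : a j.succ ≤ ∑ i : Fin l, a i.succ :=
          Finset.single_le_sum (f := fun i : Fin l => a i.succ) (fun _ _ => Nat.zero_le _)
            (Finset.mem_univ j)
        omega
      · rw [G1_eval]
        have h3 : (Fin.cons (1 - ∑ j : Fin l, (a j.succ : ℝ) / X)
            (fun j => (a j.succ : ℝ) / X) : Fin (l + 1) → ℝ) = fun i => (a i : ℝ) / X := by
          funext i
          refine Fin.cases ?_ (fun j => ?_) i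
          · rw [Fin.sum_univ_succ] at hsum
            have h4 : ((a 0 : ℝ)) + ∑ j : Fin l, (a j.succ : ℝ) = X := by exact_mod_cast hsum
            simp only [Fin.cons_zero]
            rw [← Finset.sum_div, eq_div_iff hX0.ne', sub_mul, div_mul_cancel₀ _ hX0.ne']
            linarith
          · simp
        rw [h3]
        exact lt_of_lt_of_le hP1 hηa
    · right
      push Not at hall
      obtain ⟨i, hi⟩ := hall
      have hi' : (a i : ℝ) < η₂ * ((X + 1 : ℕ) : ℝ) := by
        push_cast
        nlinarith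
      rcases Fin.eq_zero_or_eq_succ i with h3 | ⟨j, h3⟩
      · subst h3
        right
        refine ⟨haS, ?_⟩
        rw [hA2, Finset.mem_filter, Fintype.mem_piFinset]
        refine ⟨fun j => Finset.mem_range.2 (Nat.lt_succ_of_le (hle _)), ?_⟩
        rcases Nat.eq_zero_or_pos l with hl | hl
        · exfalso
          subst hl
          have h4 : a 0 = X := by simpa using hsum
          rw [h4] at hi
          nlinarith
        · exact ⟨⟨0, hl⟩, hi'⟩
      · subst h3
        left
        refine ⟨haS, ?_⟩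
        rw [hA2, Finset.mem_filter, Fintype.mem_piFinset]
        exact ⟨fun j => Finset.mem_range.2 (Nat.lt_succ_of_le (hle _)), j, hi'⟩
  have htail : ∀ B : Finset (Fin l → ℕ),
      (S.filter fun a => (fun j : Fin l => a j.succ) ∈ B).card ≤ B.card := by
    intro B
    refine Finset.card_le_card_of_injOn (fun a => fun j : Fin l => a j.succ)
      (fun a ha => (Finset.mem_filter.1 ha).2) ?_
    intro a ha b hb hab
    have ha1 := (hmemS a).1 (Finset.mem_filter.1 ha).1
    have hb1 := (hmemS b).1 (Finset.mem_filter.1 hb).1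
    rw [Fin.sum_univ_succ] at ha1 hb1
    have hab' : ∀ j : Fin l, a j.succ = b j.succ := fun j => congrFun hab j
    have h3 : ∑ j : Fin l, a j.succ = ∑ j : Fin l, b j.succ :=
      Finset.sum_congr rfl fun j _ => hab' j
    funext i
    refine Fin.cases ?_ (fun j => hab' j) i
    omega
  have hinit : ∀ B : Finset (Fin l → ℕ),
      (S.filter fun a => (fun j : Fin l => a j.castSucc) ∈ B).card ≤ B.card := by
    intro B
    refine Finset.card_le_card_of_injOn (fun a => fun j : Fin l => a j.castSucc)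
      (fun a ha => (Finset.mem_filter.1 ha).2) ?_
    intro a ha b hb hab
    have ha1 := (hmemS a).1 (Finset.mem_filter.1 ha).1
    have hb1 := (hmemS b).1 (Finset.mem_filter.1 hb).1
    rw [Fin.sum_univ_castSucc] at ha1 hb1
    have hab' : ∀ j : Fin l, a j.castSucc = b j.castSucc := fun j => congrFun hab j
    have h3 : ∑ j : Fin l, a j.castSucc = ∑ j : Fin l, b j.castSucc :=
      Finset.sum_congr rfl fun j _ => hab' j
    funext i
    refine Fin.lastCases ?_ (fun j => hab' j) i
    omega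
  have hcard := (Finset.card_le_card hcov).trans ((Finset.card_union_le _ _).trans
    (add_le_add (htail A1) ((Finset.card_union_le _ _).trans
      (add_le_add (htail A2) (hinit A2)))))
  have hcard' : ((S.filter
      (fun a => ∫ ω, (∏ i, s ω i ^ (2 * a i)) * MvPolynomial.eval (s ω) P ∂ν = 0)).card : ℝ) ≤
      (A1.card : ℝ) + ((A2.card : ℝ) + A2.card) := by exact_mod_cast hcard
  have b2' : (A2.card : ℝ) ≤ ε / 3 * X ^ l := by
    refine b2.trans ?_
    have h3 : (((X + 1 : ℕ) : ℝ)) ^ l ≤ 2 ^ l * X ^ l := by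
      rw [← mul_pow]
      refine pow_le_pow_left₀ (by positivity) ?_ l
      push_cast
      have : (1 : ℝ) ≤ X := by exact_mod_cast hXc
      linarith
    calc ε / (3 * 2 ^ l) * (((X + 1 : ℕ) : ℝ)) ^ l ≤ ε / (3 * 2 ^ l) * (2 ^ l * X ^ l) :=
          mul_le_mul_of_nonneg_left h3 (by positivity)
      _ = ε / 3 * X ^ l := by field_simp
  linarith

end Pool.HB89
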