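import Mathlib

namespace Pool.HB89

open Finset

/-- the level `|a| = k` -/
def Lev (l k : ℕ) : Finset (Fin (l + 1) → ℕ) := (Finset.univ : Finset (Fin (l + 1))).piAntidiag k

theorem mem_Lev {l k : ℕ} {a : Fin (l + 1) → ℕ} : a ∈ Lev l k ↔ ∑ i, a i = k := by
  unfold Lev
  rw [Finset.mem_piAntidiag]
  simp

/-- the shell `X ≤ |a| < X + T` -/
def Sh (l X T : ℕ) : Finset (Fin (l + 1) → ℕ) := (Finset.Ico X (X + T)).biUnion (Lev l)

theorem mem_Sh {l X T : ℕ} {a : Fin (l + 1) → ℕ} :
    a ∈ Sh l X T ↔ X ≤ ∑ i, a i ∧ ∑ i, a i < X + T := by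
  unfold Sh
  rw [Finset.mem_biUnion]
  constructor
  · rintro ⟨k, hk, ha⟩
    rw [mem_Lev] at ha
    rw [Finset.mem_Ico] at hk
    omega
  · intro h
    exact ⟨_, Finset.mem_Ico.2 h, mem_Lev.2 rfl⟩

theorem Lev_card_le (l k : ℕ) : (Lev l k).card ≤ (k + 1) ^ l := by
  classical
  have h1 : (Lev l k).card ≤ (Fintype.piFinset (fun _ : Fin l => range (k + 1))).card := by
    refine Finset.card_le_card_of_injOn (fun a => Fin.tail a) ?_ ?_
    · intro a ha
      have ha' := mem_Lev.1 (Finset.mem_coe.1 ha)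
      rw [Finset.mem_coe, Fintype.mem_piFinset]
      intro i
      rw [Finset.mem_range, Nat.lt_succ_iff, ← ha']
      exact Finset.single_le_sum (f := a) (fun _ _ => Nat.zero_le _) (Finset.mem_univ i.succ)
    · intro a ha b hb hab
      have ha' := mem_Lev.1 (Finset.mem_coe.1 ha)
      have hb' := mem_Lev.1 (Finset.mem_coe.1 hb)
      simp only at hab
      rw [Fin.sum_univ_succ] at ha' hb'
      have h2 : ∑ i : Fin l, a i.succ = ∑ i : Fin l, b i.succ :=
        Finset.sum_congr rfl fun i _ => congrFun hab i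
      have h3 : a 0 = b 0 := by omega
      rw [← Fin.cons_self_tail a, ← Fin.cons_self_tail b, hab, h3]
  rw [Fintype.card_piFinset] at h1
  simpa using h1

theorem le_Lev_card (l k : ℕ) : k ^ l ≤ l ^ l * (Lev l k).card := by
  classical
  rcases Nat.eq_zero_or_pos l with rfl | hl
  · have : (Lev 0 k).Nonempty := ⟨fun _ => k, mem_Lev.2 (by simp)⟩
    have := Finset.card_pos.2 this
    simpa using this
  have h1 : (Fintype.piFinset (fun _ : Fin l => range (k / l + 1))).card ≤ (Lev l k).card := by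
    have hle : ∀ a ∈ Fintype.piFinset (fun _ : Fin l => range (k / l + 1)), ∑ i, a i ≤ k := by
      intro a ha
      have h2 : ∑ i, a i ≤ ∑ _i : Fin l, k / l := Finset.sum_le_sum fun i _ => by
        have := Finset.mem_range.1 (Fintype.mem_piFinset.1 ha i)
        omega
      rw [Finset.sum_const, Finset.card_univ, Fintype.card_fin, smul_eq_mul] at h2
      exact h2.trans (Nat.mul_div_le k l)
    refine Finset.card_le_card_of_injOn (fun a => (Fin.cons (k - ∑ i, a i) a : Fin (l + 1) → ℕ)) ?_ ?_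
    · intro a ha
      have := hle a (Finset.mem_coe.1 ha)
      rw [Finset.mem_coe, mem_Lev, Fin.sum_univ_succ]
      simp only [Fin.cons_zero, Fin.cons_succ]
      omega
    · intro a _ b _ hab
      exact (Fin.cons_injective2 hab).2
  rw [Fintype.card_piFinset] at h1
  simp only [Finset.card_range, Finset.prod_const, Finset.card_univ, Fintype.card_fin] at h1
  calc k ^ l ≤ (l * (k / l + 1)) ^ l := by
        refine Nat.pow_le_pow_left ?_ l
        have := Nat.lt_mul_div_succ k hl
        rw [Nat.mul_comm] at this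
        have e : l * (k / l + 1) = (k / l + 1) * l := Nat.mul_comm _ _
        omega
    _ = l ^ l * (k / l + 1) ^ l := by rw [Nat.mul_pow]
    _ ≤ l ^ l * (Lev l k).card := Nat.mul_le_mul_left _ h1

theorem Lev_disjoint (l : ℕ) : ∀ s : Set ℕ, s.PairwiseDisjoint (Lev l) := by
  intro s i _ j _ hij
  rw [Function.onFun, Finset.disjoint_left]
  intro a ha hb
  exact hij ((mem_Lev.1 ha).symm.trans (mem_Lev.1 hb))

theorem Sh_card (l X T : ℕ) : (Sh l X T).card = ∑ k ∈ Finset.Ico X (X + T), (Lev l k).card :=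
  Finset.card_biUnion fun i _ j _ hij => Lev_disjoint l Set.univ (Set.mem_univ i) (Set.mem_univ j) hij

theorem le_Sh_card (l X T : ℕ) : T * X ^ l ≤ l ^ l * (Sh l X T).card := by
  rw [Sh_card, Finset.mul_sum]
  calc T * X ^ l = ∑ _k ∈ Finset.Ico X (X + T), X ^ l := by
        rw [Finset.sum_const, Nat.card_Ico, smul_eq_mul]
        congr 1
        omega
    _ ≤ ∑ k ∈ Finset.Ico X (X + T), l ^ l * (Lev l k).card := by
        refine Finset.sum_le_sum fun k hk => ?_
        exact (Nat.pow_le_pow_left (Finset.mem_Ico.1 hk).1 l).trans (le_Lev_card l k)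

theorem T_le_Sh_card (l X T : ℕ) : T ≤ (Sh l X T).card := by
  rw [Sh_card]
  calc T = ∑ _k ∈ Finset.Ico X (X + T), 1 := by
        rw [Finset.sum_const, Nat.card_Ico, smul_eq_mul]
        omega
    _ ≤ _ := by
        refine Finset.sum_le_sum fun k _ => ?_
        rw [Nat.one_le_iff_ne_zero, Finset.card_ne_zero]
        refine ⟨fun i => if i = 0 then k else 0, mem_Lev.2 ?_⟩
        simp

theorem Sh_card_le (l X T : ℕ) : (Sh l X T).card ≤ T * (X + T) ^ l := by
  rw [Sh_card]
  calc ∑ k ∈ Finset.Ico X (X + T), (Lev l k).card ≤ ∑ _k ∈ Finset.Ico X (X + T), (X + T) ^ l := by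
        refine Finset.sum_le_sum fun k hk => (Lev_card_le l k).trans (Nat.pow_le_pow_left ?_ l)
        exact (Finset.mem_Ico.1 hk).2
    _ = T * (X + T) ^ l := by
        rw [Finset.sum_const, Nat.card_Ico, smul_eq_mul]
        congr 1
        omega

end Pool.HB89
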