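import Pool.Agent.LibHB89.G3

namespace Pool.HB89

open MeasureTheory Finset

theorem Sh_card_add (l X T T' : ℕ) :
    (Sh l X (T + T')).card = (Sh l X T).card + (Sh l (X + T) T').card := by
  rw [Sh_card, Sh_card, Sh_card, ← add_assoc]
  exact (Finset.sum_Ico_consecutive _ (Nat.le_add_right X T) (Nat.le_add_right (X + T) T')).symm

open Classical in
theorem Sh_filter_add (l X T T' : ℕ) (E : (Fin (l + 1) → ℕ) → Prop) :
    ((Sh l X (T + T')).filter E).card ≤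
      ((Sh l X T).filter E).card + ((Sh l (X + T) T').filter E).card := by
  refine le_trans (Finset.card_le_card ?_) (Finset.card_union_le _ _)
  intro a ha
  rw [Finset.mem_filter, mem_Sh] at ha
  rw [Finset.mem_union, Finset.mem_filter, Finset.mem_filter, mem_Sh, mem_Sh]
  by_cases h : ∑ i, a i < X + T
  · exact Or.inl ⟨⟨ha.1.1, h⟩, ha.2⟩
  · exact Or.inr ⟨⟨by omega, by omega⟩, ha.2⟩

open Classical in
theorem shell_extend (l T₁ X₁ : ℕ) (hT₁ : 0 < T₁) (δ : ℝ)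
    (E : (Fin (l + 1) → ℕ) → Prop)
    (h : ∀ T, T₁ ≤ T → T < 2 * T₁ → ∀ X, X₁ ≤ X →
      (((Sh l X T).filter E).card : ℝ) ≤ δ * (Sh l X T).card) :
    ∀ T, T₁ ≤ T → ∀ X, X₁ ≤ X →
      (((Sh l X T).filter E).card : ℝ) ≤ δ * (Sh l X T).card := by
  intro T
  induction T using Nat.strong_induction_on with
  | _ T ih =>
    intro hT X hX
    by_cases h2 : T < 2 * T₁
    · exact h T hT h2 X hX
    · obtain ⟨T', rfl⟩ : ∃ T', T = T₁ + T' := ⟨T - T₁, by omega⟩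
      have h3 := h T₁ le_rfl (by omega) X hX
      have h4 := ih T' (by omega) (by omega) (X + T₁) (by omega)
      have h5 : (((Sh l X (T₁ + T')).filter E).card : ℝ) ≤
          (((Sh l X T₁).filter E).card : ℝ) + (((Sh l (X + T₁) T').filter E).card : ℝ) := by
        exact_mod_cast Sh_filter_add l X T₁ T' E
      rw [Sh_card_add]
      push_cast
      linarith

open Classical in
theorem shell_all (l T₁ X₁ : ℕ) (δ : ℝ) (hδ : 0 < δ)
    (E : (Fin (l + 1) → ℕ) → Prop)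
    (h : ∀ T, T₁ ≤ T → ∀ X, X₁ ≤ X →
      (((Sh l X T).filter E).card : ℝ) ≤ δ / 2 * (Sh l X T).card) :
    ∀ T, T₁ + X₁ + ⌈((Sh l 0 X₁).card : ℝ) / (δ / 2)⌉₊ ≤ T → ∀ X,
      (((Sh l X T).filter E).card : ℝ) ≤ δ * (Sh l X T).card := by
  intro T hT X
  have hB : ((Sh l 0 X₁).card : ℝ) ≤ δ / 2 * T := by
    have h1 : ((Sh l 0 X₁).card : ℝ) / (δ / 2) ≤ T := by
      refine (Nat.le_ceil _).trans ?_
      exact_mod_cast (le_trans (Nat.le_add_left _ _) hT)
    rw [div_le_iff₀ (by positivity)] at h1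
    linarith
  have hTc : (T : ℝ) ≤ (Sh l X T).card := by exact_mod_cast T_le_Sh_card l X T
  rcases le_or_gt X₁ X with hX | hX
  · have := h T (by omega) X hX
    have h2 : (0 : ℝ) ≤ (Sh l X T).card := Nat.cast_nonneg _
    nlinarith
  · have h3 := h (T - (X₁ - X)) (by omega) X₁ le_rfl
    have h4 : ((Sh l X T).filter E).card ≤
        (Sh l 0 X₁).card + ((Sh l X₁ (T - (X₁ - X))).filter E).card := by
      refine le_trans (Finset.card_le_card ?_) (Finset.card_union_le _ _)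
      intro a ha
      rw [Finset.mem_filter, mem_Sh] at ha
      rw [Finset.mem_union, Finset.mem_filter, mem_Sh, mem_Sh]
      by_cases h : ∑ i, a i < X₁
      · exact Or.inl ⟨Nat.zero_le _, by omega⟩
      · exact Or.inr ⟨⟨by omega, by omega⟩, ha.2⟩
    have h5 : (Sh l X₁ (T - (X₁ - X))).card ≤ (Sh l X T).card := by
      refine Finset.card_le_card ?_
      intro a ha
      rw [mem_Sh] at ha ⊢
      omega
    have h4' : (((Sh l X T).filter E).card : ℝ) ≤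
        ((Sh l 0 X₁).card : ℝ) + (((Sh l X₁ (T - (X₁ - X))).filter E).card : ℝ) := by
      exact_mod_cast h4
    have h5' : ((Sh l X₁ (T - (X₁ - X))).card : ℝ) ≤ (Sh l X T).card := by exact_mod_cast h5
    nlinarith

open Classical in
/-- The density theorem in every shell of length at least `T₀`. -/
theorem level_density (l : ℕ) {Ω : Type} [MeasurableSpace Ω] (ν : Measure Ω)
    [IsFiniteMeasure ν]
    (s : Ω → Fin (l + 1) → ℝ) (hs : Measurable s) (h0 : ∀ᵐ ω ∂ν, ∀ i, 0 ≤ s ω i)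
    (h1 : ∀ᵐ ω ∂ν, ∑ i, s ω i = 1)
    (hfull : ∀ p : Fin (l + 1) → ℝ, (∀ i, 0 < p i) → ∑ i, p i = 1 → ∀ ρ : ℝ, 0 < ρ →
      0 < ν {ω | dist (s ω) p < ρ})
    (v : ℕ) (δ : ℝ) (hδ : 0 < δ) :
    ∃ T₀ : ℕ, ∀ T : ℕ, T₀ ≤ T → ∀ X : ℕ,
      ∀ (K : Type) [Field K] [Algebra K ℂ] (p : ℂ)
      (_ : Transcendental K p) (V : Submodule K ℂ) [FiniteDimensional K V]
      (_ : Module.finrank K V ≤ v),
      (((Sh l X T).filter
        (fun a => p ^ (2 * ∑ i, a i) * ((∫ ω, ∏ i, s ω i ^ (2 * a i) ∂ν : ℝ) : ℂ) ∈ V)).card : ℝ)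
          ≤ δ * (Sh l X T).card := by
  have hll : (0 : ℝ) < (l : ℝ) ^ l := by
    rcases Nat.eq_zero_or_pos l with rfl | hl
    · simp
    · positivity
  obtain ⟨T₀, hT₀⟩ := level_density_core l ν s hs h0 h1 hfull v (δ / 2 / (l : ℝ) ^ l)
    (by positivity)
  choose! XT hXT using hT₀
  set T₁ : ℕ := max T₀ 1 with hT₁
  set X₁ : ℕ := (Finset.range (2 * T₁)).sup XT with hX₁
  refine ⟨T₁ + X₁ + ⌈((Sh l 0 X₁).card : ℝ) / (δ / 2)⌉₊, fun T hT X K _ _ p hp V _ hV => ?_⟩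
  refine shell_all l T₁ X₁ δ hδ _ ?_ T hT X
  refine shell_extend l T₁ X₁ (lt_of_lt_of_le Nat.one_pos (le_max_right _ _)) (δ / 2) _ ?_
  intro T' hT'1 hT'2 X' hX'
  have h2 := hXT T' ((le_max_left _ _).trans hT'1) X'
    ((Finset.le_sup (f := XT) (Finset.mem_range.2 hT'2)).trans hX') K p hp V hV
  refine h2.trans ?_
  have h3 : (T' : ℝ) * (X' : ℝ) ^ l ≤ (l : ℝ) ^ l * (Sh l X' T').card := by
    exact_mod_cast le_Sh_card l X' T'
  calc δ / 2 / (l : ℝ) ^ l * (T' * (X' : ℝ) ^ l)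
      ≤ δ / 2 / (l : ℝ) ^ l * ((l : ℝ) ^ l * (Sh l X' T').card) := by gcongr
    _ = δ / 2 * (Sh l X' T').card := by field_simp

end Pool.HB89
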