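import Pool.Agent.LibHB89.G4
import Pool.Agent.LibHB89.Defs2
import Pool.Agent.LibHB89.E3
import Pool.Agent.LibHB89.E4
import Pool.Agent.LibHB89.C1a

namespace Pool.HB89

open MeasureTheory Finset
open scoped ENNReal Nat

theorem hoffmanIn_eq (l N m : ℕ) :
    hoffmanIn l N m = word l '' (Sh l ((N - 3 * l + 1) / 2)
      ((N + m - 3 * l + 1) / 2 - (N - 3 * l + 1) / 2) : Set (Fin (l + 1) → ℕ)) := by
  have h1 : hoffmanIn l N m = {w ∈ hoffman l (N + m) | N ≤ w.sum ∧ w.sum < N + m} := by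
    ext w
    constructor
    · rintro ⟨a, b, c, d⟩
      exact ⟨⟨a, b, d.le⟩, c, d⟩
    · rintro ⟨⟨a, b, _⟩, c, d⟩
      exact ⟨a, b, c, d⟩
  rw [h1, hoffman_eq]
  ext w
  constructor
  · rintro ⟨⟨a, _, rfl⟩, h3, h4⟩
    rw [word_sum] at h3 h4
    refine ⟨a, ?_, rfl⟩
    rw [Finset.mem_coe, mem_Sh]
    omega
  · rintro ⟨a, ha, rfl⟩
    rw [Finset.mem_coe, mem_Sh] at ha
    refine ⟨⟨a, ?_, rfl⟩, ?_⟩
    · show 2 * ∑ i, a i + 3 * l ≤ N + m
      omega
    · rw [word_sum]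
      omega

theorem hoffmanIn_finite (l N m : ℕ) : (hoffmanIn l N m).Finite := by
  rw [hoffmanIn_eq]
  exact (Finset.finite_toSet _).image _

/-- The values in a subspace, in every long weight window. -/
theorem subspace_window (l v : ℕ) (ε : ℝ) (hε : 0 < ε) :
    ∃ m₀ : ℕ, ∀ m : ℕ, m₀ ≤ m → ∀ N : ℕ, ∀ (K : Type) [Field K] [Algebra K ℂ],
      Transcendental K (Real.pi : ℂ) → ∀ V : Submodule K ℂ, FiniteDimensional K V →
        Module.finrank K V ≤ v →
        (({w ∈ hoffmanIn l N m | (mzv w : ℂ) ∈ V}).ncard : ℝ) ≤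
          ε * ((hoffmanIn l N m).ncard : ℝ) := by
  classical
  obtain ⟨T₀, hT₀⟩ := level_density l (nu l) (sp l) (sp_measurable l) (sp_nonneg l)
    (Filter.Eventually.of_forall (sp_sum l)) (fun p hp hs ρ hρ => nu_full l p hp hs ρ hρ)
    v ε hε
  refine ⟨2 * T₀ + 3 * l + 2, fun m hm N K _ _ hK V hVf hV => ?_⟩
  set X : ℕ := (N - 3 * l + 1) / 2 with hX
  set T : ℕ := (N + m - 3 * l + 1) / 2 - (N - 3 * l + 1) / 2 with hT
  have hTT : T₀ ≤ T := by omega
  have hmain := hT₀ T hTT X K (Real.pi : ℂ) hK V hV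
  have heq := hoffmanIn_eq l N m
  rw [← hX, ← hT] at heq
  have hcard : (hoffmanIn l N m).ncard = (Sh l X T).card := by
    rw [heq, Set.ncard_image_of_injective _ (word_injective l), Set.ncard_coe_finset]
  rw [hcard]
  refine le_trans ?_ hmain
  rw [Nat.cast_le, ← Set.ncard_coe_finset]
  have hsub : {w ∈ hoffmanIn l N m | (mzv w : ℂ) ∈ V} ⊆
      word l '' (((Sh l X T).filter
          (fun a => (Real.pi : ℂ) ^ (2 * ∑ i, a i) *
            ((∫ ω, ∏ i, sp l ω i ^ (2 * a i) ∂(nu l) : ℝ) : ℂ) ∈ V) :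
              Finset (Fin (l + 1) → ℕ)) : Set (Fin (l + 1) → ℕ)) := by
    rintro w ⟨hw1, hw2⟩
    rw [heq] at hw1
    obtain ⟨a, ha, rfl⟩ := hw1
    refine ⟨a, ?_, rfl⟩
    rw [Finset.mem_coe, Finset.mem_filter]
    refine ⟨Finset.mem_coe.1 ha, ?_⟩
    have h1 := Hv_eq l a
    rw [← pow_mul] at h1
    rw [← h1, Hv, ← nsmul_eq_mul]
    exact V.smul_of_tower_mem _ hw2
  refine le_trans (Set.ncard_le_ncard hsub ((Finset.finite_toSet _).image _)) ?_
  exact Set.ncard_image_le (Finset.finite_toSet _)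

/-- Tuples with prescribed numbers of threes in long weight windows, together with a fixed
independent family. -/
theorem tuples_window (n s : ℕ) (l : Fin s → ℕ) (ε : ℝ) (hε : 0 < ε) :
    ∃ m₀ : ℕ, ∀ N m : Fin s → ℕ, (∀ i, m₀ ≤ m i) → ∀ (K : Type) [Field K] [Algebra K ℂ],
      Transcendental K (Real.pi : ℂ) → ∀ u : Fin n → ℂ, LinearIndependent K u →
        (({w : Fin s → List ℕ | (∀ i, w i ∈ hoffmanIn (l i) (N i) (m i)) ∧
          ¬ LinearIndependent K (Sum.elim u (fun i => (mzv (w i) : ℂ)))}).ncard : ℝ) ≤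
          ε * ∏ i, ((hoffmanIn (l i) (N i) (m i)).ncard : ℝ) := by
  classical
  have hε' : 0 < ε / (s + 1) := by positivity
  choose M hM using fun i : Fin s => subspace_window (l i) (n + s) (ε / (s + 1)) hε'
  refine ⟨Finset.univ.sup M, fun N m hm K _ _ hK u hu => ?_⟩
  set H : Fin s → Finset (List ℕ) := fun i => (hoffmanIn_finite (l i) (N i) (m i)).toFinset with hH
  have hHmem : ∀ i w, w ∈ H i ↔ w ∈ hoffmanIn (l i) (N i) (m i) := by
    intro i w
    rw [hH, Set.Finite.mem_toFinset]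
  have hHcard : ∀ i, (hoffmanIn (l i) (N i) (m i)).ncard = (H i).card := fun i =>
    Set.ncard_eq_toFinset_card _ (hoffmanIn_finite (l i) (N i) (m i))
  have h1 := tuples_general (K := K) (fun w => (mzv w : ℂ)) (ε / (s + 1)) hε'.le (n + s) s (Fin n) u hu H
    (by rw [Fintype.card_fin]) (by
      intro i V hVf hV
      have h2 := hM i (m i) ((Finset.le_sup (Finset.mem_univ i)).trans (hm i)) (N i) K hK V hVf hV
      rw [hHcard] at h2
      have h3 : (H i : Set (List ℕ)) = hoffmanIn (l i) (N i) (m i) := by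
        ext w
        rw [Finset.mem_coe, hHmem]
      rw [h3]
      exact h2)
  simp only [hHmem] at h1
  simp only [hHcard]
  refine h1.trans ?_
  have h4 : (s : ℝ) * (ε / (s + 1)) ≤ ε := by
    rw [mul_div_assoc']
    rw [div_le_iff₀ (by positivity)]
    nlinarith [Nat.cast_nonneg (α := ℝ) s]
  exact mul_le_mul_of_nonneg_right h4 (Finset.prod_nonneg fun _ _ => Nat.cast_nonneg _)

end Pool.HB89
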