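import Mathlib

/-!
Definitions used by the statement of `MP_c2d7b4_nt.FewThrees`.
-/

namespace Pool.HB89.Stmt

/-- The multiple zeta value `ζ(w)` of the word `w = [n₁, …, n_r]`, by the series of the problem. -/
noncomputable def zetaW (w : List ℕ) : ℝ :=
  ∑' k : {k : Fin w.length → ℕ // StrictAnti k ∧ ∀ i, 0 < k i},
    ∏ i, ((k.1 i : ℝ) ^ (w.get i))⁻¹

/-- The word `{2}^(a 0) 3 {2}^(a 1) 3 ⋯ 3 {2}^(a l)` with exactly `l` threes. -/
def word {l : ℕ} (a : Fin (l + 1) → ℕ) : List ℕ :=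
  List.replicate (a 0) 2 ++
    (List.finRange l).flatMap (fun i => 3 :: List.replicate (a i.succ) 2)

/-- All words over `{2, 3}` with exactly `l` threes and weight in `[N, N + m)`. -/
def hoffman (l N m : ℕ) : Set (List ℕ) :=
  {w | (∀ x ∈ w, x = 2 ∨ x = 3) ∧ w.count 3 = l ∧ N ≤ w.sum ∧ w.sum < N + m}

end Pool.HB89.Stmt
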