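import Pool.Agent.LibHB89.Defs
import Pool.Agent.LibHB89.Defs2
import Pool.Agent.LibHB89.Stmt

namespace Pool.HB89

theorem zetaW_eq (w : List ℕ) : Stmt.zetaW w = mzv w := rfl

theorem stmt_hoffman_eq (l N m : ℕ) : Stmt.hoffman l N m = hoffmanIn l N m := rfl

theorem stmt_word_eq (l : ℕ) (a : Fin (l + 1) → ℕ) : Stmt.word a = word l a := by
  induction l with
  | zero => simp [Stmt.word, word]
  | succ l ih =>
    have h := ih (fun i => a i.succ)
    show _ = List.replicate (a 0) 2 ++ 3 :: word l (fun i => a i.succ)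
    rw [← h]
    unfold Stmt.word
    rw [List.finRange_succ, List.flatMap_cons, List.flatMap_map]
    rfl

end Pool.HB89
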